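import Pool.Agent.Helper14.GT.Blow

/-!
# MP_7c440d_co: drawings of `K_n` without aligned clusters need `n / 4 - o(n)` layers

The vertices of a drawing of the complete graph in `t` plane layers are divided into `M` classes.
A pair of classes is *clean* if their convex hulls are disjoint and no line meets both hulls and
the hull of a third class.
-/

namespace Pool.Agent.Helper14.GT.AB

/-- `p` places the vertices of `G` in the plane as a geometric drawing: different vertices get
different points, and no edge (closed segment) passes through a vertex other than its two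
endpoints. -/
def IsGeometricDrawing {V : Type*} (G : SimpleGraph V) (p : V → ℝ × ℝ) : Prop :=
  Function.Injective p ∧
    ∀ a b : V, G.Adj a b → ∀ v : V, v ≠ a → v ≠ b → p v ∉ segment ℝ (p a) (p b)

/-- The segments `p a, p b` and `p c, p d` share a point that is not a common endpoint of the
edges `ab` and `cd`. -/
def Cross {V : Type*} (p : V → ℝ × ℝ) (a b c d : V) : Prop :=
  ∃ x : ℝ × ℝ, x ∈ segment ℝ (p a) (p b) ∧ x ∈ segment ℝ (p c) (p d) ∧
    ¬ ∃ v : V, (v = a ∨ v = b) ∧ (v = c ∨ v = d) ∧ x = p v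

/-- `p` is a geometric drawing of `G` whose edges can be coloured with `k` colours so that no two
different edges of the same colour cross. -/
def DrawnIn {V : Type*} (G : SimpleGraph V) (p : V → ℝ × ℝ) (k : ℕ) : Prop :=
  IsGeometricDrawing G p ∧ ∃ col : Sym2 V → Fin k,
    ∀ a b c d : V, G.Adj a b → G.Adj c d → s(a, b) ≠ s(c, d) → col s(a, b) = col s(c, d) →
      ¬ Cross p a b c d

/-- The convex hull of the points of the class `i`. -/
def Hull {V : Type*} {M : ℕ} (p : V → ℝ × ℝ) (c : V → Fin M) (i : Fin M) : Set (ℝ × ℝ) :=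
  convexHull ℝ (p '' {v | c v = i})

/-- The pair of classes `i`, `j` is clean: `i ≠ j`, the two hulls are disjoint and no line meets
both of them and the hull of a third class. -/
def Clean {V : Type*} {M : ℕ} (p : V → ℝ × ℝ) (c : V → Fin M) (i j : Fin M) : Prop :=
  i ≠ j ∧ Disjoint (Hull p c i) (Hull p c j) ∧
    ∀ k, k ≠ i → k ≠ j → ∀ x ∈ Hull p c i, ∀ y ∈ Hull p c j, ∀ z ∈ Hull p c k,
      ¬ Collinear ℝ ({x, y, z} : Set (ℝ × ℝ))

open Classical in
/-- The number of ordered pairs of vertices whose classes form a clean pair. -/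
noncomputable def cleanPairs {V : Type*} [Fintype V] {M : ℕ} (p : V → ℝ × ℝ) (c : V → Fin M) :
    ℕ :=
  (Finset.univ.filter (fun e : V × V => Clean p c (c e.1) (c e.2))).card

open Classical in
/-- The number of ordered pairs of vertices in different classes which form no clean pair. -/
noncomputable def alignedPairs {V : Type*} [Fintype V] {M : ℕ} (p : V → ℝ × ℝ)
    (c : V → Fin M) : ℕ :=
  (Finset.univ.filter (fun e : V × V => c e.1 ≠ c e.2 ∧ ¬ Clean p c (c e.1) (c e.2))).card

open Classical in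
/-- The number of vertices of the class `i`. -/
noncomputable def classSize {V : Type*} [Fintype V] {M : ℕ} (c : V → Fin M) (i : Fin M) : ℕ :=
  (Finset.univ.filter (fun v => c v = i)).card

open Helper24.GT in
private theorem card_prod_filter {V : Type*} [Fintype V] (Q : V → V → Prop)
    [DecidablePred fun e : V × V => Q e.1 e.2] :
    (Finset.univ.filter (fun e : V × V => Q e.1 e.2)).card = ∑ v, cnt (fun u => Q v u) := by
  classical
  rw [Finset.card_filter, Fintype.sum_prod_type]
  refine Finset.sum_congr rfl (fun v _ => ?_)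
  rw [Helper14.GT.cnt_eq_sum]
  refine Finset.sum_congr rfl (fun u _ => ?_)
  by_cases h : Q v u <;> simp [h]

theorem main {V : Type*} [Fintype V] {t M : ℕ} {p : V → ℝ × ℝ} (c : V → Fin M)
    (h : DrawnIn (⊤ : SimpleGraph V) p t) :
    3 * cleanPairs p c + alignedPairs p c ≤ 6 * t * (2 * Fintype.card V + M ^ 4) := by
  classical
  obtain ⟨hdr, col, hcol⟩ := h
  obtain ⟨ε, L, hX, hgp, hL, hcov, hdis⟩ := Helper14.GT.coordinates (col := col) hdr hcol
  have h1 := Helper14.GT.main_count (Helper14.GT.cleanRel p c ε) hX hgp hL hcov hdis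
  have e1 : cleanPairs p c = ∑ v, Helper24.GT.cnt (fun u => Helper14.GT.Clean p c (c v) (c u)) :=
    by unfold cleanPairs; exact card_prod_filter (fun v u => Clean p c (c v) (c u))
  have e2 : alignedPairs p c = ∑ v, Helper24.GT.cnt (fun u => c v ≠ c u ∧
      ¬ Helper14.GT.Clean p c (c v) (c u)) :=
    by unfold alignedPairs; exact card_prod_filter (fun v u => c v ≠ c u ∧ ¬ Clean p c (c v) (c u))
  rw [e1, e2]
  exact h1

theorem total {V : Type*} [Fintype V] {M : ℕ} (p : V → ℝ × ℝ) (c : V → Fin M) :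
    cleanPairs p c + alignedPairs p c + ∑ i, classSize c i ^ 2 = Fintype.card V ^ 2 := by
  classical
  have e1 : cleanPairs p c = ∑ v, Helper24.GT.cnt (fun u => Clean p c (c v) (c u)) :=
    by unfold cleanPairs; exact card_prod_filter (fun v u => Clean p c (c v) (c u))
  have e2 : alignedPairs p c = ∑ v, Helper24.GT.cnt (fun u => c v ≠ c u ∧
      ¬ Clean p c (c v) (c u)) :=
    by unfold alignedPairs; exact card_prod_filter (fun v u => c v ≠ c u ∧ ¬ Clean p c (c v) (c u))
  have e3 : ∑ i, classSize c i ^ 2 = ∑ v, Helper24.GT.cnt (fun u => c u = c v) := by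
    have h1 : ∀ v, Helper24.GT.cnt (fun u => c u = c v) = classSize c (c v) := by
      intro v
      unfold Helper24.GT.cnt classSize
      congr
    simp only [h1]
    have h2 : ∑ v, classSize c (c v) = ∑ i, ∑ v ∈ Finset.univ.filter (fun v => c v = i),
        classSize c (c v) := (Finset.sum_fiberwise _ _ _).symm
    rw [h2]
    refine Finset.sum_congr rfl (fun i _ => ?_)
    rw [Finset.sum_congr rfl (g := fun _ => classSize c i)
      (fun v hv => by rw [(Finset.mem_filter.1 hv).2])]
    rw [Finset.sum_const, smul_eq_mul, sq]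
    congr 1
  rw [e1, e2, e3, ← Helper14.GT.sum_inter_eq c, ← Finset.sum_add_distrib]
  congr 1
  refine Finset.sum_congr rfl (fun v _ => ?_)
  simp only [Helper14.GT.cnt_eq_sum]
  rw [← Finset.sum_add_distrib]
  refine Finset.sum_congr rfl (fun u _ => ?_)
  by_cases hcl : Clean p c (c v) (c u)
  · have := hcl.1
    simp [hcl, this]
  · simp [hcl]

theorem size_bound {V : Type*} [Fintype V] {M : ℕ} (c : V → Fin M) {b : ℝ}
    (hb : ∀ i, (classSize c i : ℝ) ≤ b) :
    ((∑ i, classSize c i ^ 2 : ℕ) : ℝ) ≤ b * Fintype.card V := by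
  classical
  have h1 : ∑ i, classSize c i = Fintype.card V := by
    have := Finset.card_eq_sum_card_fiberwise (s := (Finset.univ : Finset V)) (f := c)
      (t := Finset.univ) (fun _ _ => Finset.mem_univ _)
    rw [Finset.card_univ] at this
    rw [this]
    refine Finset.sum_congr rfl (fun i _ => ?_)
    unfold classSize
    congr
  rw [← h1]
  push_cast
  rw [Finset.mul_sum]
  refine Finset.sum_le_sum (fun i _ => ?_)
  rw [sq]
  exact mul_le_mul_of_nonneg_right (hb i) (Nat.cast_nonneg _)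

/-- **Main theorem.**  Let the complete graph on `V` be drawn in `t` plane layers.

1. For every division of `V` into `M` classes,
   `3 * #(ordered pairs in clean pairs of classes) + #(other ordered pairs in different classes)`
   is at most `6 t (2 |V| + M ^ 4)`.
2. For all `M` and `ε > 0` there is an `N` such that for `n ≥ N`, every drawing of `K_n` in at
   most `(1 / 4 - η) n` layers and every division into `M` classes with at most `ε n` vertices
   each, at least `(6 η - 2 ε) n ^ 2` ordered pairs lie in pairs of classes that are not clean.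
3. In particular, if all pairs of classes are clean, there are at least `(1 / 4 - ε) n` layers.
4. For every configuration `q` of `M` points, no three of them collinear, there is a `δ > 0` such
   that every drawing of the complete graph on `V` in `t` layers, with every vertex within `δ`
   of a point of `q`, satisfies `|V| ^ 2 - ∑ (class size) ^ 2 ≤ 2 t (2 |V| + M ^ 4)`. -/
theorem result :
    (∀ (V : Type) [Fintype V] (t M : ℕ) (p : V → ℝ × ℝ) (c : V → Fin M),
      DrawnIn (⊤ : SimpleGraph V) p t →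
        3 * cleanPairs p c + alignedPairs p c ≤ 6 * t * (2 * Fintype.card V + M ^ 4)) ∧
    (∀ (M : ℕ) (ε : ℝ), 0 < ε → ∃ N : ℕ, ∀ n : ℕ, N ≤ n → ∀ (t : ℕ) (p : Fin n → ℝ × ℝ)
      (c : Fin n → Fin M) (η : ℝ), DrawnIn (⊤ : SimpleGraph (Fin n)) p t →
        (∀ i, (classSize c i : ℝ) ≤ ε * n) → 0 ≤ η → (t : ℝ) ≤ (1 / 4 - η) * n →
          (6 * η - 2 * ε) * n ^ 2 ≤ alignedPairs p c) ∧
    (∀ (M : ℕ) (ε : ℝ), 0 < ε → ∃ N : ℕ, ∀ n : ℕ, N ≤ n → ∀ (t : ℕ) (p : Fin n → ℝ × ℝ)
      (c : Fin n → Fin M), DrawnIn (⊤ : SimpleGraph (Fin n)) p t →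
        (∀ i, (classSize c i : ℝ) ≤ ε * n) → (∀ i j, i ≠ j → Clean p c i j) →
          (1 / 4 - ε) * n ≤ t) ∧
    (∀ (M : ℕ) (q : Fin M → ℝ × ℝ), Function.Injective q →
      (∀ i j k, i ≠ j → i ≠ k → j ≠ k → ¬ Collinear ℝ ({q i, q j, q k} : Set (ℝ × ℝ))) →
        ∃ δ : ℝ, 0 < δ ∧ ∀ (V : Type) [Fintype V] (t : ℕ) (p : V → ℝ × ℝ) (c : V → Fin M),
          DrawnIn (⊤ : SimpleGraph V) p t → (∀ v, dist (p v) (q (c v)) < δ) →
            Fintype.card V ^ 2 ≤
              2 * t * (2 * Fintype.card V + M ^ 4) + ∑ i, classSize c i ^ 2) := by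
  refine ⟨fun V _ t M p c h => main c h, ?_, ?_, ?_⟩
  · intro M ε hε
    refine ⟨⌈2 * (M : ℝ) ^ 4 / ε⌉₊ + 1, ?_⟩
    intro n hn t p c η h hsize hη ht
    have h1 := main c h
    have h2 := total p c
    have h3 := size_bound c hsize
    rw [Fintype.card_fin] at h1 h2 h3
    have hn0 : (0 : ℝ) < n := by
      have : 0 < n := by omega
      exact_mod_cast this
    have hn1 : 2 * (M : ℝ) ^ 4 ≤ ε * n := by
      have g1 : 2 * (M : ℝ) ^ 4 / ε ≤ (⌈2 * (M : ℝ) ^ 4 / ε⌉₊ : ℝ) := Nat.le_ceil _
      have g2 : ((⌈2 * (M : ℝ) ^ 4 / ε⌉₊ : ℕ) : ℝ) + 1 ≤ n := by exact_mod_cast hn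
      have g3 : 2 * (M : ℝ) ^ 4 / ε ≤ n := by linarith
      rw [div_le_iff₀ hε] at g3
      linarith
    have h1' : 3 * (cleanPairs p c : ℝ) + alignedPairs p c ≤ 6 * t * (2 * n + M ^ 4) := by
      exact_mod_cast h1
    have h2' : (cleanPairs p c : ℝ) + alignedPairs p c + ((∑ i, classSize c i ^ 2 : ℕ) : ℝ) =
        (n : ℝ) ^ 2 := by
      exact_mod_cast h2
    have ht0 : (0 : ℝ) ≤ t := Nat.cast_nonneg _
    have g1 : 3 * (cleanPairs p c : ℝ) + 3 * alignedPairs p c ≥ 3 * (1 - ε) * n ^ 2 := by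
      nlinarith
    have g2 : (t : ℝ) * (12 * n + 6 * M ^ 4) ≤ (1 / 4 - η) * n * (12 * n + 6 * M ^ 4) :=
      mul_le_mul_of_nonneg_right ht (by positivity)
    have g3 : (1 / 4 - η) * n * (6 * (M : ℝ) ^ 4) ≤ (1 / 4) * n * (3 * (ε * n)) := by
      have g4 : (1 / 4 - η) * n ≤ 1 / 4 * n := by nlinarith
      have g5 : (0 : ℝ) ≤ 6 * (M : ℝ) ^ 4 := by positivity
      calc (1 / 4 - η) * n * (6 * (M : ℝ) ^ 4) ≤ 1 / 4 * n * (6 * (M : ℝ) ^ 4) :=
            mul_le_mul_of_nonneg_right g4 g5
        _ ≤ (1 / 4) * n * (3 * (ε * n)) :=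
            mul_le_mul_of_nonneg_left (by linarith) (by positivity)
    nlinarith
  · intro M ε hε
    refine ⟨⌈2 * (M : ℝ) ^ 4 / ε⌉₊ + 1, ?_⟩
    intro n hn t p c h hsize hclean
    have h1 := main c h
    have h2 := total p c
    have h3 := size_bound c hsize
    rw [Fintype.card_fin] at h1 h2 h3
    have h4 : alignedPairs p c = 0 := by
      classical
      unfold alignedPairs
      rw [Finset.card_eq_zero, Finset.filter_eq_empty_iff]
      rintro e - ⟨he1, he2⟩
      exact he2 (hclean _ _ he1)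
    have hn0 : (0 : ℝ) < n := by
      have : 0 < n := by omega
      exact_mod_cast this
    have hn1 : 2 * (M : ℝ) ^ 4 ≤ ε * n := by
      have g1 : 2 * (M : ℝ) ^ 4 / ε ≤ (⌈2 * (M : ℝ) ^ 4 / ε⌉₊ : ℝ) := Nat.le_ceil _
      have g2 : ((⌈2 * (M : ℝ) ^ 4 / ε⌉₊ : ℕ) : ℝ) + 1 ≤ n := by exact_mod_cast hn
      have g3 : 2 * (M : ℝ) ^ 4 / ε ≤ n := by linarith
      rw [div_le_iff₀ hε] at g3
      linarith
    rw [h4] at h1 h2
    have h1' : 3 * (cleanPairs p c : ℝ) ≤ 6 * t * (2 * n + M ^ 4) := by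
      exact_mod_cast h1
    have h2' : (cleanPairs p c : ℝ) + ((∑ i, classSize c i ^ 2 : ℕ) : ℝ) = (n : ℝ) ^ 2 := by
      exact_mod_cast h2
    by_contra hcon
    push Not at hcon
    have ht0 : (0 : ℝ) ≤ t := Nat.cast_nonneg _
    have g2 : (t : ℝ) * (12 * n + 6 * M ^ 4) ≤ (1 / 4 - ε) * n * (12 * n + 6 * M ^ 4) :=
      mul_le_mul_of_nonneg_right hcon.le (by positivity)
    have g3 : (1 / 4 - ε) * n * (6 * (M : ℝ) ^ 4) ≤ (1 / 4) * n * (3 * (ε * n)) := by
      have g4 : (1 / 4 - ε) * n ≤ 1 / 4 * n := by nlinarith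
      have g5 : (0 : ℝ) ≤ 6 * (M : ℝ) ^ 4 := by positivity
      calc (1 / 4 - ε) * n * (6 * (M : ℝ) ^ 4) ≤ 1 / 4 * n * (6 * (M : ℝ) ^ 4) :=
            mul_le_mul_of_nonneg_right g4 g5
        _ ≤ (1 / 4) * n * (3 * (ε * n)) :=
            mul_le_mul_of_nonneg_left (by linarith) (by positivity)
    have g6 : 0 < ε * (n : ℝ) ^ 2 := by positivity
    nlinarith
  · intro M q hinj hq
    obtain ⟨δ, hδ0, hδ⟩ := Helper14.GT.clean_of_close q hinj hq
    refine ⟨δ, hδ0, ?_⟩
    intro V _ t p c h hclose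
    have hclean := hδ V p c hclose
    have h1 := main c h
    have h2 := total p c
    have h4 : alignedPairs p c = 0 := by
      classical
      unfold alignedPairs
      rw [Finset.card_eq_zero, Finset.filter_eq_empty_iff]
      rintro e - ⟨he1, he2⟩
      exact he2 (hclean _ _ he1)
    rw [h4] at h1 h2
    have e1 : 6 * t * (2 * Fintype.card V + M ^ 4) = 3 * (2 * t * (2 * Fintype.card V + M ^ 4)) := by
      ring
    rw [e1] at h1
    omega

end Pool.Agent.Helper14.GT.AB
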