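import Pool.Agent.Helper14.GT.Cnt

/-!
# Mutually avoiding classes

The line through two vertices does not separate the vertices of another class.  Then every class
is linearly ordered as seen from a vertex of another class, and the order depends on the other
class only.
-/

namespace Helper14.GT

open Helper24.GT

variable {V : Type*} {M : ℕ} {X Y : V → ℝ} {c : V → Fin M}

/-- The properties of orientations of mutually avoiding classes which are used. -/
structure AvRel (X Y : V → ℝ) (c : V → Fin M) : Prop where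
  const : ∀ u v z z' : V, u ≠ v → c z = c z' → c z ≠ c u → c z ≠ c v →
    0 < D X Y u v z → 0 < D X Y u v z'
  out : ∀ a x y z : V, c x = c y → c y = c z → c a ≠ c x →
    ¬ (0 < D X Y a x y ∧ 0 < D X Y a y z ∧ 0 < D X Y a z x)

theorem D_self1 (X Y : V → ℝ) (a b : V) : D X Y a a b = 0 := by unfold D; ring
theorem D_self2 (X Y : V → ℝ) (a b : V) : D X Y a b a = 0 := by unfold D; ring
theorem D_self3 (X Y : V → ℝ) (a b : V) : D X Y a b b = 0 := by unfold D; ring

namespace AvRel

theorem const_neg (h : AvRel X Y c) {u v z z' : V} (huv : u ≠ v) (hz : c z = c z')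
    (h1 : c z ≠ c u) (h2 : c z ≠ c v) (hs : D X Y u v z < 0) : D X Y u v z' < 0 := by
  have e1 : D X Y u v z = - D X Y v u z := by unfold D; ring
  have e2 : D X Y u v z' = - D X Y v u z' := by unfold D; ring
  have := h.const v u z z' huv.symm hz h2 h1 (by linarith)
  linarith

/-- The same with the class seen as the first argument. -/
theorem view (h : AvRel X Y c) {w w' u v : V} (huv : u ≠ v) (hw : c w = c w')
    (h1 : c w ≠ c u) (h2 : c w ≠ c v) (hs : 0 < D X Y w u v) : 0 < D X Y w' u v := by
  have e1 : D X Y w u v = D X Y u v w := by unfold D; ring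
  have e2 : D X Y w' u v = D X Y u v w' := by unfold D; ring
  rw [e2]
  exact h.const u v w w' huv hw h1 h2 (by linarith)

theorem view_neg (h : AvRel X Y c) {w w' u v : V} (huv : u ≠ v) (hw : c w = c w')
    (h1 : c w ≠ c u) (h2 : c w ≠ c v) (hs : D X Y w u v < 0) : D X Y w' u v < 0 := by
  have e1 : D X Y w u v = D X Y u v w := by unfold D; ring
  have e2 : D X Y w' u v = D X Y u v w' := by unfold D; ring
  rw [e2]
  exact h.const_neg huv hw h1 h2 (by linarith)

theorem const3 (h : AvRel X Y c) {a a' b b' d d' : V} (ha : c a = c a') (hb : c b = c b')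
    (hd : c d = c d') (hab : c a ≠ c b) (had : c a ≠ c d) (hbd : c b ≠ c d)
    (hs : 0 < D X Y a b d) : 0 < D X Y a' b' d' := by
  have n : ∀ {x y : V}, c x ≠ c y → x ≠ y := fun h e => h (by rw [e])
  have h1 : 0 < D X Y a b d' := h.const a b d d' (n hab) hd had.symm hbd.symm hs
  have h2 : 0 < D X Y a' b d' := by
    refine h.view (n ?_) ha hab ?_ h1
    · rw [← hd]; exact hbd
    · rw [← hd]; exact had
  have e : D X Y a' b d' = D X Y b d' a' := by unfold D; ring
  have h3 : 0 < D X Y b' d' a' := by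
    rw [e] at h2
    refine h.view (n ?_) hb ?_ ?_ h2
    · rw [← hd, ← ha]; exact had.symm
    · rw [← hd]; exact hbd
    · rw [← ha]; exact hab.symm
  have e' : D X Y a' b' d' = D X Y b' d' a' := by unfold D; ring
  rw [e']; exact h3

theorem const3_neg (h : AvRel X Y c) {a a' b b' d d' : V} (ha : c a = c a') (hb : c b = c b')
    (hd : c d = c d') (hab : c a ≠ c b) (had : c a ≠ c d) (hbd : c b ≠ c d)
    (hs : D X Y a b d < 0) : D X Y a' b' d' < 0 := by
  have e1 : D X Y a b d = - D X Y a d b := by unfold D; ring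
  have e2 : D X Y a' b' d' = - D X Y a' d' b' := by unfold D; ring
  have := h.const3 ha hd hb had hab hbd.symm (by linarith)
  linarith

/-- The order seen from `w` is transitive. -/
theorem trans (h : AvRel X Y c) (hgp : GP X Y) {w u v z : V} (h1 : c u = c v) (h2 : c v = c z)
    (hw : c w ≠ c u) (a1 : 0 < D X Y w u v) (a2 : 0 < D X Y w v z) : 0 < D X Y w u z := by
  by_contra hcon
  push Not at hcon
  have n : ∀ {x y : V}, c x ≠ c y → x ≠ y := fun h e => h (by rw [e])
  by_cases huz : u = z
  · subst huz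
    have := D_swap X Y w u v
    linarith
  · have hne : D X Y w u z ≠ 0 := D_ne hgp (n hw) (n (by rw [← h2, ← h1]; exact hw)) huz
    have hlt : D X Y w u z < 0 := lt_of_le_of_ne hcon hne
    have := D_swap X Y w u z
    exact h.out w u v z h1 h2 hw ⟨a1, a2, by linarith⟩

end AvRel

/-- Rank of `v` in its class as seen from `w`. -/
noncomputable def rnk [Fintype V] (X Y : V → ℝ) (c : V → Fin M) (w v : V) : ℕ :=
  cnt (fun u => c u = c v ∧ 0 < D X Y w u v)

open Classical in
theorem cnt_lt_cnt [Fintype V] {P Q : V → Prop} (h : ∀ u, P u → Q u) {v : V} (hv : Q v)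
    (hv' : ¬ P v) : cnt P < cnt Q := by
  unfold cnt
  apply Finset.card_lt_card
  rw [Finset.ssubset_iff_of_subset]
  · exact ⟨v, Finset.mem_filter.2 ⟨Finset.mem_univ _, hv⟩,
      fun h => hv' (Finset.mem_filter.1 h).2⟩
  · intro u hu
    exact Finset.mem_filter.2 ⟨Finset.mem_univ _, h u (Finset.mem_filter.1 hu).2⟩

open Classical in
theorem cnt_le_cnt [Fintype V] {P Q : V → Prop} (h : ∀ u, P u → Q u) : cnt P ≤ cnt Q := by
  unfold cnt
  apply Finset.card_le_card
  intro u hu
  exact Finset.mem_filter.2 ⟨Finset.mem_univ _, h u (Finset.mem_filter.1 hu).2⟩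

section
variable [Fintype V]

theorem rnk_lt (h : AvRel X Y c) (hgp : GP X Y) {w u v : V} (huv : c u = c v) (hw : c w ≠ c u)
    (hs : 0 < D X Y w u v) : rnk X Y c w u < rnk X Y c w v := by
  unfold rnk
  refine cnt_lt_cnt (v := u) ?_ ⟨huv, hs⟩ ?_
  · rintro x ⟨hx1, hx2⟩
    exact ⟨hx1.trans huv, h.trans hgp hx1 huv (by rw [hx1]; exact hw) hx2 hs⟩
  · rintro ⟨-, hx⟩
    rw [D_self3] at hx
    exact lt_irrefl _ hx

theorem rnk_lt_size (w v : V) : rnk X Y c w v < cnt (fun u => c u = c v) := by
  unfold rnk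
  refine cnt_lt_cnt (v := v) (fun u hu => hu.1) rfl ?_
  rintro ⟨-, hx⟩
  rw [D_self3] at hx
  exact lt_irrefl _ hx

theorem rnk_congr (h : AvRel X Y c) {w w' v : V} (hw : c w = c w') (hv : c w ≠ c v) :
    rnk X Y c w v = rnk X Y c w' v := by
  unfold rnk
  refine cnt_congr' (fun u => ?_)
  constructor
  · rintro ⟨h1, h2⟩
    refine ⟨h1, ?_⟩
    have hne : u ≠ v := by
      rintro rfl
      rw [D_self3] at h2
      exact lt_irrefl _ h2
    exact h.view hne hw (by rw [h1]; exact hv) hv h2
  · rintro ⟨h1, h2⟩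
    refine ⟨h1, ?_⟩
    have hne : u ≠ v := by
      rintro rfl
      rw [D_self3] at h2
      exact lt_irrefl _ h2
    exact h.view hne hw.symm (by rw [h1, ← hw]; exact hv) (by rw [← hw]; exact hv) h2

theorem lt_of_rnk_lt (h : AvRel X Y c) (hgp : GP X Y) {w u v : V} (huv : c u = c v)
    (hw : c w ≠ c u) (hs : rnk X Y c w u < rnk X Y c w v) : 0 < D X Y w u v := by
  by_contra hcon
  push Not at hcon
  have hne : u ≠ v := by
    rintro rfl
    exact lt_irrefl _ hs
  have n : ∀ {x y : V}, c x ≠ c y → x ≠ y := fun h e => h (by rw [e])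
  have h1 : D X Y w u v ≠ 0 := D_ne hgp (n hw) (n (by rw [← huv]; exact hw)) hne
  have h2 : D X Y w u v < 0 := lt_of_le_of_ne hcon h1
  have h3 := D_swap X Y w u v
  have := rnk_lt h hgp huv.symm (by rw [← huv]; exact hw) (w := w) (u := v) (v := u)
    (by linarith)
  omega

theorem rnk_ne (h : AvRel X Y c) (hgp : GP X Y) {w u v : V} (huv : c u = c v)
    (hw : c w ≠ c u) (hne : u ≠ v) : rnk X Y c w u ≠ rnk X Y c w v := by
  have n : ∀ {x y : V}, c x ≠ c y → x ≠ y := fun h e => h (by rw [e])
  have h1 : D X Y w u v ≠ 0 := D_ne hgp (n hw) (n (by rw [← huv]; exact hw)) hne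
  rcases lt_or_gt_of_ne h1 with h2 | h2
  · have h3 := D_swap X Y w u v
    have := rnk_lt h hgp huv.symm (by rw [← huv]; exact hw) (w := w) (u := v) (v := u)
      (by linarith)
    omega
  · have := rnk_lt h hgp huv hw h2
    omega

end

end Helper14.GT
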