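import Pool.Agent.Helper14.GT.Cnt
import Pool.Agent.Helper24.GT.Fin.D

/-!
# Clean pairs of clusters of a drawing
-/

namespace Helper14.GT

open Helper24.GT

/-- Twice the signed area of the triangle `P Q R`. -/
def det3 (P Q R : ℝ × ℝ) : ℝ := (Q.1 - P.1) * (R.2 - P.2) - (R.1 - P.1) * (Q.2 - P.2)

theorem D_eq_det3 {V : Type*} (p : V → ℝ × ℝ) (ε : ℝ) (a b d : V) :
    D (fun v => (p v).1 + ε * (p v).2) (fun v => (p v).2) a b d = det3 (p a) (p b) (p d) := by
  unfold D det3
  ring

theorem collinear_of_det3 {P Q R : ℝ × ℝ} (h : det3 P Q R = 0) :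
    Collinear ℝ ({P, Q, R} : Set (ℝ × ℝ)) := by
  unfold det3 at h
  rw [collinear_iff_of_mem (p₀ := P) (by simp)]
  by_cases h1 : Q.1 = P.1
  · by_cases h2 : Q.2 = P.2
    · have hQP : Q = P := Prod.ext h1 h2
      refine ⟨R - P, ?_⟩
      intro z hz
      simp only [Set.mem_insert_iff, Set.mem_singleton_iff] at hz
      rcases hz with rfl | rfl | rfl
      · exact ⟨0, by simp⟩
      · exact ⟨0, by simp [hQP]⟩
      · exact ⟨1, by simp⟩
    · refine ⟨Q - P, ?_⟩
      intro z hz
      simp only [Set.mem_insert_iff, Set.mem_singleton_iff] at hz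
      rcases hz with rfl | rfl | rfl
      · exact ⟨0, by simp⟩
      · exact ⟨1, by simp⟩
      · have h3 : Q.2 - P.2 ≠ 0 := sub_ne_zero.2 h2
        have h4 : z.1 - P.1 = 0 := by
          rw [h1, sub_self, zero_mul, zero_sub, neg_eq_zero] at h
          exact (mul_eq_zero.1 h).resolve_right h3
        refine ⟨(z.2 - P.2) / (Q.2 - P.2), ?_⟩
        apply Prod.ext
        · simp only [vadd_eq_add, Prod.fst_add, Prod.smul_fst, Prod.fst_sub, smul_eq_mul]
          rw [h1]
          linarith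
        · simp only [vadd_eq_add, Prod.snd_add, Prod.smul_snd, Prod.snd_sub, smul_eq_mul]
          field_simp
          ring
  · refine ⟨Q - P, ?_⟩
    intro z hz
    simp only [Set.mem_insert_iff, Set.mem_singleton_iff] at hz
    rcases hz with rfl | rfl | rfl
    · exact ⟨0, by simp⟩
    · exact ⟨1, by simp⟩
    · have h3 : Q.1 - P.1 ≠ 0 := sub_ne_zero.2 h1
      refine ⟨(z.1 - P.1) / (Q.1 - P.1), ?_⟩
      apply Prod.ext
      · simp only [vadd_eq_add, Prod.fst_add, Prod.smul_fst, Prod.fst_sub, smul_eq_mul]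
        field_simp
        ring
      · simp only [vadd_eq_add, Prod.snd_add, Prod.smul_snd, Prod.snd_sub, smul_eq_mul]
        rw [div_mul_eq_mul_div, div_add' _ _ _ h3, eq_div_iff h3]
        linarith

/-- On convex sets no three points of which are collinear the orientation is constant. -/
theorem det3_const {A B C : Set (ℝ × ℝ)} (hA : Convex ℝ A) (hB : Convex ℝ B) (hC : Convex ℝ C)
    (hne : ∀ x ∈ A, ∀ y ∈ B, ∀ z ∈ C, det3 x y z ≠ 0) {a a' b b' d d' : ℝ × ℝ}
    (ha : a ∈ A) (ha' : a' ∈ A) (hb : b ∈ B) (hb' : b' ∈ B) (hd : d ∈ C) (hd' : d' ∈ C)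
    (h : 0 < det3 a b d) : 0 < det3 a' b' d' := by
  by_contra hcon
  push Not at hcon
  set f : ℝ → ℝ := fun s => det3 (a + s • (a' - a)) (b + s • (b' - b)) (d + s • (d' - d)) with hf
  have hcont : Continuous f := by
    rw [hf]
    unfold det3
    fun_prop
  have h0 : f 0 = det3 a b d := by simp [hf]
  have h1 : f 1 = det3 a' b' d' := by simp [hf]
  have hmem : (0 : ℝ) ∈ f '' Set.Icc 0 1 := by
    apply intermediate_value_Icc' zero_le_one hcont.continuousOn
    rw [h0, h1]
    exact ⟨hcon, h.le⟩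
  obtain ⟨s, hs, hs0⟩ := hmem
  have key : ∀ {S : Set (ℝ × ℝ)}, Convex ℝ S → ∀ {u v : ℝ × ℝ}, u ∈ S → v ∈ S →
      u + s • (v - u) ∈ S := by
    intro S hS u v hu hv
    exact hS.add_smul_sub_mem hu hv hs
  exact hne _ (key hA ha ha') _ (key hB hb hb') _ (key hC hd hd') hs0

/-- A point which sees `x`, `y`, `z` in positive cyclic order is in their triangle. -/
theorem mem_of_det3 {S : Set (ℝ × ℝ)} (hS : Convex ℝ S) {a x y z : ℝ × ℝ} (hx : x ∈ S)
    (hy : y ∈ S) (hz : z ∈ S) (h1 : 0 < det3 a x y) (h2 : 0 < det3 a y z)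
    (h3 : 0 < det3 a z x) : a ∈ S := by
  set w := det3 a x y + det3 a y z + det3 a z x with hw
  have hw0 : 0 < w := by positivity
  have hcomb : a = (det3 a y z / w) • x + (det3 a z x / w) • y + (det3 a x y / w) • z := by
    apply Prod.ext
    · simp only [Prod.fst_add, Prod.smul_fst, smul_eq_mul]
      field_simp
      rw [hw]
      unfold det3
      ring
    · simp only [Prod.snd_add, Prod.smul_snd, smul_eq_mul]
      field_simp
      rw [hw]
      unfold det3
      ring
  rw [hcomb]
  have := hS.sum_mem (t := (Finset.univ : Finset (Fin 3)))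
    (w := ![det3 a y z / w, det3 a z x / w, det3 a x y / w]) (z := ![x, y, z]) ?_ ?_ ?_
  · simpa [Fin.sum_univ_three] using this
  · intro i _
    fin_cases i
    · exact (div_pos h2 hw0).le
    · exact (div_pos h3 hw0).le
    · exact (div_pos h1 hw0).le
  · simp only [Fin.sum_univ_three, Matrix.cons_val_zero, Matrix.cons_val_one, Matrix.cons_val]
    field_simp
    rw [hw]
    ring
  · intro i _
    fin_cases i
    · exact hx
    · exact hy
    · exact hz

/-- The convex hull of the points of a class. -/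
def Hull {V : Type*} {M : ℕ} (p : V → ℝ × ℝ) (c : V → Fin M) (i : Fin M) : Set (ℝ × ℝ) :=
  convexHull ℝ (p '' {v | c v = i})

/-- The pair of classes `i`, `j` is clean: the two hulls are disjoint and no line meets both of
them and the hull of a third class. -/
def Clean {V : Type*} {M : ℕ} (p : V → ℝ × ℝ) (c : V → Fin M) (i j : Fin M) : Prop :=
  i ≠ j ∧ Disjoint (Hull p c i) (Hull p c j) ∧
    ∀ k, k ≠ i → k ≠ j → ∀ x ∈ Hull p c i, ∀ y ∈ Hull p c j, ∀ z ∈ Hull p c k,
      ¬ Collinear ℝ ({x, y, z} : Set (ℝ × ℝ))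

theorem mem_Hull {V : Type*} {M : ℕ} {p : V → ℝ × ℝ} {c : V → Fin M} {i : Fin M} {v : V}
    (h : c v = i) : p v ∈ Hull p c i :=
  subset_convexHull ℝ _ ⟨v, h, rfl⟩

theorem convex_Hull {V : Type*} {M : ℕ} (p : V → ℝ × ℝ) (c : V → Fin M) (i : Fin M) :
    Convex ℝ (Hull p c i) := convex_convexHull ℝ _

theorem clean_symm {V : Type*} {M : ℕ} {p : V → ℝ × ℝ} {c : V → Fin M} {i j : Fin M}
    (h : Clean p c i j) : Clean p c j i := by
  obtain ⟨h1, h2, h3⟩ := h
  refine ⟨h1.symm, h2.symm, ?_⟩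
  intro k hkj hki x hx y hy z hz
  have := h3 k hki hkj y hy x hx z hz
  rwa [Set.insert_comm] at this

theorem cleanRel {V : Type*} {M : ℕ} (p : V → ℝ × ℝ) (c : V → Fin M) (ε : ℝ) :
    CleanRel (fun v => (p v).1 + ε * (p v).2) (fun v => (p v).2) c (Clean p c) where
  ne := fun i j h => h.1
  symm := fun i j h => clean_symm h
  const := by
    intro i j hij k hki hkj a a' b b' d d' ha ha' hb hb' hd hd' h
    rw [D_eq_det3] at h ⊢
    refine det3_const (convex_Hull p c i) (convex_Hull p c j) (convex_Hull p c k) ?_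
      (mem_Hull ha) (mem_Hull ha') (mem_Hull hb) (mem_Hull hb') (mem_Hull hd) (mem_Hull hd') h
    intro x hx y hy z hz h0
    exact hij.2.2 k hki hkj x hx y hy z hz (collinear_of_det3 h0)
  out := by
    intro i j hij a x y z ha hx hy hz h
    rw [D_eq_det3, D_eq_det3, D_eq_det3] at h
    have := mem_of_det3 (convex_Hull p c j) (mem_Hull hx) (mem_Hull hy) (mem_Hull hz)
      h.1 h.2.1 h.2.2
    exact Set.disjoint_left.1 hij.2.1 (mem_Hull ha) this

/-- The layers of a drawing in generic coordinates (the proof of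
`Helper24.GT.exists_coordinates`, with the coordinates kept). -/
theorem coordinates {V : Type*} [Fintype V] {t : ℕ} {p : V → ℝ × ℝ} {col : Sym2 V → Fin t}
    (hdr : IsGeometricDrawing (⊤ : SimpleGraph V) p)
    (hcol : ∀ a b c d : V, (⊤ : SimpleGraph V).Adj a b → (⊤ : SimpleGraph V).Adj c d →
      s(a, b) ≠ s(c, d) → col s(a, b) = col s(c, d) → ¬ Cross p a b c d) :
    ∃ (ε : ℝ) (L : Fin t → SimpleGraph V),
      Function.Injective (fun v => (p v).1 + ε * (p v).2) ∧
      GP (fun v => (p v).1 + ε * (p v).2) (fun v => (p v).2) ∧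
      (∀ i, Pln (fun v => (p v).1 + ε * (p v).2) (fun v => (p v).2) (L i)) ∧
      (∀ u v : V, u ≠ v → ∃ i, (L i).Adj u v) ∧
      (∀ u v : V, ∀ i j, (L i).Adj u v → (L j).Adj u v → i = j) := by
  obtain ⟨hinj, hnt⟩ := hdr
  obtain ⟨ε, hε⟩ := D_exists_eps hinj
  have hnt' : ∀ a b : V, a ≠ b → ∀ v : V, v ≠ a → v ≠ b → p v ∉ segment ℝ (p a) (p b) := by
    intro a b hab v hva hvb
    exact hnt a b ((SimpleGraph.top_adj a b).2 hab) v hva hvb
  refine ⟨ε,
    fun i => { Adj := fun u v => u ≠ v ∧ col s(u, v) = i,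
               symm := ⟨fun u v h => ⟨h.1.symm, by rw [Sym2.eq_swap]; exact h.2⟩⟩,
               loopless := ⟨fun u h => h.1 rfl⟩ }, hε, ?_, ?_, ?_, ?_⟩
  · intro a b c hab hac hbc h0
    have n1 : (p a).1 + ε * (p a).2 ≠ (p b).1 + ε * (p b).2 := fun e => hab (hε e)
    have n2 : (p a).1 + ε * (p a).2 ≠ (p c).1 + ε * (p c).2 := fun e => hac (hε e)
    have n3 : (p b).1 + ε * (p b).2 ≠ (p c).1 + ε * (p c).2 := fun e => hbc (hε e)
    rcases lt_or_gt_of_ne n1 with h1 | h1 <;> rcases lt_or_gt_of_ne n2 with h2 | h2 <;>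
      rcases lt_or_gt_of_ne n3 with h3 | h3
    · exact D_key hnt' h1 h3 (by linear_combination h0)
    · exact D_key hnt' h2 h3 (by linear_combination -h0)
    · linarith
    · exact D_key hnt' h2 h1 (by linear_combination h0)
    · exact D_key hnt' h1 h2 (by linear_combination -h0)
    · linarith
    · exact D_key hnt' h3 h2 (by linear_combination h0)
    · exact D_key hnt' h3 h1 (by linear_combination -h0)
  · intro i a b c d hab hcd hac had hbc hbd α β hα hα' hβ hβ' hx hy
    have hne : s(a, b) ≠ s(c, d) := by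
      intro e
      rw [Sym2.eq_iff] at e
      rcases e with ⟨e1, _⟩ | ⟨e1, _⟩
      · exact hac e1
      · exact had e1
    refine hcol a b c d ((SimpleGraph.top_adj a b).2 hab.1) ((SimpleGraph.top_adj c d).2 hcd.1)
      hne (hab.2.trans hcd.2.symm) ⟨(1 - α) • p a + α • p b, ?_, ?_, ?_⟩
    · exact ⟨1 - α, α, by linarith, hα, by ring, rfl⟩
    · refine ⟨1 - β, β, by linarith, hβ, by ring, ?_⟩
      apply Prod.ext
      · simp only [Prod.fst_add, Prod.smul_fst, smul_eq_mul]
        simp only at hx hy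
        linear_combination -hx + ε * hy
      · simp only [Prod.snd_add, Prod.smul_snd, smul_eq_mul]
        simp only at hx hy
        linear_combination -hy
    · rintro ⟨v, h1, h2, -⟩
      rcases h1 with rfl | rfl <;> rcases h2 with e | e
      · exact hac e
      · exact had e
      · exact hbc e
      · exact hbd e
  · intro u v huv
    exact ⟨col s(u, v), huv, rfl⟩
  · intro u v i j hi hj
    exact hi.2.symm.trans hj.2

end Helper14.GT
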