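import Pool.Agent.Helper14.GT.Tot
import Pool.Agent.Helper14.GT.Geo

/-!
# Mutually avoiding clusters of a drawing
-/

namespace Helper14.GT

open Helper24.GT

/-- The hulls of different classes are disjoint, and the line through two vertices meets the hull
of no class other than the classes of these two vertices. -/
def Avoid {V : Type*} {M : ℕ} (p : V → ℝ × ℝ) (c : V → Fin M) : Prop :=
  (∀ i j, i ≠ j → Disjoint (Hull p c i) (Hull p c j)) ∧
    ∀ u v : V, u ≠ v → ∀ k, k ≠ c u → k ≠ c v → ∀ z ∈ Hull p c k,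
      ¬ Collinear ℝ ({p u, p v, z} : Set (ℝ × ℝ))

theorem avRel {V : Type*} {M : ℕ} {p : V → ℝ × ℝ} {c : V → Fin M} (h : Avoid p c) (ε : ℝ) :
    AvRel (fun v => (p v).1 + ε * (p v).2) (fun v => (p v).2) c where
  const := by
    intro u v z z' huv hz h1 h2 hs
    rw [D_eq_det3] at hs ⊢
    refine det3_const (convex_singleton (p u)) (convex_singleton (p v))
      (convex_Hull p c (c z)) ?_ rfl rfl rfl rfl (mem_Hull rfl) (mem_Hull hz.symm) hs
    intro x hx y hy w hw h0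
    rw [Set.mem_singleton_iff] at hx hy
    subst hx hy
    exact h.2 u v huv (c z) h1 h2 w hw (collinear_of_det3 h0)
  out := by
    intro a x y z hxy hyz hax hs
    rw [D_eq_det3, D_eq_det3, D_eq_det3] at hs
    have := mem_of_det3 (convex_Hull p c (c x)) (mem_Hull rfl) (mem_Hull hxy.symm)
      (mem_Hull (hxy.trans hyz).symm) hs.1 hs.2.1 hs.2.2
    exact Set.disjoint_left.1 (h.1 _ _ hax) (mem_Hull rfl) this

/-- The final computation. -/
theorem numeric2 (M : ℕ) : ∃ C : ℝ, 0 ≤ C ∧ ∀ n t S : ℕ,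
    (∀ s : ℕ, 3 * n ^ 2 ≤ S + 2 * n + 4 * s * M * n + 2 * t * KK M n s) →
      (n : ℝ) / 4 - (S : ℝ) / (12 * n) - C * Real.sqrt n ≤ t := by
  set A : ℝ := 6 * (M : ℝ) ^ 2 + 2 * (M : ℝ) ^ 4 + 2 * ((M : ℝ) + M * M) * M +
    (M : ℝ) * M ^ 4 with hA
  set B : ℝ := 2 * ((M : ℝ) + M * M) with hB
  have hA0 : 0 ≤ A := by positivity
  have hB0 : 0 ≤ B := by positivity
  refine ⟨1 / 6 + M / 3 + (A + B) / 6, by positivity, ?_⟩
  intro n t S H
  have ht0 : (0 : ℝ) ≤ t := Nat.cast_nonneg _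
  have hS0 : (0 : ℝ) ≤ S := Nat.cast_nonneg _
  rcases Nat.eq_zero_or_pos n with h0 | hn
  · subst h0
    simp
  have hnR : (0 : ℝ) < n := by exact_mod_cast hn
  set r : ℝ := Real.sqrt n with hr
  have hr2 : r * r = n := Real.mul_self_sqrt hnR.le
  have hr1 : 1 ≤ r := by
    rw [hr]
    rw [show (1 : ℝ) = Real.sqrt 1 by simp]
    exact Real.sqrt_le_sqrt (by exact_mod_cast hn)
  have hr0 : 0 < r := by linarith
  have hC0 : 0 ≤ (1 / 6 + (M : ℝ) / 3 + (A + B) / 6) * r := by positivity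
  have hS12 : 0 ≤ (S : ℝ) / (12 * n) := by positivity
  rcases le_or_gt (n : ℝ) t with hle | hlt
  · linarith
  have h := H (Nat.sqrt n)
  have hs1 : ((Nat.sqrt n : ℕ) : ℝ) ≤ r := Real.nat_sqrt_le_real_sqrt
  have hs2 : r < (Nat.sqrt n : ℕ) + 1 := Real.real_sqrt_lt_nat_sqrt_succ
  have hdiv : ((n / (Nat.sqrt n + 1) : ℕ) : ℝ) ≤ r := by
    have h1 : ((n / (Nat.sqrt n + 1) : ℕ) : ℝ) ≤ (n : ℝ) / ((Nat.sqrt n + 1 : ℕ) : ℝ) :=
      Nat.cast_div_le
    refine h1.trans ?_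
    rw [div_le_iff₀ (by positivity)]
    push_cast
    nlinarith
  have hK : (KK M n (Nat.sqrt n) : ℝ) ≤ 6 * n + (A + B) * r := by
    unfold KK
    push_cast
    have e1 : ((M : ℝ) + M * M) * ((n / (Nat.sqrt n + 1) : ℕ) : ℝ) ≤ ((M : ℝ) + M * M) * r :=
      mul_le_mul_of_nonneg_left hdiv (by positivity)
    have e2 : A ≤ A * r := le_mul_of_one_le_right hA0 hr1
    push_cast at e1
    rw [hA, hB] at *
    nlinarith
  have h' : 3 * (n : ℝ) ^ 2 ≤ S + 2 * n + 4 * (Nat.sqrt n : ℕ) * M * n +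
      2 * t * KK M n (Nat.sqrt n) := by exact_mod_cast h
  have g1 : 4 * ((Nat.sqrt n : ℕ) : ℝ) * M * n ≤ 4 * r * M * n := by
    have : (0 : ℝ) ≤ 4 * M * n := by positivity
    nlinarith
  have g2 : 2 * (t : ℝ) * KK M n (Nat.sqrt n) ≤ 2 * t * (6 * n + (A + B) * r) :=
    mul_le_mul_of_nonneg_left hK (by positivity)
  have g3 : 2 * (t : ℝ) * ((A + B) * r) ≤ 2 * n * ((A + B) * r) :=
    mul_le_mul_of_nonneg_right (by linarith) (by positivity)
  have g4 : 3 * (n : ℝ) ^ 2 ≤ S + 2 * n * r + 4 * r * M * n + 12 * t * n +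
      2 * n * ((A + B) * r) := by
    have : 2 * (n : ℝ) ≤ 2 * n * r := by nlinarith
    nlinarith
  have g5 : (n : ℝ) / 4 - (S : ℝ) / (12 * n) - (1 / 6 + (M : ℝ) / 3 + (A + B) / 6) * r - t ≤ 0 := by
    have : (n : ℝ) / 4 - (S : ℝ) / (12 * n) - (1 / 6 + (M : ℝ) / 3 + (A + B) / 6) * r - t =
        (3 * (n : ℝ) ^ 2 - S - 2 * n * r - 4 * r * M * n - 2 * n * ((A + B) * r) -
          12 * t * n) / (12 * n) := by
      field_simp
      ring
    rw [this]
    exact div_nonpos_of_nonpos_of_nonneg (by linarith) (by positivity)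
  linarith

end Helper14.GT
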