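import Pool.Agent.Helper14.GT.Av

/-!
# Vertices with long edges inside their class
-/

namespace Helper14.GT

open Helper24.GT

variable {V : Type*} {M : ℕ} {X Y : V → ℝ} {c : V → Fin M}

theorem bad1 (h : AvRel X Y c) (hgp : GP X Y) {G : SimpleGraph V} (hG : Pln X Y G)
    {v v' w w' u t : V} (cv : c v = c v') (cu : c v = c u) (cT : c v = c t) (cw : c w = c w')
    (hvw : c v ≠ c w) (a1 : G.Adj v w) (a2 : G.Adj v' w') (a3 : G.Adj v u) (a4 : G.Adj v' t)
    (h1 : 0 < D X Y w v v') (h2 : 0 < D X Y w v' u) (h3 : 0 < D X Y w t v) : False := by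
  have n : ∀ {x y : V}, c x ≠ c y → x ≠ y := fun h e => h (by rw [e])
  have hne : ∀ {x y : V}, 0 < D X Y w x y → x ≠ y := by
    intro x y h e
    rw [e, D_self3] at h
    exact lt_irrefl _ h
  have h12 : 0 < D X Y w v u := h.trans hgp cv (cv.symm.trans cu) hvw.symm h1 h2
  have h31 : 0 < D X Y w t v' := h.trans hgp cT.symm cv (by rw [← cT]; exact hvw.symm) h3 h1
  have h32 : 0 < D X Y w t u := h.trans hgp (cT.symm.trans cv) (cv.symm.trans cu)
    (by rw [← cT]; exact hvw.symm) h31 h2
  have V1 : 0 < D X Y w' v v' := h.view (hne h1) cw hvw.symm (by rw [← cv]; exact hvw.symm) h1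
  have V2 : 0 < D X Y w' v' u := h.view (hne h2) cw (by rw [← cv]; exact hvw.symm)
    (by rw [← cu]; exact hvw.symm) h2
  have V12 : 0 < D X Y w' v u := h.view (hne h12) cw hvw.symm (by rw [← cu]; exact hvw.symm) h12
  -- (i)
  have c1 : 0 < D X Y v u v' := by
    refine same_side hgp hG a2 a3 (hne h1).symm (hne h2) ?_ ?_ ?_ ?_
    · exact n (by rw [← cw]; exact hvw.symm)
    · exact n (by rw [← cw, ← cu]; exact hvw.symm)
    · have e1 : D X Y v' w' v = D X Y w' v v' := by unfold D; ring
      have e2 : D X Y v' w' u = - D X Y w' v' u := by unfold D; ring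
      rw [e1, e2]
      exact mul_neg_of_pos_of_neg V1 (by linarith)
    · have e1 : D X Y v u w' = D X Y w' v u := by unfold D; ring
      rw [e1]; exact V12
  -- (ii)
  have c2 : 0 < D X Y t v' v := by
    refine same_side hgp hG a1 a4.symm (hne h3).symm (hne h1) ?_ ?_ ?_ ?_
    · exact n (by rw [← cT]; exact hvw.symm)
    · exact n (by rw [← cv]; exact hvw.symm)
    · have e1 : D X Y v w t = D X Y w t v := by unfold D; ring
      have e2 : D X Y v w v' = - D X Y w v v' := by unfold D; ring
      rw [e1, e2]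
      exact mul_neg_of_pos_of_neg h3 (by linarith)
    · have e1 : D X Y t v' w = D X Y w t v' := by unfold D; ring
      rw [e1]; exact h31
  -- (iii)
  have c3 : 0 < D X Y v' t u := by
    have e := D_gp X Y v' w t v u
    have s1 : D X Y v' w t = D X Y w t v' := by unfold D; ring
    have s2 : D X Y v' v u = D X Y v u v' := by unfold D; ring
    have s3 : D X Y v' w v = D X Y w v v' := by unfold D; ring
    have s4 : D X Y v' w u = - D X Y w v' u := by unfold D; ring
    have s5 : D X Y v' t v = - D X Y t v' v := by unfold D; ring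
    rw [s1, s2, s3, s4, s5] at e
    by_contra hcon
    push Not at hcon
    have t1 := mul_pos h31 c1
    have t2 := mul_nonpos_of_nonneg_of_nonpos h1.le hcon
    have t3 := mul_pos h2 c2
    nlinarith
  have c4 : D X Y v u t < 0 := by
    have e := D_gp X Y v w u v' t
    have s1 : D X Y v w u = - D X Y w v u := by unfold D; ring
    have s2 : D X Y v v' t = - D X Y t v' v := by unfold D; ring
    have s3 : D X Y v w v' = - D X Y w v v' := by unfold D; ring
    have s4 : D X Y v w t = D X Y w t v := by unfold D; ring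
    rw [s1, s2, s3, s4] at e
    by_contra hcon
    push Not at hcon
    have t1 := mul_pos h12 c2
    have t2 := mul_nonneg h1.le hcon
    have t3 := mul_pos h3 c1
    nlinarith
  refine not_cross hG a3 a4 (hne h1) (hne h3).symm (hne h2).symm (hne h32).symm
    (mul_neg_of_pos_of_neg c1 c4) ?_
  have s5 : D X Y v' t v = - D X Y t v' v := by unfold D; ring
  rw [s5]
  exact mul_neg_of_neg_of_pos (by linarith) c3

theorem bad2 (h : AvRel X Y c) (hgp : GP X Y) {G : SimpleGraph V} (hG : Pln X Y G)
    {v v' w w' z z' u : V} (cv : c v = c v') (cu : c v = c u) (cw : c w = c w')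
    (cz : c z = c z') (hvw : c v ≠ c w) (hvz : c v ≠ c z) (hwz : c w ≠ c z)
    (a1 : G.Adj v w) (a2 : G.Adj v' w') (b2 : G.Adj v' z') (a3 : G.Adj v u)
    (h0 : 0 < D X Y v w z) (h1 : 0 < D X Y w v v') (h2 : 0 < D X Y w v' u)
    (h3 : 0 < D X Y z u v) : False := by
  have n : ∀ {x y : V}, c x ≠ c y → x ≠ y := fun h e => h (by rw [e])
  have hne : ∀ {p x y : V}, 0 < D X Y p x y → x ≠ y := by
    intro p x y h e
    rw [e, D_self3] at h
    exact lt_irrefl _ h
  have h12 : 0 < D X Y w v u := h.trans hgp cv (cv.symm.trans cu) hvw.symm h1 h2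
  -- all views from `w'`, `z'`
  have V1 : 0 < D X Y w' v v' := h.view (hne h1) cw hvw.symm (by rw [← cv]; exact hvw.symm) h1
  have V2 : 0 < D X Y w' v' u := h.view (hne h2) cw (by rw [← cv]; exact hvw.symm)
    (by rw [← cu]; exact hvw.symm) h2
  have V12 : 0 < D X Y w' v u := h.view (hne h12) cw hvw.symm (by rw [← cu]; exact hvw.symm) h12
  have V3 : 0 < D X Y z' u v := h.view (hne h3) cz (by rw [← cu]; exact hvz.symm) hvz.symm h3
  have W0 : 0 < D X Y v w z' := h.const3 rfl rfl cz hvw hvz hwz h0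
  have W1 : 0 < D X Y v' w z' := h.const3 cv rfl cz hvw hvz hwz h0
  have W2 : 0 < D X Y v' w' z' := h.const3 cv cw cz hvw hvz hwz h0
  -- `v'` is before `v` as seen from `z'`
  have hz1 : 0 < D X Y z' v' v := by
    by_contra hcon
    push Not at hcon
    have hne0 : D X Y z' v' v ≠ 0 := D_ne hgp (n (by rw [← cz, ← cv]; exact hvz.symm))
      (n (by rw [← cz]; exact hvz.symm)) (hne h1).symm
    have hlt : D X Y z' v' v < 0 := lt_of_le_of_ne hcon hne0
    refine not_cross hG a1 b2 (hne h1) (n (by rw [← cz]; exact hvz))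
      (n (by rw [← cv]; exact hvw.symm)) (n (by rw [← cz]; exact hwz)) ?_ ?_
    · have e1 : D X Y v w v' = - D X Y w v v' := by unfold D; ring
      rw [e1]
      exact mul_neg_of_neg_of_pos (by linarith) W0
    · have e1 : D X Y v' z' v = - D X Y z' v' v := by unfold D; ring
      have e2 : D X Y v' z' w = - D X Y v' w z' := by unfold D; ring
      rw [e1, e2]
      exact mul_neg_of_pos_of_neg (by linarith) (by linarith)
  have dv'u : v' ≠ u := hne h2
  have d1 : D X Y v u v' ≠ 0 := D_ne hgp (hne h12) (hne h1) dv'u.symm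
  rcases lt_or_gt_of_ne d1 with hA | hB
  · -- edges `v u` and `v' w'` cross
    refine not_cross hG a3 a2 (hne h1) (n (by rw [← cw]; exact hvw)) dv'u.symm
      (n (by rw [← cu, ← cw]; exact hvw)) ?_ ?_
    · have e1 : D X Y v u w' = D X Y w' v u := by unfold D; ring
      rw [e1]
      exact mul_neg_of_neg_of_pos hA V12
    · have e1 : D X Y v' w' v = D X Y w' v v' := by unfold D; ring
      have e2 : D X Y v' w' u = - D X Y w' v' u := by unfold D; ring
      rw [e1, e2]
      exact mul_neg_of_pos_of_neg V1 (by linarith)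
  · have d2 : D X Y z' v' u ≠ 0 := D_ne hgp (n (by rw [← cz, ← cv]; exact hvz.symm))
      (n (by rw [← cz, ← cu]; exact hvz.symm)) dv'u
    rcases lt_or_gt_of_ne d2 with hC | hC
    · -- edges `v u` and `v' z'` cross
      refine not_cross hG a3 b2 (hne h1) (n (by rw [← cz]; exact hvz)) dv'u.symm
        (n (by rw [← cu, ← cz]; exact hvz)) ?_ ?_
      · have e1 : D X Y v u z' = - D X Y z' u v := by unfold D; ring
        rw [e1]
        exact mul_neg_of_pos_of_neg hB (by linarith)
      · have e1 : D X Y v' z' v = - D X Y z' v' v := by unfold D; ring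
        have e2 : D X Y v' z' u = - D X Y z' v' u := by unfold D; ring
        rw [e1, e2]
        exact mul_neg_of_neg_of_pos (by linarith) (by linarith)
    · have e := D_gp X Y v' w' z' v u
      have s2 : D X Y v' v u = D X Y v u v' := by unfold D; ring
      have s3 : D X Y v' w' v = D X Y w' v v' := by unfold D; ring
      have s4 : D X Y v' z' u = - D X Y z' v' u := by unfold D; ring
      have s5 : D X Y v' w' u = - D X Y w' v' u := by unfold D; ring
      have s6 : D X Y v' z' v = - D X Y z' v' v := by unfold D; ring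
      rw [s2, s3, s4, s5, s6] at e
      have t1 := mul_pos W2 hB
      have t2 := mul_pos V1 hC
      have t3 := mul_pos V2 hz1
      nlinarith

/-- Values with gaps greater than `s`. -/
theorem gap_card (B : Finset V) (f : V → ℕ) (a s : ℕ) (hf : ∀ v ∈ B, f v < a)
    (hgap : ∀ v ∈ B, ∀ v' ∈ B, v ≠ v' → f v + s < f v' ∨ f v' + s < f v) :
    B.card ≤ a / (s + 1) + 1 := by
  have h1 : B.card ≤ (Finset.range (a / (s + 1) + 1)).card := by
    refine Finset.card_le_card_of_injOn (fun v => f v / (s + 1)) ?_ ?_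
    · intro v hv
      simp only [Finset.coe_range, Set.mem_Iio]
      have := Nat.div_le_div_right (c := s + 1) (hf v hv).le
      omega
    · intro v hv v' hv' he
      by_contra hne
      simp only at he
      have e1 := Nat.div_add_mod (f v) (s + 1)
      have e2 := Nat.div_add_mod (f v') (s + 1)
      have m1 : f v % (s + 1) < s + 1 := Nat.mod_lt (f v) (Nat.succ_pos s)
      have m2 : f v' % (s + 1) < s + 1 := Nat.mod_lt (f v') (Nat.succ_pos s)
      rw [he] at e1
      rcases hgap v hv v' hv' hne with h | h <;> omega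
  rwa [Finset.card_range] at h1

/-- A pair of vertices of the same class which are at distance more than `s` in the order of the
class, seen from each other class. -/
def Lg [Fintype V] (X Y : V → ℝ) (c : V → Fin M) (s : ℕ) (u v : V) : Prop :=
  c u = c v ∧ ∀ w, c w ≠ c u →
    (rnk X Y c w u + s < rnk X Y c w v ∨ rnk X Y c w v + s < rnk X Y c w u)

theorem Lg.symm [Fintype V] {s : ℕ} {u v : V} (h : Lg X Y c s u v) : Lg X Y c s v u :=
  ⟨h.1.symm, fun w hw => (h.2 w (by rw [h.1]; exact hw)).symm⟩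

/-- `v` is in class `i` and has a neighbour `w` in class `j` and long neighbours on both sides, as
seen from `w`. -/
def B1 [Fintype V] (X Y : V → ℝ) (c : V → Fin M) (G : SimpleGraph V) (s : ℕ) (i j : Fin M)
    (v : V) : Prop :=
  c v = i ∧ j ≠ i ∧ ∃ w u t, c w = j ∧ G.Adj v w ∧ G.Adj v u ∧ G.Adj v t ∧ Lg X Y c s v u ∧
    Lg X Y c s v t ∧ 0 < D X Y w v u ∧ 0 < D X Y w t v

/-- `v` is in class `i` and has neighbours `w`, `z` in the classes `j`, `k` and a long neighbour
`u`, and these three span positively. -/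
def B2 [Fintype V] (X Y : V → ℝ) (c : V → Fin M) (G : SimpleGraph V) (s : ℕ) (i j k : Fin M)
    (v : V) : Prop :=
  c v = i ∧ j ≠ i ∧ k ≠ i ∧ j ≠ k ∧ ∃ w z u, c w = j ∧ c z = k ∧ G.Adj v w ∧ G.Adj v z ∧
    G.Adj v u ∧ Lg X Y c s v u ∧ 0 < D X Y v w z ∧ 0 < D X Y v z u ∧ 0 < D X Y v u w

section
variable [Fintype V]

open Classical in
theorem cnt_B1 (h : AvRel X Y c) (hgp : GP X Y) {G : SimpleGraph V} (hG : Pln X Y G) (s : ℕ)
    (i j : Fin M) :
    cnt (B1 X Y c G s i j) ≤ cnt (fun v => c v = i) / (s + 1) + 1 := by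
  set B : Finset V := Finset.univ.filter (fun v => B1 X Y c G s i j v) with hB
  have hBc : cnt (B1 X Y c G s i j) = B.card := by
    unfold cnt
    rw [hB]
  rw [hBc]
  rcases B.eq_empty_or_nonempty with hemp | ⟨v0, hv0⟩
  · rw [hemp]; simp
  obtain ⟨-, hji, w0, -, -, hw0, -⟩ := (Finset.mem_filter.1 hv0).2
  have hkey : ∀ v ∈ B, ∀ v' ∈ B, rnk X Y c w0 v < rnk X Y c w0 v' →
      rnk X Y c w0 v + s < rnk X Y c w0 v' := by
    intro v hv v' hv' hlt
    obtain ⟨cv, -, w, u, t, cw, a1, a2, a3, l1, l2, d1, d2⟩ := (Finset.mem_filter.1 hv).2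
    obtain ⟨cv', -, w', u', t', cw', a1', a2', a3', l1', l2', d1', d2'⟩ :=
      (Finset.mem_filter.1 hv').2
    have cvv : c v = c v' := cv.trans cv'.symm
    have cww : c w = c w' := cw.trans cw'.symm
    have hwv : c w ≠ c v := by rw [cw, cv]; exact hji
    have hwv' : c w ≠ c v' := by rw [cw, cv']; exact hji
    have er : ∀ x, c x = i → rnk X Y c w0 x = rnk X Y c w x := by
      intro x hx
      exact rnk_congr h (hw0.trans cw.symm) (by rw [hw0, hx]; exact hji)
    rw [er v cv, er v' cv'] at hlt ⊢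
    have D1 : 0 < D X Y w v v' := lt_of_rnk_lt h hgp cvv hwv hlt
    have cu : c v = c u := l1.1
    have cT : c v' = c t' := l2'.1
    have ru : rnk X Y c w v + s < rnk X Y c w u := by
      have := rnk_lt h hgp cu hwv d1
      rcases l1.2 w hwv with h1 | h1 <;> omega
    have D2' : 0 < D X Y w t' v' := by
      refine h.view ?_ cww.symm ?_ ?_ d2'
      · rintro rfl
        rw [D_self3] at d2'
        exact lt_irrefl _ d2'
      · rw [← cww, ← cT]; exact hwv'
      · rw [← cww]; exact hwv'
    have rt : rnk X Y c w t' + s < rnk X Y c w v' := by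
      have := rnk_lt h hgp cT.symm (by rw [← cT]; exact hwv') D2'
      rcases l2'.2 w hwv' with h1 | h1 <;> omega
    by_contra hcon
    push Not at hcon
    have g1 : rnk X Y c w v' < rnk X Y c w u := by omega
    have g2 : rnk X Y c w t' < rnk X Y c w v := by omega
    have D3 : 0 < D X Y w v' u := lt_of_rnk_lt h hgp (cvv.symm.trans cu) hwv' g1
    have D4 : 0 < D X Y w t' v := lt_of_rnk_lt h hgp (cT.symm.trans cvv.symm)
      (by rw [← cT]; exact hwv') g2
    exact bad1 h hgp hG cvv cu (cvv.trans cT) cww hwv.symm a1 a1' a2 a3' D1 D3 D4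
  refine gap_card B (rnk X Y c w0) _ s ?_ ?_
  · intro v hv
    obtain ⟨cv, -⟩ := (Finset.mem_filter.1 hv).2
    have := rnk_lt_size (X := X) (Y := Y) (c := c) w0 v
    rw [cv] at this
    exact this
  · intro v hv v' hv' hne
    obtain ⟨cv, -⟩ := (Finset.mem_filter.1 hv).2
    obtain ⟨cv', -⟩ := (Finset.mem_filter.1 hv').2
    have := rnk_ne h hgp (w := w0) (cv.trans cv'.symm) (by rw [hw0, cv]; exact hji) hne
    rcases lt_or_gt_of_ne this with h1 | h1
    · exact Or.inl (hkey v hv v' hv' h1)
    · exact Or.inr (hkey v' hv' v hv h1)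

open Classical in
theorem cnt_B2 (h : AvRel X Y c) (hgp : GP X Y) {G : SimpleGraph V} (hG : Pln X Y G) (s : ℕ)
    (i j k : Fin M) :
    cnt (B2 X Y c G s i j k) ≤ cnt (fun v => c v = i) / (s + 1) + 1 := by
  set B : Finset V := Finset.univ.filter (fun v => B2 X Y c G s i j k v) with hB
  have hBc : cnt (B2 X Y c G s i j k) = B.card := by
    unfold cnt
    rw [hB]
  rw [hBc]
  rcases B.eq_empty_or_nonempty with hemp | ⟨v0, hv0⟩
  · rw [hemp]; simp
  obtain ⟨-, hji, hki, hjk, w0, -, -, hw0, -⟩ := (Finset.mem_filter.1 hv0).2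
  have hkey : ∀ v ∈ B, ∀ v' ∈ B, rnk X Y c w0 v < rnk X Y c w0 v' →
      rnk X Y c w0 v + s < rnk X Y c w0 v' := by
    intro v hv v' hv' hlt
    obtain ⟨cv, -, -, -, w, z, u, cw, cz, a1, a2, a3, l1, d0, d1, d2⟩ :=
      (Finset.mem_filter.1 hv).2
    obtain ⟨cv', -, -, -, w', z', u', cw', cz', a1', a2', a3', l1', d0', d1', d2'⟩ :=
      (Finset.mem_filter.1 hv').2
    have cvv : c v = c v' := cv.trans cv'.symm
    have cww : c w = c w' := cw.trans cw'.symm
    have czz : c z = c z' := cz.trans cz'.symm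
    have hwv : c w ≠ c v := by rw [cw, cv]; exact hji
    have hwv' : c w ≠ c v' := by rw [cw, cv']; exact hji
    have er : ∀ x, c x = i → rnk X Y c w0 x = rnk X Y c w x := by
      intro x hx
      exact rnk_congr h (hw0.trans cw.symm) (by rw [hw0, hx]; exact hji)
    rw [er v cv, er v' cv'] at hlt ⊢
    have D1 : 0 < D X Y w v v' := lt_of_rnk_lt h hgp cvv hwv hlt
    have cu : c v = c u := l1.1
    have e2 : D X Y v u w = D X Y w v u := by unfold D; ring
    have e1 : D X Y v z u = D X Y z u v := by unfold D; ring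
    have ru : rnk X Y c w v + s < rnk X Y c w u := by
      have := rnk_lt h hgp cu hwv (by rw [← e2]; exact d2)
      rcases l1.2 w hwv with h1 | h1 <;> omega
    by_contra hcon
    push Not at hcon
    have g1 : rnk X Y c w v' < rnk X Y c w u := by omega
    have D3 : 0 < D X Y w v' u := lt_of_rnk_lt h hgp (cvv.symm.trans cu) hwv' g1
    exact bad2 h hgp hG cvv cu cww czz hwv.symm (by rw [cv, cz]; exact hki.symm)
      (by rw [cw, cz]; exact hjk) a1 a1' a2' a3 d0 D1 D3 (by rw [← e1]; exact d1)
  refine gap_card B (rnk X Y c w0) _ s ?_ ?_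
  · intro v hv
    obtain ⟨cv, -⟩ := (Finset.mem_filter.1 hv).2
    have := rnk_lt_size (X := X) (Y := Y) (c := c) w0 v
    rw [cv] at this
    exact this
  · intro v hv v' hv' hne
    obtain ⟨cv, -⟩ := (Finset.mem_filter.1 hv).2
    obtain ⟨cv', -⟩ := (Finset.mem_filter.1 hv').2
    have := rnk_ne h hgp (w := w0) (cv.trans cv'.symm) (by rw [hw0, cv]; exact hji) hne
    rcases lt_or_gt_of_ne this with h1 | h1
    · exact Or.inl (hkey v hv v' hv' h1)
    · exact Or.inr (hkey v' hv' v hv h1)

end

end Helper14.GT
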