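import Pool.Agent.Helper14.GT.Geo

/-!
# Blow-ups of configurations in general position; consequences of the main count
-/

namespace Helper14.GT

open Helper24.GT

theorem det3_of_collinear {x y z : ℝ × ℝ} (h : Collinear ℝ ({x, y, z} : Set (ℝ × ℝ))) :
    det3 x y z = 0 := by
  rw [collinear_iff_of_mem (p₀ := x) (by simp)] at h
  obtain ⟨v, hv⟩ := h
  obtain ⟨r, hr⟩ := hv y (by simp)
  obtain ⟨s, hs⟩ := hv z (by simp)
  rw [hr, hs]
  unfold det3
  simp only [vadd_eq_add, Prod.fst_add, Prod.smul_fst, Prod.snd_add, Prod.smul_snd, smul_eq_mul]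
  ring

/-- The orientation of three points does not vanish near three points which are not
collinear. -/
theorem det3_near {a b d : ℝ × ℝ} (h : det3 a b d ≠ 0) :
    ∀ᶠ δ in nhdsWithin (0 : ℝ) (Set.Ioi 0), ∀ x y z : ℝ × ℝ, dist x a < δ → dist y b < δ →
      dist z d < δ → det3 x y z ≠ 0 := by
  have hcont : Continuous (fun w : (ℝ × ℝ) × (ℝ × ℝ) × (ℝ × ℝ) => det3 w.1 w.2.1 w.2.2) := by
    unfold det3
    fun_prop
  have hev : ∀ᶠ w in nhds ((a, b, d) : (ℝ × ℝ) × (ℝ × ℝ) × (ℝ × ℝ)),
      det3 w.1 w.2.1 w.2.2 ≠ 0 :=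
    hcont.continuousAt.eventually_ne h
  obtain ⟨r, hr, hball⟩ := Metric.eventually_nhds_iff.1 hev
  have : ∀ᶠ δ in nhdsWithin (0 : ℝ) (Set.Ioi 0), δ < r :=
    (eventually_lt_nhds hr).filter_mono nhdsWithin_le_nhds
  filter_upwards [this] with δ hδ x y z hx hy hz
  have := @hball (x, y, z) ?_
  · exact this
  · rw [Prod.dist_eq, Prod.dist_eq]
    exact max_lt (hx.trans hδ) (max_lt (hy.trans hδ) (hz.trans hδ))

/-- All pairs of classes are clean if the classes are in small discs around the points of a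
configuration in general position. -/
theorem clean_of_close {M : ℕ} (q : Fin M → ℝ × ℝ) (hinj : Function.Injective q)
    (hq : ∀ i j k, i ≠ j → i ≠ k → j ≠ k → ¬ Collinear ℝ ({q i, q j, q k} : Set (ℝ × ℝ))) :
    ∃ δ : ℝ, 0 < δ ∧ ∀ (V : Type) (p : V → ℝ × ℝ) (c : V → Fin M),
      (∀ v, dist (p v) (q (c v)) < δ) → ∀ i j, i ≠ j → Clean p c i j := by
  have h1 : ∀ᶠ δ in nhdsWithin (0 : ℝ) (Set.Ioi 0), ∀ i j k : Fin M, i ≠ j → i ≠ k → j ≠ k →
      ∀ x y z : ℝ × ℝ, dist x (q i) < δ → dist y (q j) < δ → dist z (q k) < δ →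
        det3 x y z ≠ 0 := by
    rw [Filter.eventually_all]
    intro i
    rw [Filter.eventually_all]
    intro j
    rw [Filter.eventually_all]
    intro k
    by_cases hij : i = j
    · exact Filter.Eventually.of_forall (fun _ h => absurd hij h)
    by_cases hik : i = k
    · exact Filter.Eventually.of_forall (fun _ _ h => absurd hik h)
    by_cases hjk : j = k
    · exact Filter.Eventually.of_forall (fun _ _ _ h => absurd hjk h)
    have h0 : det3 (q i) (q j) (q k) ≠ 0 := fun h => hq i j k hij hik hjk (collinear_of_det3 h)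
    filter_upwards [det3_near h0] with δ hδ _ _ _
    exact hδ
  have h2 : ∀ᶠ δ in nhdsWithin (0 : ℝ) (Set.Ioi 0), ∀ i j : Fin M, i ≠ j →
      2 * δ < dist (q i) (q j) := by
    rw [Filter.eventually_all]
    intro i
    rw [Filter.eventually_all]
    intro j
    by_cases hij : i = j
    · exact Filter.Eventually.of_forall (fun _ h => absurd hij h)
    have h0 : 0 < dist (q i) (q j) / 2 := by
      have : q i ≠ q j := fun e => hij (hinj e)
      have := dist_pos.2 this
      linarith
    have : ∀ᶠ δ in nhdsWithin (0 : ℝ) (Set.Ioi 0), δ < dist (q i) (q j) / 2 :=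
      (eventually_lt_nhds h0).filter_mono nhdsWithin_le_nhds
    filter_upwards [this] with δ hδ _
    linarith
  obtain ⟨δ, ⟨hδ1, hδ2⟩, hδ0⟩ := ((h1.and h2).and self_mem_nhdsWithin).exists
  refine ⟨δ, hδ0, ?_⟩
  intro V p c hp i j hij
  have hH : ∀ i, Hull p c i ⊆ Metric.ball (q i) δ := by
    intro i
    refine convexHull_min ?_ (convex_ball _ _)
    rintro _ ⟨v, hv, rfl⟩
    have hv' : c v = i := hv
    rw [Metric.mem_ball, ← hv']
    exact hp v
  refine ⟨hij, ?_, ?_⟩
  · rw [Set.disjoint_left]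
    intro x hx hx'
    have a1 := hH i hx
    have a2 := hH j hx'
    rw [Metric.mem_ball] at a1 a2
    have a3 := dist_triangle_left (q i) (q j) x
    have a4 := hδ2 i j hij
    linarith
  · intro k hki hkj x hx y hy z hz hcol
    exact hδ1 i j k hij hki.symm hkj.symm x y z (hH i hx) (hH j hy) (hH k hz)
      (det3_of_collinear hcol)

/-- The number of ordered pairs in different classes. -/
theorem sum_inter_eq {V : Type*} [Fintype V] {M : ℕ} (c : V → Fin M) :
    ∑ v, cnt (fun u => c v ≠ c u) + ∑ v, cnt (fun u => c u = c v) =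
      Fintype.card V ^ 2 := by
  classical
  rw [← Finset.sum_add_distrib]
  have : ∀ v, cnt (fun u => c v ≠ c u) + cnt (fun u => c u = c v) = Fintype.card V := by
    intro v
    simp only [cnt_eq_sum]
    rw [← Finset.sum_add_distrib]
    have h1 : Fintype.card V = ∑ _v : V, 1 := by simp
    rw [h1]
    refine Finset.sum_congr rfl (fun u _ => ?_)
    by_cases h : c v = c u
    · simp [h]
    · have h' : ¬ c u = c v := fun e => h e.symm
      simp [h, h']
  rw [Finset.sum_congr rfl (fun v _ => this v), Finset.sum_const, Finset.card_univ, smul_eq_mul]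
  ring

end Helper14.GT
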