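import Pool.Agent.Helper14.GT.Tri
import Pool.Agent.Helper24.GT.Fin.EI

/-!
# Plane layers on a partitioned point set

`c` assigns a class to each vertex.  A pair of classes is *clean* if no third class meets a line
through both of them.  In a plane graph all of whose edges join different classes, few vertices
that are not pointed have an edge of a clean pair among every three edges that span positively.
-/

namespace Helper14.GT

open Helper24.GT

variable {V : Type*}

/-- The orientation properties of a symmetric relation (being clean) between classes which are used. -/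
structure CleanRel {M : ℕ} (X Y : V → ℝ) (c : V → Fin M) (cl : Fin M → Fin M → Prop) : Prop where
  ne : ∀ i j, cl i j → i ≠ j
  symm : ∀ i j, cl i j → cl j i
  const : ∀ i j, cl i j → ∀ k, k ≠ i → k ≠ j → ∀ a a' b b' d d' : V, c a = i → c a' = i →
    c b = j → c b' = j → c d = k → c d' = k → 0 < D X Y a b d → 0 < D X Y a' b' d'
  out : ∀ i j, cl i j → ∀ a x y z : V, c a = i → c x = j → c y = j → c z = j →
    ¬ (0 < D X Y a x y ∧ 0 < D X Y a y z ∧ 0 < D X Y a z x)

variable {M : ℕ} {X Y : V → ℝ} {c : V → Fin M} {cl : Fin M → Fin M → Prop}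

theorem CleanRel.const_neg (h : CleanRel X Y c cl) {i j k : Fin M} (hij : cl i j) (hki : k ≠ i)
    (hkj : k ≠ j) {a a' b b' d d' : V} (ha : c a = i) (ha' : c a' = i) (hb : c b = j)
    (hb' : c b' = j) (hd : c d = k) (hd' : c d' = k) (hgp : GP X Y) (hs : D X Y a b d < 0) :
    D X Y a' b' d' < 0 := by
  have hne : ∀ i j k, i ≠ j → k ≠ i → k ≠ j → ∀ p q r : V, c p = i → c q = j → c r = k →
      D X Y p q r ≠ 0 := by
    intro i j k hij hki hkj p q r hp hq hr
    apply D_ne hgp
    · rintro rfl; exact hij (hp.symm.trans hq)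
    · rintro rfl; exact hki (hr.symm.trans hp)
    · rintro rfl; exact hkj (hr.symm.trans hq)
  have hijne := h.ne _ _ hij
  rcases lt_or_gt_of_ne (hne i j k hijne hki hkj a' b' d' ha' hb' hd') with h1 | h1
  · exact h1
  · have := h.const i j hij k hki hkj a' a b' b d' d ha' ha hb' hb hd' hd h1
    linarith

/-- A positively spanning triple of edges, one of which is clean, has ends in three different
classes. -/
theorem classes_distinct (h : CleanRel X Y c cl) {v x y z : V}
    (hz : cl (c v) (c z)) (hxv : c x ≠ c v) (hyv : c y ≠ c v)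
    (h1 : 0 < D X Y v x y) (h2 : 0 < D X Y v y z) (h3 : 0 < D X Y v z x) :
    c x ≠ c z ∧ c y ≠ c z ∧ c x ≠ c y := by
  have hzv : c z ≠ c v := (h.ne _ _ hz).symm
  have s1 := D_swap X Y v y z
  have s2 := D_swap X Y v x y
  have hxz : c x ≠ c z := by
    intro e
    by_cases e2 : c y = c z
    · exact h.out _ _ hz v x y z rfl e e2 rfl ⟨h1, h2, h3⟩
    · -- `D v x y > 0` and `D v z y < 0`
      have := h.const _ _ hz (c y) hyv e2 v v x z y y rfl rfl e rfl rfl rfl h1
      linarith
  have hyz : c y ≠ c z := by
    intro e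
    -- `D v z x > 0`, `D v y x < 0`
    have := h.const _ _ hz (c x) hxv hxz v v z y x x rfl rfl rfl e rfl rfl h3
    linarith
  refine ⟨hxz, hyz, ?_⟩
  intro e
  -- `D v z x > 0`, `D v z y < 0`
  have := h.const _ _ hz (c x) hxv hxz v v z z x y rfl rfl rfl rfl rfl e.symm h3
  linarith

/-- Two vertices of a plane graph with edges between different classes, each with a positively
spanning triple of edges whose last edge is clean, to the same classes. -/
theorem no_two (h : CleanRel X Y c cl) (hgp : GP X Y) {G : SimpleGraph V} (hG : Pln X Y G)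
    {v v' x x' y y' z z' : V} (hvv : v ≠ v') (cv : c v = c v') (cx : c x = c x') (cy : c y = c y')
    (cz : c z = c z') (hz : cl (c v) (c z)) (hxv : c x ≠ c v) (hyv : c y ≠ c v)
    (a1 : G.Adj v x) (a2 : G.Adj v y) (a3 : G.Adj v z)
    (b1 : G.Adj v' x') (b2 : G.Adj v' y') (b3 : G.Adj v' z')
    (h1 : 0 < D X Y v x y) (h2 : 0 < D X Y v y z) (h3 : 0 < D X Y v z x) : False := by
  obtain ⟨hxz, hyz, hxy⟩ := classes_distinct h hz hxv hyv h1 h2 h3
  have hzv : c z ≠ c v := (h.ne _ _ hz).symm
  have s1 := D_swap X Y v y z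
  have h2' : D X Y v z y < 0 := by linarith
  refine three_kinds hgp hG hvv ⟨?_, ?_⟩ ⟨?_, ?_⟩ ⟨?_, ?_⟩ ⟨?_, ?_⟩ ⟨?_, ?_⟩ ⟨?_, ?_⟩
    a1 a2 a3 b1 b2 b3 ?_ ?_
  · rintro rfl; exact hxv cx
  · rintro rfl; exact hxv cv.symm
  · rintro rfl; exact hyv cy
  · rintro rfl; exact hyv cv.symm
  · rintro rfl; exact hzv cz
  · rintro rfl; exact hzv cv.symm
  · rintro rfl; exact hxy cx
  · rintro rfl; exact hxy cy.symm
  · rintro rfl; exact hxz cx
  · rintro rfl; exact hxz cz.symm
  · rintro rfl; exact hyz cy
  · rintro rfl; exact hyz cz.symm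
  · intro p hp r hr q hq
    have hp' : c p = c v := by rcases hp with rfl | rfl; · rfl
                               · exact cv.symm
    have hr' : c r = c z := by rcases hr with rfl | rfl; · rfl
                               · exact cz.symm
    have hq' : c q = c x := by rcases hq with rfl | rfl; · rfl
                               · exact cx.symm
    exact h.const _ _ hz (c x) hxv hxz v p z r x q rfl hp' rfl hr' rfl hq' h3
  · intro p hp r hr q hq
    have hp' : c p = c v := by rcases hp with rfl | rfl; · rfl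
                               · exact cv.symm
    have hr' : c r = c z := by rcases hr with rfl | rfl; · rfl
                               · exact cz.symm
    have hq' : c q = c y := by rcases hq with rfl | rfl; · rfl
                               · exact cy.symm
    exact h.const_neg hz hyv hyz rfl hp' rfl hr' rfl hq' hgp h2'

open Classical in
/-- Number of edges of `G` at `v` which join unclean classes. -/
noncomputable def dU [Fintype V] (c : V → Fin M) (cl : Fin M → Fin M → Prop) (G : SimpleGraph V)
    (v : V) : ℕ := cnt (fun u => G.Adj v u ∧ ¬ cl (c v) (c u))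

open Classical in
/-- In a plane graph with edges between different classes, all but `M ^ 4` of the vertices which
are not pointed have at least three unclean edges. -/
theorem few_nonpointed [Fintype V] (h : CleanRel X Y c cl) (hX : Function.Injective X)
    (hgp : GP X Y) {G : SimpleGraph V} (hG : Pln X Y G) (hcls : ∀ u v, G.Adj u v → c u ≠ c v) :
    3 * cnt (fun v => ¬ Pointed X Y G v) ≤ 3 * M ^ 4 + ∑ v, dU c cl G v := by
  -- exceptional vertices
  set E : Finset V := Finset.univ.filter (fun v => ∃ x y z, G.Adj v x ∧ G.Adj v y ∧ G.Adj v z ∧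
    0 < D X Y v x y ∧ 0 < D X Y v y z ∧ 0 < D X Y v z x ∧ cl (c v) (c z)) with hE
  have hEcard : E.card ≤ M ^ 4 := by
    have hch : ∀ v : V, ∃ q : V × V × V, v ∈ E → G.Adj v q.1 ∧ G.Adj v q.2.1 ∧ G.Adj v q.2.2 ∧
        0 < D X Y v q.1 q.2.1 ∧ 0 < D X Y v q.2.1 q.2.2 ∧ 0 < D X Y v q.2.2 q.1 ∧
        cl (c v) (c q.2.2) := by
      intro v
      by_cases hv : v ∈ E
      · obtain ⟨x, y, z, hh⟩ := (Finset.mem_filter.1 hv).2
        exact ⟨(x, y, z), fun _ => hh⟩
      · exact ⟨(v, v, v), fun hh => absurd hh hv⟩
    choose q hq using hch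
    set f : V → Fin M × Fin M × Fin M × Fin M := fun v =>
      (c v, c (q v).1, c (q v).2.1, c (q v).2.2) with hf
    have hinj : Set.InjOn f E := by
      intro v hv w hw hvw
      by_contra hne
      have hv' := hq v hv
      have hw' := hq w hw
      simp only [hf, Prod.mk.injEq] at hvw
      obtain ⟨e1, e2, e3, e4⟩ := hvw
      exact no_two h hgp hG hne e1 e2 e3 e4 hv'.2.2.2.2.2.2 (hcls _ _ hv'.1).symm
        (hcls _ _ hv'.2.1).symm hv'.1 hv'.2.1 hv'.2.2.1 hw'.1 hw'.2.1 hw'.2.2.1
        hv'.2.2.2.1 hv'.2.2.2.2.1 hv'.2.2.2.2.2.1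
    have h1 : E.card ≤ (Finset.univ : Finset (Fin M × Fin M × Fin M × Fin M)).card :=
      Finset.card_le_card_of_injOn f (fun _ _ => Finset.mem_univ _) hinj
    have h2 : (Finset.univ : Finset (Fin M × Fin M × Fin M × Fin M)).card = M ^ 4 := by
      simp only [Finset.card_univ, Fintype.card_prod, Fintype.card_fin]
      ring
    omega
  have hkey : ∀ v, ¬ Pointed X Y G v → v ∉ E → 3 ≤ dU c cl G v := by
    intro v hv hvE
    obtain ⟨x, y, z, a1, a2, a3, h1, h2, h3⟩ := exists_triple hX hgp hv
    have hne : ∀ x y z, G.Adj v x → G.Adj v y → G.Adj v z → 0 < D X Y v x y → 0 < D X Y v y z →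
        0 < D X Y v z x → ¬ cl (c v) (c z) := by
      intro x y z a1 a2 a3 h1 h2 h3 hcl
      exact hvE (Finset.mem_filter.2 ⟨Finset.mem_univ _, x, y, z, a1, a2, a3, h1, h2, h3, hcl⟩)
    have n1 := hne x y z a1 a2 a3 h1 h2 h3
    have n2 := hne y z x a2 a3 a1 h2 h3 h1
    have n3 := hne z x y a3 a1 a2 h3 h1 h2
    have dxy : x ≠ y := by
      rintro rfl
      have : D X Y v x x = 0 := by unfold D; ring
      linarith
    have dyz : y ≠ z := by
      rintro rfl
      have : D X Y v y y = 0 := by unfold D; ring
      linarith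
    have dzx : z ≠ x := by
      rintro rfl
      have : D X Y v z z = 0 := by unfold D; ring
      linarith
    have hsub : ({x, y, z} : Finset V) ⊆
        Finset.univ.filter (fun u => G.Adj v u ∧ ¬ cl (c v) (c u)) := by
      intro u hu
      simp only [Finset.mem_insert, Finset.mem_singleton] at hu
      refine Finset.mem_filter.2 ⟨Finset.mem_univ _, ?_⟩
      rcases hu with rfl | rfl | rfl
      · exact ⟨a1, n2⟩
      · exact ⟨a2, n3⟩
      · exact ⟨a3, n1⟩
    have hc3 : ({x, y, z} : Finset V).card = 3 := by
      rw [Finset.card_insert_of_notMem, Finset.card_insert_of_notMem, Finset.card_singleton]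
      · simpa using dyz
      · simp only [Finset.mem_insert, Finset.mem_singleton, not_or]
        exact ⟨dxy, fun e => dzx e.symm⟩
    have := Finset.card_le_card hsub
    rw [hc3] at this
    unfold dU cnt
    convert this using 2
    congr
  -- count
  set N : Finset V := Finset.univ.filter (fun v => ¬ Pointed X Y G v) with hN
  have hNc : cnt (fun v => ¬ Pointed X Y G v) = N.card := by
    unfold cnt
    rw [hN]
    congr
  rw [hNc]
  have h1 : N.card ≤ (N \ E).card + E.card := by
    have := Finset.card_sdiff_add_card (s := N) (t := E)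
    have h2 : N.card ≤ (N ∪ E).card := Finset.card_le_card Finset.subset_union_left
    omega
  have h2 : 3 * (N \ E).card ≤ ∑ v, dU c cl G v := by
    calc 3 * (N \ E).card = ∑ _v ∈ N \ E, 3 := by simp [mul_comm]
      _ ≤ ∑ v ∈ N \ E, dU c cl G v := by
          refine Finset.sum_le_sum (fun v hv => ?_)
          obtain ⟨hv1, hv2⟩ := Finset.mem_sdiff.1 hv
          exact hkey v (Finset.mem_filter.1 hv1).2 hv2
      _ ≤ ∑ v, dU c cl G v :=
          Finset.sum_le_sum_of_subset (Finset.subset_univ _)
  omega

end Helper14.GT
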