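import Pool.Agent.Helper14.GT.Cls

/-!
# Counting edges of the layers between clean and unclean classes
-/

namespace Helper14.GT

open Helper24.GT

variable {V : Type*} [Fintype V]

open Classical in
theorem cnt_eq_sum (P : V → Prop) : cnt P = ∑ u, if P u then 1 else 0 := by
  unfold cnt
  rw [Finset.card_filter]

open Classical in
theorem cnt_congr' {P Q : V → Prop} (h : ∀ u, P u ↔ Q u) : cnt P = cnt Q := by
  have : P = Q := funext fun u => propext (h u)
  rw [this]

/-- Each pair is in exactly one layer. -/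
theorem sum_layers {t : ℕ} {L : Fin t → SimpleGraph V}
    (hcov : ∀ u v : V, u ≠ v → ∃ i, (L i).Adj u v)
    (hdis : ∀ u v : V, ∀ i j, (L i).Adj u v → (L j).Adj u v → i = j)
    (v : V) (Q : V → Prop) (hQ : ∀ u, Q u → v ≠ u) :
    ∑ i, cnt (fun u => (L i).Adj v u ∧ Q u) = cnt Q := by
  classical
  simp only [cnt_eq_sum]
  rw [Finset.sum_comm]
  refine Finset.sum_congr rfl (fun u _ => ?_)
  by_cases hq : Q u
  · obtain ⟨i0, hi0⟩ := hcov v u (hQ u hq)
    rw [if_pos hq, Finset.sum_eq_single i0]
    · rw [if_pos ⟨hi0, hq⟩]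
    · intro i _ hi
      rw [if_neg]
      rintro ⟨h, -⟩
      exact hi (hdis v u i i0 h hi0)
    · intro h
      exact absurd (Finset.mem_univ _) h
  · rw [if_neg hq]
    refine Finset.sum_eq_zero (fun i _ => ?_)
    rw [if_neg]
    rintro ⟨-, h⟩
    exact hq h

/-- For a symmetric relation, each unordered pair is counted once by its end with larger `X`. -/
theorem sum_half {X : V → ℝ} (hX : Function.Injective X) (Q : V → V → Prop)
    (hsymm : ∀ u v, Q u v → Q v u) (hirr : ∀ u, ¬ Q u u) :
    2 * ∑ v, cnt (fun u => Q v u ∧ X u < X v) = ∑ v, cnt (fun u => Q v u) := by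
  classical
  have h1 : ∑ v, cnt (fun u => Q v u ∧ X u < X v) = ∑ v, cnt (fun u => Q v u ∧ X v < X u) := by
    simp only [cnt_eq_sum]
    rw [Finset.sum_comm]
    refine Finset.sum_congr rfl (fun v _ => Finset.sum_congr rfl (fun u _ => ?_))
    by_cases hq : Q u v
    · have hq' := hsymm _ _ hq
      simp [hq, hq']
    · have hq' : ¬ Q v u := fun h => hq (hsymm _ _ h)
      simp [hq, hq']
  have h2 : ∀ v, cnt (fun u => Q v u) =
      cnt (fun u => Q v u ∧ X u < X v) + cnt (fun u => Q v u ∧ X v < X u) := by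
    intro v
    simp only [cnt_eq_sum]
    rw [← Finset.sum_add_distrib]
    refine Finset.sum_congr rfl (fun u _ => ?_)
    by_cases hq : Q v u
    · have hne : X u ≠ X v := by
        intro e
        have := hX e
        subst this
        exact hirr _ hq
      rcases lt_or_gt_of_ne hne with h | h
      · simp [hq, h, not_lt.2 h.le]
      · simp [hq, h, not_lt.2 h.le]
    · simp [hq]
  simp only [h2]
  rw [Finset.sum_add_distrib, ← h1]
  ring

/-- The edges of `G` between different classes. -/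
def inter {M : ℕ} (c : V → Fin M) (G : SimpleGraph V) : SimpleGraph V where
  Adj u v := G.Adj u v ∧ c u ≠ c v
  symm := ⟨fun _ _ h => ⟨h.1.symm, h.2.symm⟩⟩
  loopless := ⟨fun _ h => h.2 rfl⟩

variable {M : ℕ} {X Y : V → ℝ} {c : V → Fin M} {cl : Fin M → Fin M → Prop}

/-- One layer. -/
theorem layer_bound (h : CleanRel X Y c cl) (hX : Function.Injective X) (hgp : GP X Y)
    {G : SimpleGraph V} (hG : Pln X Y G) :
    3 * ∑ v, dL X (inter c G) v ≤ 6 * Fintype.card V + 3 * M ^ 4 +
      ∑ v, dU c cl (inter c G) v := by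
  classical
  have hG' : Pln X Y (inter c G) := by
    intro a b d e h1 h2
    exact hG a b d e h1.1 h2.1
  have h1 := edges_add_pointed hX hgp hG'
  have h2 := few_nonpointed h hX hgp hG' (fun u v huv => huv.2)
  have h3 : cnt (fun v => Pointed X Y (inter c G) v) + cnt (fun v => ¬ Pointed X Y (inter c G) v) =
      Fintype.card V := by
    simp only [cnt_eq_sum]
    rw [← Finset.sum_add_distrib]
    have : Fintype.card V = ∑ _v : V, 1 := by simp
    rw [this]
    refine Finset.sum_congr rfl (fun v _ => ?_)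
    by_cases hv : Pointed X Y (inter c G) v <;> simp [hv]
  omega

/-- **Main count.** -/
theorem main_count (h : CleanRel X Y c cl) (hX : Function.Injective X) (hgp : GP X Y) {t : ℕ}
    {L : Fin t → SimpleGraph V} (hL : ∀ i, Pln X Y (L i))
    (hcov : ∀ u v : V, u ≠ v → ∃ i, (L i).Adj u v)
    (hdis : ∀ u v : V, ∀ i j, (L i).Adj u v → (L j).Adj u v → i = j) :
    3 * (∑ v, cnt (fun u => cl (c v) (c u))) +
      ∑ v, cnt (fun u => c v ≠ c u ∧ ¬ cl (c v) (c u)) ≤
      6 * t * (2 * Fintype.card V + M ^ 4) := by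
  classical
  have h1 : 3 * ∑ i, ∑ v, dL X (inter c (L i)) v ≤
      t * (6 * Fintype.card V + 3 * M ^ 4) + ∑ i, ∑ v, dU c cl (inter c (L i)) v := by
    have := Finset.sum_le_sum (fun i (_ : i ∈ (Finset.univ : Finset (Fin t))) =>
      layer_bound h hX hgp (hL i))
    rw [← Finset.mul_sum, Finset.sum_add_distrib, Finset.sum_const, Finset.card_univ,
      Fintype.card_fin, smul_eq_mul] at this
    exact this
  have h2 : ∑ i, ∑ v, dU c cl (inter c (L i)) v =
      ∑ v, cnt (fun u => c v ≠ c u ∧ ¬ cl (c v) (c u)) := by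
    rw [Finset.sum_comm]
    refine Finset.sum_congr rfl (fun v _ => ?_)
    rw [← sum_layers hcov hdis v (fun u => c v ≠ c u ∧ ¬ cl (c v) (c u))
      (fun u hu e => hu.1 (by rw [e]))]
    refine Finset.sum_congr rfl (fun i _ => ?_)
    unfold dU
    refine cnt_congr' (fun u => ?_)
    change ((L i).Adj v u ∧ c v ≠ c u) ∧ ¬ cl (c v) (c u) ↔ _
    tauto
  have h3 : ∑ i, ∑ v, dL X (inter c (L i)) v =
      ∑ v, cnt (fun u => c v ≠ c u ∧ X u < X v) := by
    rw [Finset.sum_comm]
    refine Finset.sum_congr rfl (fun v _ => ?_)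
    rw [← sum_layers hcov hdis v (fun u => c v ≠ c u ∧ X u < X v)
      (fun u hu e => hu.1 (by rw [e]))]
    refine Finset.sum_congr rfl (fun i _ => ?_)
    unfold dL
    refine cnt_congr' (fun u => ?_)
    change ((L i).Adj v u ∧ c v ≠ c u) ∧ X u < X v ↔ _
    tauto
  have h4 := sum_half hX (fun v u => c v ≠ c u) (fun u v huv => huv.symm) (fun u hu => hu rfl)
  have h5 : ∑ v, cnt (fun u => c v ≠ c u) = ∑ v, cnt (fun u => cl (c v) (c u)) +
      ∑ v, cnt (fun u => c v ≠ c u ∧ ¬ cl (c v) (c u)) := by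
    rw [← Finset.sum_add_distrib]
    refine Finset.sum_congr rfl (fun v _ => ?_)
    simp only [cnt_eq_sum]
    rw [← Finset.sum_add_distrib]
    refine Finset.sum_congr rfl (fun u _ => ?_)
    by_cases hcl : cl (c v) (c u)
    · have := h.ne _ _ hcl
      simp [hcl, this]
    · simp [hcl]
  rw [h2] at h1
  rw [h3] at h1
  have e1 : 6 * t * (2 * Fintype.card V + M ^ 4) = 2 * (t * (6 * Fintype.card V + 3 * M ^ 4)) := by
    ring
  rw [e1]
  omega

end Helper14.GT
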