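import Pool.Agent.Helper14.GT.Zig

/-!
# Few vertices have neighbours in three other classes
-/

namespace Helper14.GT

open Helper24.GT

variable {V : Type*} {M : ℕ} {X Y : V → ℝ} {c : V → Fin M}

/-- `v` has neighbours `x`, `y`, `z` in three different other classes, and the line `v z`
separates `x` and `y`. -/
def Tri3 (X Y : V → ℝ) (c : V → Fin M) (G : SimpleGraph V) (v x y z : V) : Prop :=
  G.Adj v x ∧ G.Adj v y ∧ G.Adj v z ∧ c x ≠ c v ∧ c y ≠ c v ∧ c z ≠ c v ∧ c x ≠ c y ∧
    c x ≠ c z ∧ c y ≠ c z ∧ 0 < D X Y v z x ∧ D X Y v z y < 0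

theorem exists_tri3 (hgp : GP X Y) {G : SimpleGraph V} {v x y z : V} (ax : G.Adj v x)
    (ay : G.Adj v y) (az : G.Adj v z) (hx : c x ≠ c v) (hy : c y ≠ c v) (hz : c z ≠ c v)
    (hxy : c x ≠ c y) (hxz : c x ≠ c z) (hyz : c y ≠ c z) :
    ∃ x y z, Tri3 X Y c G v x y z := by
  have n : ∀ {x y : V}, c x ≠ c y → x ≠ y := fun h e => h (by rw [e])
  have hp : D X Y v x y ≠ 0 := D_ne hgp (n hx.symm) (n hy.symm) (n hxy)
  have hq : D X Y v y z ≠ 0 := D_ne hgp (n hy.symm) (n hz.symm) (n hyz)
  have hr : D X Y v z x ≠ 0 := D_ne hgp (n hz.symm) (n hx.symm) (n hxz.symm)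
  have ep := D_swap X Y v x y
  have eq := D_swap X Y v y z
  have er := D_swap X Y v z x
  rcases lt_or_gt_of_ne hp with p | p <;> rcases lt_or_gt_of_ne hq with q | q <;>
    rcases lt_or_gt_of_ne hr with r | r
  · exact ⟨y, x, z, ay, ax, az, hy, hx, hz, hxy.symm, hyz, hxz, by linarith, r⟩
  · exact ⟨x, z, y, ax, az, ay, hx, hz, hy, hxz, hxy, hyz.symm, by linarith, q⟩
  · exact ⟨z, y, x, az, ay, ax, hz, hy, hx, hyz.symm, hxz.symm, hxy.symm, by linarith, p⟩
  · exact ⟨x, y, z, ax, ay, az, hx, hy, hz, hxy, hxz, hyz, r, by linarith⟩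
  · exact ⟨y, x, z, ay, ax, az, hy, hx, hz, hxy.symm, hyz, hxz, by linarith, r⟩
  · exact ⟨y, z, x, ay, az, ax, hy, hz, hx, hyz, hxy.symm, hxz.symm, p, by linarith⟩
  · exact ⟨z, x, y, az, ax, ay, hz, hx, hy, hxz.symm, hyz.symm, hxy, q, by linarith⟩
  · exact ⟨x, y, z, ax, ay, az, hx, hy, hz, hxy, hxz, hyz, r, by linarith⟩

theorem tri3_unique (h : AvRel X Y c) (hgp : GP X Y) {G : SimpleGraph V} (hG : Pln X Y G)
    {v v' x x' y y' z z' : V} (hvv : v ≠ v') (cv : c v = c v') (cx : c x = c x')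
    (cy : c y = c y') (cz : c z = c z') (hT : Tri3 X Y c G v x y z)
    (hT' : Tri3 X Y c G v' x' y' z') : False := by
  obtain ⟨ax, ay, az, hx, hy, hz, hxy, hxz, hyz, d1, d2⟩ := hT
  obtain ⟨ax', ay', az', -⟩ := hT'
  refine three_kinds hgp hG hvv ⟨?_, ?_⟩ ⟨?_, ?_⟩ ⟨?_, ?_⟩ ⟨?_, ?_⟩ ⟨?_, ?_⟩ ⟨?_, ?_⟩
    ax ay az ax' ay' az' ?_ ?_
  · rintro rfl; exact hx cx
  · rintro rfl; exact hx cv.symm
  · rintro rfl; exact hy cy
  · rintro rfl; exact hy cv.symm
  · rintro rfl; exact hz cz
  · rintro rfl; exact hz cv.symm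
  · rintro rfl; exact hxy cx
  · rintro rfl; exact hxy cy.symm
  · rintro rfl; exact hxz cx
  · rintro rfl; exact hxz cz.symm
  · rintro rfl; exact hyz cy
  · rintro rfl; exact hyz cz.symm
  · intro p hp r hr q hq
    have hp' : c v = c p := by rcases hp with rfl | rfl; · rfl
                               · exact cv
    have hr' : c z = c r := by rcases hr with rfl | rfl; · rfl
                               · exact cz
    have hq' : c x = c q := by rcases hq with rfl | rfl; · rfl
                               · exact cx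
    exact h.const3 hp' hr' hq' hz.symm hx.symm hxz.symm d1
  · intro p hp r hr q hq
    have hp' : c v = c p := by rcases hp with rfl | rfl; · rfl
                               · exact cv
    have hr' : c z = c r := by rcases hr with rfl | rfl; · rfl
                               · exact cz
    have hq' : c y = c q := by rcases hq with rfl | rfl; · rfl
                               · exact cy
    exact h.const3_neg hp' hr' hq' hz.symm hy.symm hyz.symm d2

open Classical in
/-- At most `M ^ 4` vertices have neighbours in three other classes. -/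
theorem exc_le [Fintype V] (h : AvRel X Y c) (hgp : GP X Y) {G : SimpleGraph V}
    (hG : Pln X Y G) : cnt (fun v => 3 ≤ ct c G v) ≤ M ^ 4 := by
  set E : Finset V := Finset.univ.filter (fun v => 3 ≤ ct c G v) with hE
  have hEc : cnt (fun v => 3 ≤ ct c G v) = E.card := by
    unfold cnt
    rw [hE]
    congr
  rw [hEc]
  have hch : ∀ v : V, ∃ q : V × V × V, v ∈ E → Tri3 X Y c G v q.1 q.2.1 q.2.2 := by
    intro v
    by_cases hv : v ∈ E
    · have h3 : 2 < ct c G v := (Finset.mem_filter.1 hv).2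
      unfold ct at h3
      rw [Finset.two_lt_card] at h3
      obtain ⟨j, hj, k, hk, l, hl, hjk, hjl, hkl⟩ := h3
      obtain ⟨-, hj1, x, hx, ax⟩ := Finset.mem_filter.1 hj
      obtain ⟨-, hk1, y, hy, ay⟩ := Finset.mem_filter.1 hk
      obtain ⟨-, hl1, z, hz, az⟩ := Finset.mem_filter.1 hl
      obtain ⟨x', y', z', hT⟩ := exists_tri3 (X := X) (Y := Y) (c := c) hgp ax ay az
        (by rw [hx]; exact hj1) (by rw [hy]; exact hk1) (by rw [hz]; exact hl1)
        (by rw [hx, hy]; exact hjk) (by rw [hx, hz]; exact hjl) (by rw [hy, hz]; exact hkl)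
      exact ⟨(x', y', z'), fun _ => hT⟩
    · exact ⟨(v, v, v), fun hh => absurd hh hv⟩
  choose q hq using hch
  set f : V → Fin M × Fin M × Fin M × Fin M := fun v =>
    (c v, c (q v).1, c (q v).2.1, c (q v).2.2) with hf
  have hinj : Set.InjOn f E := by
    intro v hv w hw hvw
    by_contra hne
    simp only [hf, Prod.mk.injEq] at hvw
    obtain ⟨e1, e2, e3, e4⟩ := hvw
    exact tri3_unique h hgp hG hne e1 e2 e3 e4 (hq v hv) (hq w hw)
  have h1 : E.card ≤ (Finset.univ : Finset (Fin M × Fin M × Fin M × Fin M)).card :=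
    Finset.card_le_card_of_injOn f (fun _ _ => Finset.mem_univ _) hinj
  have h2 : (Finset.univ : Finset (Fin M × Fin M × Fin M × Fin M)).card = M ^ 4 := by
    simp only [Finset.card_univ, Fintype.card_prod, Fintype.card_fin]
    ring
  omega

end Helper14.GT
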