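import Pool.Agent.Helper14.GT.Hp

/-!
# Counting edges of a layer: mutually avoiding classes
-/

namespace Helper14.GT

open Helper24.GT

variable {V : Type*} {M : ℕ} {X Y : V → ℝ} {c : V → Fin M}

open Classical in
/-- Indicator. -/
noncomputable def ind (p : Prop) : ℕ := if p then 1 else 0

theorem ind_pos {p : Prop} (h : p) : ind p = 1 := by unfold ind; rw [if_pos h]

theorem ind_neg {p : Prop} (h : ¬ p) : ind p = 0 := by unfold ind; rw [if_neg h]

theorem cnt_ind {V : Type*} [Fintype V] (P : V → Prop) : cnt P = ∑ u, ind (P u) := by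
  classical
  rw [cnt_eq_sum]
  refine Finset.sum_congr rfl (fun u _ => ?_)
  by_cases h : P u
  · rw [ind_pos h, if_pos h]
  · rw [ind_neg h, if_neg h]

section
variable [Fintype V] {rep : Fin M → V} {G : SimpleGraph V} {s : ℕ} {i : Fin M}

open Classical in
theorem sumS (rep : Fin M → V) (i : Fin M) (g : V → ℕ)
    (hg : ∀ v, g v ≠ 0 → (c v = i ∨ v = rep (c v))) :
    ∑ a : SV c rep i, g a.1 = ∑ v, g v := by
  rw [← Finset.sum_subtype (Finset.univ.filter (fun v => c v = i ∨ v = rep (c v)))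
    (fun x => by simp) g]
  rw [Finset.sum_filter]
  refine Finset.sum_congr rfl (fun v _ => ?_)
  by_cases hv : c v = i ∨ v = rep (c v)
  · rw [if_pos hv]
  · rw [if_neg hv]
    by_contra hne
    exact hv (hg v (fun e => hne e.symm))

open Classical in
theorem card_SV_le (rep : Fin M → V) (i : Fin M) :
    Fintype.card (SV c rep i) ≤ cnt (fun v => c v = i) + M := by
  have h1 : Fintype.card (SV c rep i) =
      (Finset.univ.filter (fun v => c v = i ∨ v = rep (c v))).card := Fintype.card_subtype _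
  rw [h1, Finset.filter_or]
  refine (Finset.card_union_le _ _).trans ?_
  have h2 : (Finset.univ.filter (fun v => v = rep (c v))).card ≤ M := by
    have : (Finset.univ.filter (fun v => v = rep (c v))).card ≤
        (Finset.univ : Finset (Fin M)).card := by
      refine Finset.card_le_card_of_injOn c (fun _ _ => Finset.mem_univ _) ?_
      intro v hv w hw hvw
      have h3 := (Finset.mem_filter.1 hv).2
      have h4 := (Finset.mem_filter.1 hw).2
      rw [h3, h4, hvw]
    simpa using this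
  refine Nat.add_le_add (le_of_eq ?_) h2
  unfold cnt
  congr

open Classical in
theorem ct_le_reps (hrep : ∀ v, c (rep (c v)) = c v) {a : V} (ha : c a = i) :
    ct c G a ≤ cnt (fun b : SV c rep i => c b.1 ≠ i ∧ nb c G (c b.1) a) := by
  unfold ct cnt
  have key : ∀ j, nb c G j a → c (rep j) = j := by
    rintro j ⟨w, hw, -⟩
    rw [← hw]; exact hrep w
  refine Finset.card_le_card_of_injOn
    (fun j => if hj : nb c G j a then (⟨rep j, Or.inr (by rw [key j hj])⟩ : SV c rep i)
      else ⟨a, Or.inl ha⟩) ?_ ?_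
  · intro j hj
    obtain ⟨-, h1, h2⟩ := Finset.mem_filter.1 hj
    simp only [dif_pos h2]
    simp only [Finset.coe_filter, Set.mem_setOf_eq, Finset.mem_univ, true_and]
    refine ⟨?_, ?_⟩
    · change c (rep j) ≠ i
      rw [key j h2, ← ha]; exact h1
    · change nb c G (c (rep j)) a
      rw [key j h2]; exact h2
  · intro j hj k hk hjk
    obtain ⟨-, h1, h2⟩ := Finset.mem_filter.1 hj
    obtain ⟨-, h3, h4⟩ := Finset.mem_filter.1 hk
    simp only [dif_pos h2, dif_pos h4] at hjk
    have h5 := congrArg Subtype.val hjk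
    simp only at h5
    rw [← key j h2, ← key k h4, h5]

open Classical in
/-- Degrees in the graph `HG`. -/
theorem deg_HG (hrep : ∀ v, c (rep (c v)) = c v) :
    (∑ v, if c v = i then cnt (fun u => G.Adj v u ∧ Lg X Y c s v u) else 0) +
      2 * (∑ v, if c v = i then ct c G v else 0) ≤
    ∑ a : SV c rep i, cnt (fun b => (HG X Y c rep G s i).Adj a b) := by
  have h1 : ∀ a b : SV c rep i, ind ((HG X Y c rep G s i).Adj a b) =
      ind (c a.1 = i ∧ G.Adj a.1 b.1 ∧ Lg X Y c s a.1 b.1) +
      (ind (c a.1 = i ∧ c b.1 ≠ i ∧ nb c G (c b.1) a.1) +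
      ind (c b.1 = i ∧ c a.1 ≠ i ∧ nb c G (c a.1) b.1)) := by
    intro a b
    have e0 : (HG X Y c rep G s i).Adj a b ↔ ((c a.1 = i ∧ c b.1 = i ∧ G.Adj a.1 b.1 ∧
        Lg X Y c s a.1 b.1) ∨ (c a.1 = i ∧ c b.1 ≠ i ∧ nb c G (c b.1) a.1) ∨
        (c b.1 = i ∧ c a.1 ≠ i ∧ nb c G (c a.1) b.1)) := Iff.rfl
    by_cases ha : c a.1 = i <;> by_cases hb : c b.1 = i
    · by_cases hI : G.Adj a.1 b.1 ∧ Lg X Y c s a.1 b.1
      · rw [ind_pos (e0.2 (Or.inl ⟨ha, hb, hI.1, hI.2⟩)), ind_pos ⟨ha, hI.1, hI.2⟩,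
          ind_neg (fun h => h.2.1 hb), ind_neg (fun h => h.2.1 ha)]
      · rw [ind_neg, ind_neg (fun h => hI h.2), ind_neg (fun h => h.2.1 hb),
          ind_neg (fun h => h.2.1 ha)]
        rw [e0]
        rintro (⟨-, -, h⟩ | ⟨-, h, -⟩ | ⟨-, h, -⟩)
        · exact hI h
        · exact h hb
        · exact h ha
    · have hI : ¬ (c a.1 = i ∧ G.Adj a.1 b.1 ∧ Lg X Y c s a.1 b.1) := by
        rintro ⟨-, -, h⟩
        exact hb (h.1.symm.trans ha)
      by_cases hR : nb c G (c b.1) a.1
      · rw [ind_pos (e0.2 (Or.inr (Or.inl ⟨ha, hb, hR⟩))), ind_neg hI, ind_pos ⟨ha, hb, hR⟩,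
          ind_neg (fun h => hb h.1)]
      · rw [ind_neg, ind_neg hI, ind_neg (fun h => hR h.2.2), ind_neg (fun h => hb h.1)]
        rw [e0]
        rintro (⟨-, h, -⟩ | ⟨-, -, h⟩ | ⟨h, -⟩)
        · exact hb h
        · exact hR h
        · exact hb h
    · have hI : ¬ (c a.1 = i ∧ G.Adj a.1 b.1 ∧ Lg X Y c s a.1 b.1) := fun h => ha h.1
      by_cases hR : nb c G (c a.1) b.1
      · rw [ind_pos (e0.2 (Or.inr (Or.inr ⟨hb, ha, hR⟩))), ind_neg hI,
          ind_neg (fun h => ha h.1), ind_pos ⟨hb, ha, hR⟩]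
      · rw [ind_neg, ind_neg hI, ind_neg (fun h => ha h.1), ind_neg (fun h => hR h.2.2)]
        rw [e0]
        rintro (⟨h, -⟩ | ⟨h, -⟩ | ⟨-, -, h⟩)
        · exact ha h
        · exact ha h
        · exact hR h
    · have hI : ¬ (c a.1 = i ∧ G.Adj a.1 b.1 ∧ Lg X Y c s a.1 b.1) := fun h => ha h.1
      rw [ind_neg, ind_neg hI, ind_neg (fun h => ha h.1), ind_neg (fun h => hb h.1)]
      rw [e0]
      rintro (⟨h, -⟩ | ⟨h, -⟩ | ⟨h, -⟩)
      · exact ha h
      · exact ha h
      · exact hb h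
  have h2 : ∑ a : SV c rep i, cnt (fun b => (HG X Y c rep G s i).Adj a b) =
      ∑ a : SV c rep i, ∑ b : SV c rep i,
        ind (c a.1 = i ∧ G.Adj a.1 b.1 ∧ Lg X Y c s a.1 b.1) +
      2 * ∑ a : SV c rep i, ∑ b : SV c rep i,
        ind (c a.1 = i ∧ c b.1 ≠ i ∧ nb c G (c b.1) a.1) := by
    simp only [cnt_ind, h1, Finset.sum_add_distrib]
    rw [two_mul]
    congr 2
    rw [Finset.sum_comm]
  rw [h2]
  refine Nat.add_le_add ?_ (Nat.mul_le_mul_left 2 ?_)
  · have h3 : ∀ a : SV c rep i, (∑ b : SV c rep i,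
        ind (c a.1 = i ∧ G.Adj a.1 b.1 ∧ Lg X Y c s a.1 b.1)) =
        (fun v => if c v = i then cnt (fun u => G.Adj v u ∧ Lg X Y c s v u) else 0) a.1 := by
      intro a
      by_cases ha : c a.1 = i
      · simp only [ha, true_and, if_true]
        rw [cnt_ind]
        refine sumS rep i (fun u => ind (G.Adj a.1 u ∧ Lg X Y c s a.1 u)) ?_
        intro u hu
        left
        by_contra hc
        apply hu
        rw [ind_neg]
        rintro ⟨-, h⟩
        exact hc (h.1.symm.trans ha)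
      · simp only [if_neg ha]
        exact Finset.sum_eq_zero (fun b _ => ind_neg (fun h => ha h.1))
    simp only [h3]
    rw [sumS rep i (fun v => if c v = i then cnt (fun u => G.Adj v u ∧ Lg X Y c s v u) else 0)]
    intro v hv
    left
    by_contra hc
    exact hv (if_neg hc)
  · have h3 : ∀ a : SV c rep i, (fun v => if c v = i then ct c G v else 0) a.1 ≤
        (∑ b : SV c rep i, ind (c a.1 = i ∧ c b.1 ≠ i ∧ nb c G (c b.1) a.1)) := by
      intro a
      by_cases ha : c a.1 = i
      · simp only [ha, true_and, if_true]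
        have := ct_le_reps (G := G) hrep ha
        rw [cnt_ind] at this
        exact this
      · simp only [if_neg ha]
        exact Nat.zero_le _
    rw [← sumS rep i (fun v => if c v = i then ct c G v else 0)]
    · exact Finset.sum_le_sum (fun a _ => h3 a)
    · intro v hv
      left
      by_contra hc
      exact hv (if_neg hc)

open Classical in
/-- One class in one layer. -/
theorem class_bound (h : AvRel X Y c) (hX : Function.Injective X) (hgp : GP X Y)
    (hG : Pln X Y G) (hrep : ∀ v, c (rep (c v)) = c v) :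
    (∑ v, if c v = i then cnt (fun u => G.Adj v u ∧ Lg X Y c s v u) else 0) +
      3 * (∑ v, if c v = i then ct c G v else 0) ≤
    6 * (cnt (fun v => c v = i) + M) + 2 * cnt (Bd X Y c G s i) +
      M * cnt (fun v => c v = i ∧ 3 ≤ ct c G v) := by
  have hX' : Function.Injective (fun v : SV c rep i => X v.1) :=
    fun a b hab => Subtype.ext (hX hab)
  have hgp' : GP (fun v : SV c rep i => X v.1) (fun v => Y v.1) :=
    fun a b d hab had hbd => hgp a.1 b.1 d.1 (fun e => hab (Subtype.ext e))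
      (fun e => had (Subtype.ext e)) (fun e => hbd (Subtype.ext e))
  have hpl : Pln (fun v : SV c rep i => X v.1) (fun v => Y v.1) (HG X Y c rep G s i) :=
    HG_pln h hgp hG
  have h1 := edges_add_pointed hX' hgp' hpl
  have h2 := sum_half hX' (fun a b => (HG X Y c rep G s i).Adj a b) (fun _ _ h => h.symm)
    (fun a h => h.ne rfl)
  have h3 := deg_HG (X := X) (Y := Y) (G := G) (s := s) (i := i) hrep
  have h4 := card_SV_le (c := c) rep i
  have h5 : cnt (fun v => c v = i ∧ 1 ≤ ct c G v ∧ ¬ Bd X Y c G s i v) ≤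
      cnt (fun v : SV c rep i => Pointed (fun v : SV c rep i => X v.1) (fun v => Y v.1)
        (HG X Y c rep G s i) v) := by
    have e1 : cnt (fun v => c v = i ∧ 1 ≤ ct c G v ∧ ¬ Bd X Y c G s i v) =
        cnt (fun v : SV c rep i => c v.1 = i ∧ 1 ≤ ct c G v.1 ∧ ¬ Bd X Y c G s i v.1) := by
      rw [cnt_ind, cnt_ind]
      rw [← sumS rep i (fun v => ind (c v = i ∧ 1 ≤ ct c G v ∧ ¬ Bd X Y c G s i v))]
      intro v hv
      left
      by_contra hc
      exact hv (ind_neg (fun h => hc h.1))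
    rw [e1]
    refine cnt_le_cnt ?_
    rintro v ⟨g1, g2, g3⟩
    exact HG_pointed h hX hgp hrep g1 g2 g3
  have h6 : cnt (fun v => c v = i ∧ 1 ≤ ct c G v) ≤
      cnt (fun v => c v = i ∧ 1 ≤ ct c G v ∧ ¬ Bd X Y c G s i v) + cnt (Bd X Y c G s i) := by
    simp only [cnt_ind]
    rw [← Finset.sum_add_distrib]
    refine Finset.sum_le_sum (fun v _ => ?_)
    by_cases hh : c v = i ∧ 1 ≤ ct c G v
    · rw [ind_pos hh]
      by_cases hb : Bd X Y c G s i v
      · rw [ind_pos hb]
        omega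
      · rw [ind_pos ⟨hh.1, hh.2, hb⟩]
        omega
    · rw [ind_neg hh]
      exact Nat.zero_le _
  have h7 : (∑ v, if c v = i then ct c G v else 0) ≤ 2 * cnt (fun v => c v = i ∧ 1 ≤ ct c G v) +
      M * cnt (fun v => c v = i ∧ 3 ≤ ct c G v) := by
    simp only [cnt_ind]
    rw [Finset.mul_sum, Finset.mul_sum, ← Finset.sum_add_distrib]
    refine Finset.sum_le_sum (fun v _ => ?_)
    have hM : ct c G v ≤ M := by
      unfold ct
      refine (Finset.card_le_univ _).trans ?_
      simp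
    by_cases hi : c v = i
    · by_cases h3 : 3 ≤ ct c G v
      · rw [if_pos hi, ind_pos ⟨hi, by omega⟩, ind_pos ⟨hi, h3⟩]
        omega
      · by_cases h1 : 1 ≤ ct c G v
        · rw [if_pos hi, ind_pos ⟨hi, h1⟩, ind_neg (fun h => h3 h.2)]
          omega
        · rw [if_pos hi, ind_neg (fun h => h1 h.2), ind_neg (fun h => h3 h.2)]
          omega
    · rw [if_neg hi]
      exact Nat.zero_le _
  have h8 : ∑ a : SV c rep i, dL (fun v : SV c rep i => X v.1) (HG X Y c rep G s i) a =
      ∑ a : SV c rep i, cnt (fun b => (HG X Y c rep G s i).Adj a b ∧ X b.1 < X a.1) := rfl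
  rw [h8] at h1
  omega

theorem sum_by_class (f : V → ℕ) : ∑ i, ∑ v, (if c v = i then f v else 0) = ∑ v, f v := by
  classical
  rw [Finset.sum_comm]
  refine Finset.sum_congr rfl (fun v _ => ?_)
  rw [Finset.sum_eq_single (c v)]
  · rw [if_pos rfl]
  · intro b _ hb
    rw [if_neg hb.symm]
  · intro h; exact absurd (Finset.mem_univ _) h

theorem sum_cnt_class (P : V → Prop) : ∑ i, cnt (fun v => c v = i ∧ P v) = cnt P := by
  classical
  rw [cnt_ind, ← sum_by_class (c := c)]
  refine Finset.sum_congr rfl (fun i _ => ?_)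
  rw [cnt_ind]
  refine Finset.sum_congr rfl (fun v _ => ?_)
  by_cases h1 : c v = i
  · by_cases h2 : P v
    · rw [ind_pos ⟨h1, h2⟩, if_pos h1, ind_pos h2]
    · rw [ind_neg (fun h => h2 h.2), if_pos h1, ind_neg h2]
  · rw [ind_neg (fun h => h1 h.1), if_neg h1]

theorem sum_card_class : ∑ i, cnt (fun v => c v = i) = Fintype.card V := by
  classical
  have h1 := sum_cnt_class (c := c) (fun _ => True)
  have h2 : cnt (fun _ : V => True) = Fintype.card V := by
    unfold cnt
    simp
  rw [← h2, ← h1]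
  refine Finset.sum_congr rfl (fun i _ => cnt_congr' (fun v => ?_))
  simp

/-- The constant of the layer bound. -/
def KK (M n s : ℕ) : ℕ :=
  6 * (n + M * M) + 2 * (M ^ 4 + (M + M * M) * (n / (s + 1) + M)) + M * M ^ 4

/-- One layer. -/
theorem layer_bound2 (h : AvRel X Y c) (hX : Function.Injective X) (hgp : GP X Y)
    (hG : Pln X Y G) (hrep : ∀ v, c (rep (c v)) = c v) :
    2 * (∑ v, cnt (fun u => G.Adj v u ∧ Lg X Y c s v u)) +
      3 * (∑ v, cnt (fun u => G.Adj v u ∧ c v ≠ c u)) ≤ 2 * KK M (Fintype.card V) s := by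
  classical
  have h1 := Finset.sum_le_sum (fun i (_ : i ∈ (Finset.univ : Finset (Fin M))) =>
    class_bound (s := s) (i := i) h hX hgp hG hrep)
  rw [Finset.sum_add_distrib, Finset.sum_add_distrib, Finset.sum_add_distrib, ← Finset.mul_sum,
    ← Finset.mul_sum, ← Finset.mul_sum, ← Finset.mul_sum, sum_by_class, sum_by_class,
    Finset.sum_add_distrib, sum_card_class, sum_cnt_class] at h1
  have h2 := Finset.sum_le_sum (fun i (_ : i ∈ (Finset.univ : Finset (Fin M))) =>
    cnt_Bd (s := s) (i := i) h hgp hG)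
  rw [Finset.sum_add_distrib, sum_cnt_class, ← Finset.mul_sum, Finset.sum_add_distrib] at h2
  have h3 := exc_le h hgp hG
  have h4 : ∑ i, cnt (fun v => c v = i) / (s + 1) ≤ Fintype.card V / (s + 1) := by
    rw [Nat.le_div_iff_mul_le (Nat.succ_pos s), Finset.sum_mul]
    calc ∑ i, cnt (fun v => c v = i) / (s + 1) * (s + 1) ≤ ∑ i, cnt (fun v => c v = i) :=
          Finset.sum_le_sum (fun i _ => Nat.div_mul_le_self _ _)
      _ = Fintype.card V := sum_card_class
  have h5 := inter_le h hgp hG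
  have h6 : ∑ _i : Fin M, M = M * M := by simp
  have h7 : ∑ _i : Fin M, 1 = M := by simp
  rw [h6] at h1
  rw [h7] at h2
  have h8 : (M + M * M) * (∑ i, cnt (fun v => c v = i) / (s + 1) + M) ≤
      (M + M * M) * (Fintype.card V / (s + 1) + M) :=
    Nat.mul_le_mul_left _ (Nat.add_le_add_right h4 _)
  have h9 : M * cnt (fun v => 3 ≤ ct c G v) ≤ M * M ^ 4 := Nat.mul_le_mul_left _ h3
  unfold KK
  omega

end

end Helper14.GT
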