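import Pool.Agent.Helper14.GT.Bad
import Pool.Agent.Helper14.GT.Exc

/-!
# The graph of a class with one vertex for each other class
-/

namespace Helper14.GT

open Helper24.GT

variable {V : Type*} {M : ℕ} {X Y : V → ℝ} {c : V → Fin M}

theorem comb_neg {p q β : ℝ} (hp : p ≠ 0) (hq : q ≠ 0) (h0 : 0 ≤ β) (h1 : β ≤ 1)
    (h : (1 - β) * p + β * q = 0) : p * q < 0 := by
  have b0 : β ≠ 0 := by
    rintro rfl
    apply hp
    linarith
  have b1 : β ≠ 1 := by
    rintro rfl
    apply hq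
    linarith
  have c0 : 0 < β := lt_of_le_of_ne h0 b0.symm
  have c1 : 0 < 1 - β := by
    have := lt_of_le_of_ne h1 b1
    linarith
  rcases lt_or_gt_of_ne hp with h2 | h2
  · have h3 := mul_neg_of_pos_of_neg c1 h2
    have h4 : 0 < β * q := by linarith
    have h5 : 0 < q := (pos_iff_pos_of_mul_pos h4).1 c0
    exact mul_neg_of_neg_of_pos h2 h5
  · have h3 := mul_pos c1 h2
    have h4 : β * q < 0 := by linarith
    have h5 : q < 0 := by
      by_contra hcon
      push Not at hcon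
      have := mul_nonneg c0.le hcon
      linarith
    exact mul_neg_of_pos_of_neg h2 h5

/-- Segments with a common point separate each other. -/
theorem cross_signs (hgp : GP X Y) {a b d e : V} (hab : a ≠ b) (hde : d ≠ e) (had : a ≠ d)
    (hae : a ≠ e) (hbd : b ≠ d) (hbe : b ≠ e) {α β : ℝ} (hα : 0 ≤ α) (hα' : α ≤ 1) (hβ : 0 ≤ β)
    (hβ' : β ≤ 1) (hx : (1 - α) * X a + α * X b = (1 - β) * X d + β * X e)
    (hy : (1 - α) * Y a + α * Y b = (1 - β) * Y d + β * Y e) :
    D X Y a b d * D X Y a b e < 0 ∧ D X Y d e a * D X Y d e b < 0 := by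
  constructor
  · refine comb_neg (D_ne hgp hab had hbd) (D_ne hgp hab hae hbe) hβ hβ' ?_
    unfold D
    linear_combination (X a - X b) * hy - (Y a - Y b) * hx
  · refine comb_neg (D_ne hgp hde had.symm hae.symm) (D_ne hgp hde hbd.symm hbe.symm) hα hα' ?_
    unfold D
    linear_combination (X e - X d) * hy - (Y e - Y d) * hx

/-- Moving vertices inside the classes other than `i` does not change orientations. -/
theorem sgn (h : AvRel X Y c) {i : Fin M} {x y z x' y' z' : V} (hx : c x = c x')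
    (hy : c y = c y') (hz : c z = c z') (ex : c x = i → x' = x) (ey : c y = i → y' = y)
    (ez : c z = i → z' = z) (nxy : x ≠ y) (nxz : x ≠ z) (nyz : y ≠ z)
    (mxy : c x = c y → c x = i) (mxz : c x = c z → c x = i) (myz : c y = c z → c y = i)
    (hi : c x = i ∨ c y = i ∨ c z = i) (hs : 0 < D X Y x y z) : 0 < D X Y x' y' z' := by
  by_cases ix : c x = i <;> by_cases iy : c y = i <;> by_cases iz : c z = i
  · rw [ex ix, ey iy, ez iz]; exact hs
  · rw [ex ix, ey iy]
    exact h.const x y z z' nxy hz (by rw [ix]; exact iz) (by rw [iy]; exact iz) hs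
  · rw [ex ix, ez iz]
    have e1 : D X Y x y z = D X Y z x y := by unfold D; ring
    have e2 : D X Y x y' z = D X Y z x y' := by unfold D; ring
    rw [e2]
    exact h.const z x y y' nxz.symm hy (by rw [iz]; exact iy) (by rw [ix]; exact iy)
      (by rw [← e1]; exact hs)
  · exact h.const3 hx hy hz (fun e => iy (e.symm.trans ix)) (fun e => iz (e.symm.trans ix))
      (fun e => iy (myz e)) hs
  · rw [ey iy, ez iz]
    exact h.view nyz hx (by rw [iy]; exact ix) (by rw [iz]; exact ix) hs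
  · exact h.const3 hx hy hz (fun e => ix (mxy e)) (fun e => ix (mxz e))
      (fun e => iz (e.symm.trans iy)) hs
  · exact h.const3 hx hy hz (fun e => ix (mxy e)) (fun e => ix (mxz e))
      (fun e => iy (myz e)) hs
  · rcases hi with h1 | h1 | h1
    · exact absurd h1 ix
    · exact absurd h1 iy
    · exact absurd h1 iz

theorem sgn_neg (h : AvRel X Y c) {i : Fin M} {x y z x' y' z' : V} (hx : c x = c x')
    (hy : c y = c y') (hz : c z = c z') (ex : c x = i → x' = x) (ey : c y = i → y' = y)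
    (ez : c z = i → z' = z) (nxy : x ≠ y) (nxz : x ≠ z) (nyz : y ≠ z)
    (mxy : c x = c y → c x = i) (mxz : c x = c z → c x = i) (myz : c y = c z → c y = i)
    (hi : c x = i ∨ c y = i ∨ c z = i) (hs : D X Y x y z < 0) : D X Y x' y' z' < 0 := by
  have e1 : D X Y x y z = - D X Y y x z := by unfold D; ring
  have e2 : D X Y x' y' z' = - D X Y y' x' z' := by unfold D; ring
  have := sgn h hy hx hz ey ex ez nxy.symm nyz nxz (fun e => e.trans (mxy e.symm)) myz mxz
    (by tauto) (by linarith)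
  linarith

theorem dist_mv {i : Fin M} {x y x' y' : V} (hx : c x = c x') (hy : c y = c y')
    (ex : c x = i → x' = x) (ey : c y = i → y' = y) (nxy : x ≠ y)
    (mxy : c x = c y → c x = i) : x' ≠ y' := by
  intro e
  have h1 : c x = c y := by rw [hx, hy, e]
  have h2 := mxy h1
  apply nxy
  rw [← ex h2, ← ey (h1.symm.trans h2), e]

/-- The class `i` and a representative of each other class. -/
abbrev SV (c : V → Fin M) (rep : Fin M → V) (i : Fin M) : Type _ :=
  {v : V // c v = i ∨ v = rep (c v)}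

/-- Long edges inside the class `i` and one edge for each class in which a vertex of class `i`
has neighbours. -/
def HG [Fintype V] (X Y : V → ℝ) (c : V → Fin M) (rep : Fin M → V) (G : SimpleGraph V) (s : ℕ)
    (i : Fin M) : SimpleGraph (SV c rep i) where
  Adj a b := (c a.1 = i ∧ c b.1 = i ∧ G.Adj a.1 b.1 ∧ Lg X Y c s a.1 b.1) ∨
    (c a.1 = i ∧ c b.1 ≠ i ∧ nb c G (c b.1) a.1) ∨ (c b.1 = i ∧ c a.1 ≠ i ∧ nb c G (c a.1) b.1)
  symm := ⟨by
    rintro a b (⟨h1, h2, h3, h4⟩ | h | h)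
    · exact Or.inl ⟨h2, h1, h3.symm, h4.symm⟩
    · exact Or.inr (Or.inr h)
    · exact Or.inr (Or.inl h)⟩
  loopless := ⟨by
    rintro a (⟨-, -, h, -⟩ | ⟨h1, h2, -⟩ | ⟨h1, h2, -⟩)
    · exact h.ne rfl
    · exact h2 h1
    · exact h2 h1⟩

section
variable [Fintype V] {rep : Fin M → V} {G : SimpleGraph V} {s : ℕ} {i : Fin M}

theorem SV_same {a b : SV c rep i} (h : c a.1 = c b.1) (hab : a ≠ b) : c a.1 = i := by
  by_contra hc
  rcases a.2 with h1 | h1
  · exact hc h1
  · rcases b.2 with h2 | h2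
    · exact hc (h.trans h2)
    · apply hab
      apply Subtype.ext
      rw [h1, h2, h]

/-- The edge of `G` behind an edge of `HG`. -/
theorem HG_edge {a b : SV c rep i} (hab : (HG X Y c rep G s i).Adj a b) :
    ∃ a' b' : V, c a.1 = c a' ∧ c b.1 = c b' ∧ (c a.1 = i → a' = a.1) ∧
      (c b.1 = i → b' = b.1) ∧ G.Adj a' b' ∧ (c a.1 = i ∨ c b.1 = i) := by
  rcases hab with ⟨h1, h2, h3, -⟩ | ⟨h1, h2, w, hw, hadj⟩ | ⟨h1, h2, w, hw, hadj⟩
  · exact ⟨a.1, b.1, rfl, rfl, fun _ => rfl, fun _ => rfl, h3, Or.inl h1⟩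
  · exact ⟨a.1, w, rfl, hw.symm, fun _ => rfl, fun e => absurd e h2, hadj, Or.inl h1⟩
  · exact ⟨w, b.1, hw.symm, rfl, fun e => absurd e h2, fun _ => rfl, hadj.symm, Or.inr h1⟩

theorem HG_pln (h : AvRel X Y c) (hgp : GP X Y) (hG : Pln X Y G) :
    Pln (fun v : SV c rep i => X v.1) (fun v => Y v.1) (HG X Y c rep G s i) := by
  intro a b d e hab hde had hae hbd hbe α β hα hα' hβ hβ' hx hy
  have hv : ∀ {x y : SV c rep i}, x ≠ y → x.1 ≠ y.1 := fun h e => h (Subtype.ext e)
  have nab := hab.ne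
  have nde := hde.ne
  obtain ⟨k1, k2⟩ := cross_signs hgp (hv nab) (hv nde) (hv had) (hv hae) (hv hbd) (hv hbe)
    hα hα' hβ hβ' hx hy
  obtain ⟨a', b', ca, cb, ea, eb, adj1, or1⟩ := HG_edge hab
  obtain ⟨d', e', cd, ce, ed, ee, adj2, or2⟩ := HG_edge hde
  have m : ∀ {x y : SV c rep i}, x ≠ y → (c x.1 = c y.1 → c x.1 = i) :=
    fun hxy h => SV_same h hxy
  have tr : ∀ {x y z : SV c rep i} {x' y' z' : V}, x ≠ y → x ≠ z → y ≠ z → c x.1 = c x' →
      c y.1 = c y' → c z.1 = c z' → (c x.1 = i → x' = x.1) → (c y.1 = i → y' = y.1) →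
      (c z.1 = i → z' = z.1) → (c x.1 = i ∨ c y.1 = i) →
      (0 < D X Y x.1 y.1 z.1 → 0 < D X Y x' y' z') ∧
        (D X Y x.1 y.1 z.1 < 0 → D X Y x' y' z' < 0) := by
    intro x y z x' y' z' nxy nxz nyz hx hy hz ex ey ez hor
    exact ⟨sgn h hx hy hz ex ey ez (hv nxy) (hv nxz) (hv nyz) (m nxy) (m nxz) (m nyz) (by tauto),
      sgn_neg h hx hy hz ex ey ez (hv nxy) (hv nxz) (hv nyz) (m nxy) (m nxz) (m nyz)
        (by tauto)⟩
  have tm : ∀ {p q p' q' : ℝ}, (0 < p → 0 < p') → (p < 0 → p' < 0) → (0 < q → 0 < q') →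
      (q < 0 → q' < 0) → p * q < 0 → p' * q' < 0 := by
    intro p q p' q' h1 h2 h3 h4 h5
    rcases mul_neg_iff.1 h5 with ⟨u, v⟩ | ⟨u, v⟩
    · exact mul_neg_of_pos_of_neg (h1 u) (h4 v)
    · exact mul_neg_of_neg_of_pos (h2 u) (h3 v)
  have t1 := tr nab had hbd ca cb cd ea eb ed or1
  have t2 := tr nab hae hbe ca cb ce ea eb ee or1
  have t3 := tr nde had.symm hae.symm cd ce ca ed ee ea or2
  have t4 := tr nde hbd.symm hbe.symm cd ce cb ed ee eb or2
  exact not_cross hG adj1 adj2 (dist_mv ca cd ea ed (hv had) (m had))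
    (dist_mv ca ce ea ee (hv hae) (m hae)) (dist_mv cb cd eb ed (hv hbd) (m hbd))
    (dist_mv cb ce eb ee (hv hbe) (m hbe))
    (tm t1.1 t1.2 t2.1 t2.2 k1) (tm t3.1 t3.2 t4.1 t4.2 k2)

end

end Helper14.GT
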