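import Pool.Agent.Helper14.GT.Hi

/-!
# Most vertices of a class with neighbours in other classes are pointed
-/

namespace Helper14.GT

open Helper24.GT

variable {V : Type*} {M : ℕ} {X Y : V → ℝ} {c : V → Fin M}

/-- A direction can be exchanged into a positively spanning triple. -/
theorem exchange {v x y z r : V} (h1 : 0 < D X Y v x y) (h2 : 0 < D X Y v y z)
    (h3 : 0 < D X Y v z x) (nx : D X Y v r x ≠ 0) (ny : D X Y v r y ≠ 0)
    (nz : D X Y v r z ≠ 0) :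
    (0 < D X Y v r y ∧ 0 < D X Y v y z ∧ 0 < D X Y v z r) ∨
    (0 < D X Y v r z ∧ 0 < D X Y v z x ∧ 0 < D X Y v x r) ∨
    (0 < D X Y v r x ∧ 0 < D X Y v x y ∧ 0 < D X Y v y r) := by
  have e : D X Y v y z * D X Y v r x + D X Y v z x * D X Y v r y +
      D X Y v x y * D X Y v r z = 0 := by unfold D; ring
  have ex := D_swap X Y v r x
  have ey := D_swap X Y v r y
  have ez := D_swap X Y v r z
  rcases lt_or_gt_of_ne nx with px | px <;> rcases lt_or_gt_of_ne ny with py | py <;>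
    rcases lt_or_gt_of_ne nz with pz | pz
  · exfalso
    have t1 := mul_neg_of_pos_of_neg h2 px
    have t2 := mul_neg_of_pos_of_neg h3 py
    have t3 := mul_neg_of_pos_of_neg h1 pz
    linarith
  · exact Or.inr (Or.inl ⟨pz, h3, by linarith⟩)
  · exact Or.inl ⟨py, h2, by linarith⟩
  · exact Or.inr (Or.inl ⟨pz, h3, by linarith⟩)
  · exact Or.inr (Or.inr ⟨px, h1, by linarith⟩)
  · exact Or.inr (Or.inr ⟨px, h1, by linarith⟩)
  · exact Or.inl ⟨py, h2, by linarith⟩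
  · exfalso
    have t1 := mul_pos h2 px
    have t2 := mul_pos h3 py
    have t3 := mul_pos h1 pz
    linarith

/-- The exceptional vertices. -/
def Bd [Fintype V] (X Y : V → ℝ) (c : V → Fin M) (G : SimpleGraph V) (s : ℕ) (i : Fin M)
    (v : V) : Prop :=
  (c v = i ∧ 3 ≤ ct c G v) ∨ (∃ j, B1 X Y c G s i j v) ∨ ∃ j k, B2 X Y c G s i j k v

section
variable [Fintype V] {rep : Fin M → V} {G : SimpleGraph V} {s : ℕ} {i : Fin M}

/-- Neighbours of `v` in the graph `HG`. -/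
theorem HG_nb {v x : SV c rep i} (cv : c v.1 = i) (hvx : (HG X Y c rep G s i).Adj v x) :
    (c x.1 = i ∧ G.Adj v.1 x.1 ∧ Lg X Y c s v.1 x.1) ∨ (c x.1 ≠ i ∧ nb c G (c x.1) v.1) := by
  rcases hvx with ⟨h1, h2, h3, h4⟩ | ⟨h1, h2, h3⟩ | ⟨h1, h2, h3⟩
  · exact Or.inl ⟨h2, h3, h4⟩
  · exact Or.inr ⟨h2, h3⟩
  · exact absurd cv h2

theorem two_reps (h : AvRel X Y c) {v x y z : SV c rep i} (cv : c v.1 = i)
    (hx : c x.1 ≠ i) (hx' : nb c G (c x.1) v.1) (hy : c y.1 ≠ i) (hy' : nb c G (c y.1) v.1)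
    (hz : c z.1 = i) (hz' : G.Adj v.1 z.1) (hz'' : Lg X Y c s v.1 z.1)
    (h1 : 0 < D X Y v.1 x.1 y.1) (h2 : 0 < D X Y v.1 y.1 z.1) (h3 : 0 < D X Y v.1 z.1 x.1) :
    B2 X Y c G s i (c x.1) (c y.1) v.1 := by
  have hxy : x ≠ y := by
    rintro rfl
    rw [D_self3] at h1
    exact lt_irrefl _ h1
  have cxy : c x.1 ≠ c y.1 := fun e => hx (SV_same e hxy)
  obtain ⟨w, hw, aw⟩ := hx'
  obtain ⟨w', hw', aw'⟩ := hy'
  refine ⟨cv, hx, hy, cxy, w, w', z.1, hw, hw', aw, aw', hz', hz'', ?_, ?_, ?_⟩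
  · exact h.const3 rfl hw.symm hw'.symm (by rw [cv]; exact hx.symm) (by rw [cv]; exact hy.symm)
      cxy h1
  · have e1 : D X Y v.1 y.1 z.1 = D X Y z.1 v.1 y.1 := by unfold D; ring
    have e2 : D X Y v.1 w' z.1 = D X Y z.1 v.1 w' := by unfold D; ring
    rw [e2]
    refine h.const z.1 v.1 y.1 w' hz'.ne.symm hw'.symm (by rw [hz]; exact hy)
      (by rw [cv]; exact hy) (by rw [← e1]; exact h2)
  · exact h.const v.1 z.1 x.1 w hz'.ne hw.symm (by rw [cv]; exact hx) (by rw [hz]; exact hx) h3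

theorem one_rep (h : AvRel X Y c) {v x y z : SV c rep i} (cv : c v.1 = i)
    (hx : c x.1 ≠ i) (hx' : nb c G (c x.1) v.1) (hy : c y.1 = i) (hy' : G.Adj v.1 y.1)
    (hy'' : Lg X Y c s v.1 y.1) (hz : c z.1 = i) (hz' : G.Adj v.1 z.1)
    (hz'' : Lg X Y c s v.1 z.1)
    (h1 : 0 < D X Y v.1 x.1 y.1) (h3 : 0 < D X Y v.1 z.1 x.1) :
    B1 X Y c G s i (c x.1) v.1 := by
  obtain ⟨w, hw, aw⟩ := hx'
  refine ⟨cv, hx, w, z.1, y.1, hw, aw, hz', hy', hz'', hy'', ?_, ?_⟩
  · have e1 : D X Y v.1 z.1 x.1 = D X Y x.1 v.1 z.1 := by unfold D; ring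
    exact h.view hz'.ne hw.symm (by rw [cv]; exact hx) (by rw [hz]; exact hx)
      (by rw [← e1]; exact h3)
  · have e1 : D X Y v.1 x.1 y.1 = D X Y x.1 y.1 v.1 := by unfold D; ring
    exact h.view hy'.ne.symm hw.symm (by rw [hy]; exact hx) (by rw [cv]; exact hx)
      (by rw [← e1]; exact h1)

open Classical in
theorem three_reps {v x y z : SV c rep i} (cv : c v.1 = i)
    (hx : c x.1 ≠ i) (hx' : nb c G (c x.1) v.1) (hy : c y.1 ≠ i) (hy' : nb c G (c y.1) v.1)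
    (hz : c z.1 ≠ i) (hz' : nb c G (c z.1) v.1) (hxy : x ≠ y) (hyz : y ≠ z) (hzx : z ≠ x) :
    3 ≤ ct c G v.1 := by
  unfold ct
  rw [Nat.succ_le_iff, Finset.two_lt_card]
  refine ⟨c x.1, ?_, c y.1, ?_, c z.1, ?_, ?_, ?_, ?_⟩
  · exact Finset.mem_filter.2 ⟨Finset.mem_univ _, by rw [cv]; exact hx, hx'⟩
  · exact Finset.mem_filter.2 ⟨Finset.mem_univ _, by rw [cv]; exact hy, hy'⟩
  · exact Finset.mem_filter.2 ⟨Finset.mem_univ _, by rw [cv]; exact hz, hz'⟩
  · exact fun e => hx (SV_same e hxy)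
  · exact fun e => hx (SV_same e hzx.symm)
  · exact fun e => hy (SV_same e hyz)

/-- A vertex with neighbours in other classes which is not exceptional is pointed. -/
theorem HG_pointed (h : AvRel X Y c) (hX : Function.Injective X) (hgp : GP X Y)
    (hrep : ∀ v, c (rep (c v)) = c v) {v : SV c rep i} (cv : c v.1 = i)
    (hct : 1 ≤ ct c G v.1) (hb : ¬ Bd X Y c G s i v.1) :
    Pointed (fun v : SV c rep i => X v.1) (fun v => Y v.1) (HG X Y c rep G s i) v := by
  classical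
  by_contra hnp
  have hX' : Function.Injective (fun v : SV c rep i => X v.1) :=
    fun a b hab => Subtype.ext (hX hab)
  have hgp' : GP (fun v : SV c rep i => X v.1) (fun v => Y v.1) :=
    fun a b d hab had hbd => hgp a.1 b.1 d.1 (fun e => hab (Subtype.ext e))
      (fun e => had (Subtype.ext e)) (fun e => hbd (Subtype.ext e))
  obtain ⟨x0, y0, z0, ax0, ay0, az0, h10, h20, h30⟩ := exists_triple hX' hgp' hnp
  -- a representative among the neighbours
  obtain ⟨j, hj⟩ : ∃ j, j ∈ Finset.univ.filter (fun j => j ≠ c v.1 ∧ nb c G j v.1) := by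
    have : 0 < (Finset.univ.filter (fun j => j ≠ c v.1 ∧ nb c G j v.1)).card := by
      unfold ct at hct
      omega
    exact Finset.card_pos.1 this
  obtain ⟨-, hj1, hj2⟩ := Finset.mem_filter.1 hj
  have hj3 : c (rep j) = j := by
    obtain ⟨w, hw, -⟩ := hj2
    rw [← hw]; exact hrep w
  set r : SV c rep i := ⟨rep j, Or.inr (by rw [hj3])⟩ with hr
  have hri : c r.1 ≠ i := by
    change c (rep j) ≠ i
    rw [hj3, ← cv]; exact hj1
  have hra : (HG X Y c rep G s i).Adj v r := by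
    refine Or.inr (Or.inl ⟨cv, hri, ?_⟩)
    change nb c G (c (rep j)) v.1
    rw [hj3]; exact hj2
  -- a triple which starts with a representative
  have hmain : ∃ x y z : SV c rep i, (HG X Y c rep G s i).Adj v x ∧
      (HG X Y c rep G s i).Adj v y ∧ (HG X Y c rep G s i).Adj v z ∧
      0 < D X Y v.1 x.1 y.1 ∧ 0 < D X Y v.1 y.1 z.1 ∧ 0 < D X Y v.1 z.1 x.1 ∧ c x.1 ≠ i := by
    by_cases h1 : c x0.1 = i
    · by_cases h2 : c y0.1 = i
      · by_cases h3 : c z0.1 = i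
        · have hne : ∀ x : SV c rep i, c x.1 = i → (HG X Y c rep G s i).Adj v x →
              D X Y v.1 r.1 x.1 ≠ 0 := by
            intro x hx hvx
            refine D_ne hgp (fun e => hra.ne (Subtype.ext e)) (fun e => hvx.ne (Subtype.ext e)) ?_
            intro e
            apply hri
            rw [e, hx]
          rcases exchange h10 h20 h30 (r := r) (hne x0 h1 ax0) (hne y0 h2 ay0) (hne z0 h3 az0)
            with ⟨g1, g2, g3⟩ | ⟨g1, g2, g3⟩ | ⟨g1, g2, g3⟩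
          · exact ⟨r, y0, z0, hra, ay0, az0, g1, g2, g3, hri⟩
          · exact ⟨r, z0, x0, hra, az0, ax0, g1, g2, g3, hri⟩
          · exact ⟨r, x0, y0, hra, ax0, ay0, g1, g2, g3, hri⟩
        · exact ⟨z0, x0, y0, az0, ax0, ay0, h30, h10, h20, h3⟩
      · exact ⟨y0, z0, x0, ay0, az0, ax0, h20, h30, h10, h2⟩
    · exact ⟨x0, y0, z0, ax0, ay0, az0, h10, h20, h30, h1⟩
  obtain ⟨x, y, z, ax, ay, az, h1, h2, h3, hx⟩ := hmain
  apply hb
  have hx' : nb c G (c x.1) v.1 := by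
    rcases HG_nb cv ax with ⟨g, -⟩ | ⟨-, g⟩
    · exact absurd g hx
    · exact g
  rcases HG_nb cv ay with ⟨gy1, gy2, gy3⟩ | ⟨gy1, gy2⟩ <;>
    rcases HG_nb cv az with ⟨gz1, gz2, gz3⟩ | ⟨gz1, gz2⟩
  · exact Or.inr (Or.inl ⟨_, one_rep h cv hx hx' gy1 gy2 gy3 gz1 gz2 gz3 h1 h3⟩)
  · exact Or.inr (Or.inr ⟨_, _, two_reps h cv gz1 gz2 hx hx' gy1 gy2 gy3 h3 h1 h2⟩)
  · exact Or.inr (Or.inr ⟨_, _, two_reps h cv hx hx' gy1 gy2 gz1 gz2 gz3 h1 h2 h3⟩)
  · have hne : ∀ {a b : SV c rep i}, 0 < D X Y v.1 a.1 b.1 → a ≠ b := by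
      rintro a b hab rfl
      rw [D_self3] at hab
      exact lt_irrefl _ hab
    exact Or.inl ⟨cv, three_reps cv hx hx' gy1 gy2 gz1 gz2 (hne h1) (hne h2) (hne h3)⟩

open Classical in
/-- The number of exceptional vertices. -/
theorem cnt_Bd (h : AvRel X Y c) (hgp : GP X Y) (hG : Pln X Y G) :
    cnt (Bd X Y c G s i) ≤ cnt (fun v => c v = i ∧ 3 ≤ ct c G v) +
      (M + M * M) * (cnt (fun v => c v = i) / (s + 1) + 1) := by
  have h1 : cnt (Bd X Y c G s i) ≤ cnt (fun v => c v = i ∧ 3 ≤ ct c G v) +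
      (∑ j, cnt (B1 X Y c G s i j) + ∑ j, ∑ k, cnt (B2 X Y c G s i j k)) := by
    unfold cnt
    have hsub : Finset.univ.filter (Bd X Y c G s i) ⊆
        Finset.univ.filter (fun v => c v = i ∧ 3 ≤ ct c G v) ∪
          ((Finset.univ.biUnion fun j => Finset.univ.filter (B1 X Y c G s i j)) ∪
            (Finset.univ.biUnion fun j => Finset.univ.biUnion fun k =>
              Finset.univ.filter (B2 X Y c G s i j k))) := by
      intro v hv
      rw [Finset.mem_union, Finset.mem_union]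
      rcases (Finset.mem_filter.1 hv).2 with g | ⟨j, g⟩ | ⟨j, k, g⟩
      · exact Or.inl (Finset.mem_filter.2 ⟨Finset.mem_univ _, g⟩)
      · refine Or.inr (Or.inl (Finset.mem_biUnion.2 ⟨j, Finset.mem_univ _, ?_⟩))
        exact Finset.mem_filter.2 ⟨Finset.mem_univ _, g⟩
      · refine Or.inr (Or.inr (Finset.mem_biUnion.2 ⟨j, Finset.mem_univ _, ?_⟩))
        refine Finset.mem_biUnion.2 ⟨k, Finset.mem_univ _, ?_⟩
        exact Finset.mem_filter.2 ⟨Finset.mem_univ _, g⟩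
    refine (Finset.card_le_card hsub).trans ?_
    refine (Finset.card_union_le _ _).trans ?_
    gcongr
    refine (Finset.card_union_le _ _).trans ?_
    gcongr
    · exact Finset.card_biUnion_le
    · refine Finset.card_biUnion_le.trans ?_
      exact Finset.sum_le_sum (fun j _ => Finset.card_biUnion_le)
  refine h1.trans ?_
  gcongr
  set q := cnt (fun v => c v = i) / (s + 1) + 1 with hq
  have h2 : ∑ j, cnt (B1 X Y c G s i j) ≤ M * q := by
    calc ∑ j, cnt (B1 X Y c G s i j) ≤ ∑ _j : Fin M, q :=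
          Finset.sum_le_sum (fun j _ => cnt_B1 h hgp hG s i j)
      _ = M * q := by simp
  have h3 : ∑ j, ∑ k, cnt (B2 X Y c G s i j k) ≤ M * M * q := by
    calc ∑ j, ∑ k, cnt (B2 X Y c G s i j k) ≤ ∑ _j : Fin M, ∑ _k : Fin M, q :=
          Finset.sum_le_sum (fun j _ => Finset.sum_le_sum (fun k _ => cnt_B2 h hgp hG s i j k))
      _ = M * M * q := by simp [mul_assoc]
  calc _ ≤ M * q + M * M * q := Nat.add_le_add h2 h3
    _ = (M + M * M) * q := by ring

end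

end Helper14.GT
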