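import Pool.Agent.Helper24.GT.Defs

/-!
# Vertices with three kinds of neighbours in a plane layer
-/

namespace Helper14.GT

open Helper24.GT

/-- Twice the signed area of the triangle `a b c`. -/
def D {V : Type*} (X Y : V → ℝ) (a b c : V) : ℝ :=
  (X b - X a) * (Y c - Y a) - (X c - X a) * (Y b - Y a)

variable {V : Type*} {X Y : V → ℝ}

theorem D_cyc (X Y : V → ℝ) (a b c : V) : D X Y a b c = D X Y b c a := by unfold D; ring

theorem D_swap (X Y : V → ℝ) (a b c : V) : D X Y a c b = - D X Y a b c := by unfold D; ring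

theorem D_ne (hgp : GP X Y) {a b c : V} (h1 : a ≠ b) (h2 : a ≠ c) (h3 : b ≠ c) :
    D X Y a b c ≠ 0 := hgp a b c h1 h2 h3

theorem D_gp (X Y : V → ℝ) (v a b c d : V) :
    D X Y v a b * D X Y v c d - D X Y v a c * D X Y v b d + D X Y v a d * D X Y v b c = 0 := by
  unfold D; ring

/-- Two disjoint edges of a plane graph do not separate each other. -/
theorem not_cross {G : SimpleGraph V} (hG : Pln X Y G) {a b c d : V} (h1 : G.Adj a b)
    (h2 : G.Adj c d) (hac : a ≠ c) (had : a ≠ d) (hbc : b ≠ c) (hbd : b ≠ d)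
    (k1 : D X Y a b c * D X Y a b d < 0) (k2 : D X Y c d a * D X Y c d b < 0) : False := by
  have e1 : D X Y c d a - D X Y c d b ≠ 0 := by
    intro h
    have : D X Y c d a = D X Y c d b := by linarith
    rw [this] at k2
    nlinarith [mul_self_nonneg (D X Y c d b)]
  have e2 : D X Y a b c - D X Y a b d ≠ 0 := by
    intro h
    have : D X Y a b c = D X Y a b d := by linarith
    rw [this] at k1
    nlinarith [mul_self_nonneg (D X Y a b d)]
  have key : ∀ p q : ℝ, p * q < 0 → p - q ≠ 0 → 0 ≤ p / (p - q) ∧ p / (p - q) ≤ 1 := by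
    intro p q hpq hne
    rcases lt_or_gt_of_ne hne with h | h
    · have hp : p < 0 := by
        by_contra hp
        push Not at hp
        have : 0 < q := by linarith
        nlinarith
      have hq : 0 < q := by
        by_contra hq
        push Not at hq
        nlinarith
      constructor
      · exact div_nonneg_of_nonpos hp.le (by linarith)
      · rw [div_le_one_of_neg h]; linarith
    · have hp : 0 < p := by
        by_contra hp
        push Not at hp
        have : q < 0 := by linarith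
        nlinarith
      have hq : q < 0 := by
        by_contra hq
        push Not at hq
        nlinarith
      constructor
      · exact div_nonneg hp.le (by linarith)
      · rw [div_le_one h]; linarith
  obtain ⟨a1, a2⟩ := key _ _ k2 e1
  obtain ⟨b1, b2⟩ := key _ _ k1 e2
  refine hG a b c d h1 h2 hac had hbc hbd (D X Y c d a / (D X Y c d a - D X Y c d b))
    (D X Y a b c / (D X Y a b c - D X Y a b d)) a1 a2 b1 b2 ?_ ?_
  · field_simp
    unfold D
    ring
  · field_simp
    unfold D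
    ring

/-- If an edge `c d` is separated by the line of the edge `a b`, then `a` and `b` are on the same
side of the line of `c d`; here `b` is known to be on the positive side. -/
theorem same_side (hgp : GP X Y) {G : SimpleGraph V} (hG : Pln X Y G) {a b c d : V}
    (h1 : G.Adj a b) (h2 : G.Adj c d) (hac : a ≠ c) (had : a ≠ d) (hbc : b ≠ c) (hbd : b ≠ d)
    (k1 : D X Y a b c * D X Y a b d < 0) (k2 : 0 < D X Y c d b) : 0 < D X Y c d a := by
  by_contra hcon
  push Not at hcon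
  have h3 : D X Y c d a ≠ 0 := D_ne hgp h2.ne hac.symm had.symm
  have h4 : D X Y c d a < 0 := lt_of_le_of_ne hcon h3
  exact not_cross hG h1 h2 hac had hbc hbd k1 (mul_neg_of_neg_of_pos h4 k2)

/-- `v'` is to the right of `v z` and `v` is to the left of `v' z'`. -/
theorem caseA (hgp : GP X Y) {G : SimpleGraph V} (hG : Pln X Y G) {v v' x' y z z' : V}
    (hvv : v ≠ v') (hvx' : v ≠ x') (hv'y : v' ≠ y) (hx'y : x' ≠ y) (hzx' : z ≠ x')
    (hzv' : z ≠ v') (hz'v : z' ≠ v) (hz'y : z' ≠ y)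
    (a2 : G.Adj v y) (a3 : G.Adj v z) (b1 : G.Adj v' x') (b3 : G.Adj v' z')
    (p1 : 0 < D X Y v z x') (p2 : 0 < D X Y v' z x') (p3 : 0 < D X Y v' z' x')
    (q1 : D X Y v z y < 0) (q2 : D X Y v z' y < 0) (q3 : D X Y v' z' y < 0)
    (r1 : D X Y v z v' < 0) (r2 : 0 < D X Y v' z' v) : False := by
  -- (1)
  have c1 : 0 < D X Y x' v' v := by
    refine same_side hgp hG a3 b1.symm hvx' hvv hzx' hzv' (mul_neg_of_pos_of_neg p1 r1) ?_
    rw [D_cyc]; exact p2
  -- (2)
  have c2 : 0 < D X Y v y v' := by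
    refine same_side hgp hG b3 a2 hvv.symm hv'y hz'v hz'y (mul_neg_of_pos_of_neg r2 q3) ?_
    have := D_swap X Y v z' y
    linarith
  -- (3)
  have s1 : D X Y v v' x' < 0 := by
    have e1 := D_swap X Y v x' v'
    have e2 : D X Y x' v' v = D X Y v x' v' := by unfold D; ring
    linarith
  have s2 : 0 < D X Y v v' z := by
    have := D_swap X Y v z v'
    linarith
  have s3 : 0 < D X Y v y z := by
    have := D_swap X Y v z y
    linarith
  have c3 : D X Y v y x' < 0 := by
    by_contra hcon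
    push Not at hcon
    have e := D_gp X Y v y v' z x'
    have t1 : 0 < D X Y v y v' * D X Y v z x' := mul_pos c2 p1
    have t2 : D X Y v y z * D X Y v v' x' < 0 := mul_neg_of_pos_of_neg s3 s1
    have t3 : 0 ≤ D X Y v y x' * D X Y v v' z := mul_nonneg hcon s2.le
    linarith
  -- (4)
  have c4 : D X Y x' v' y < 0 := by
    have e0 : D X Y x' v' y = D X Y v' y x' := by unfold D; ring
    rw [e0]
    by_contra hcon
    push Not at hcon
    have e := D_gp X Y v' y z' v x'
    have u1 : 0 < D X Y v' y z' := by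
      have := D_swap X Y v' z' y
      linarith
    have u2 : 0 < D X Y v' v x' := by
      have : D X Y x' v' v = D X Y v' v x' := by unfold D; ring
      linarith
    have u3 : D X Y v' y v < 0 := by
      have : D X Y v y v' = - D X Y v' y v := by unfold D; ring
      linarith
    have t1 : 0 < D X Y v' y z' * D X Y v' v x' := mul_pos u1 u2
    have t2 : D X Y v' y v * D X Y v' z' x' < 0 := mul_neg_of_neg_of_pos u3 p3
    have t3 : 0 ≤ D X Y v' y x' * D X Y v' z' v := mul_nonneg hcon r2.le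
    linarith
  exact not_cross hG a2 b1.symm hvx' hvv hx'y.symm hv'y.symm
    (mul_neg_of_neg_of_pos c3 c2) (mul_neg_of_pos_of_neg c1 c4)

/-- `v'` is to the right of `v z` and `v` is to the right of `v' z'`. -/
theorem caseC (hgp : GP X Y) {G : SimpleGraph V} (hG : Pln X Y G) {v v' x x' z z' : V}
    (hvv : v ≠ v') (hvx' : v ≠ x') (hv'x : v' ≠ x) (hzx' : z ≠ x')
    (hz'x : z' ≠ x) (hzv' : z ≠ v') (hz'v : z' ≠ v)
    (a1 : G.Adj v x) (a3 : G.Adj v z) (b1 : G.Adj v' x') (b3 : G.Adj v' z')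
    (p0 : 0 < D X Y v z x) (p1 : 0 < D X Y v z x') (p2 : 0 < D X Y v z' x)
    (p3 : 0 < D X Y v z' x') (p4 : 0 < D X Y v' z x') (p5 : 0 < D X Y v' z' x)
    (r1 : D X Y v z v' < 0) (r2 : D X Y v' z' v < 0) : False := by
  have c1 : 0 < D X Y x' v' v := by
    refine same_side hgp hG a3 b1.symm hvx' hvv hzx' hzv' (mul_neg_of_pos_of_neg p1 r1) ?_
    rw [D_cyc]; exact p4
  have c2 : 0 < D X Y x v v' := by
    refine same_side hgp hG b3 a1.symm hv'x hvv.symm hz'x hz'v (mul_neg_of_pos_of_neg p5 r2) ?_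
    rw [D_cyc]; exact p2
  have w1 : 0 < D X Y v v' z := by
    have := D_swap X Y v z v'
    linarith
  have w2 : D X Y v v' z' < 0 := by
    have : D X Y v' z' v = D X Y v v' z' := by unfold D; ring
    linarith
  have w3 : 0 < D X Y v v' x := by
    have : D X Y x v v' = D X Y v v' x := by unfold D; ring
    linarith
  have w4 : D X Y v v' x' < 0 := by
    have : D X Y x' v' v = - D X Y v v' x' := by unfold D; ring
    linarith
  have n1 : D X Y v x' z' < 0 := by
    have := D_swap X Y v z' x'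
    linarith
  have n2 : D X Y v x z' < 0 := by
    have := D_swap X Y v z' x
    linarith
  have z1 : 0 < D X Y v z z' := by
    by_contra hcon
    push Not at hcon
    have e := D_gp X Y v v' z x' z'
    have t1 : D X Y v v' z * D X Y v x' z' < 0 := mul_neg_of_pos_of_neg w1 n1
    have t2 : 0 ≤ D X Y v v' x' * D X Y v z z' := mul_nonneg_of_nonpos_of_nonpos w4.le hcon
    have t3 : D X Y v v' z' * D X Y v z x' < 0 := mul_neg_of_neg_of_pos w2 p1
    linarith
  have e := D_gp X Y v v' z x z'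
  have t1 : D X Y v v' z * D X Y v x z' < 0 := mul_neg_of_pos_of_neg w1 n2
  have t2 : 0 < D X Y v v' x * D X Y v z z' := mul_pos w3 z1
  have t3 : D X Y v v' z' * D X Y v z x < 0 := mul_neg_of_neg_of_pos w2 p0
  linarith

theorem D_neg (X Y : V → ℝ) (a b c : V) : D (fun v => - X v) Y a b c = - D X Y a b c := by
  unfold D; ring

/-- **Three kinds of neighbours.**  Two different vertices `v`, `v'` of a plane layer cannot both
have an upper neighbour (`z`, `z'`), a left neighbour (`x`, `x'`) and a right neighbour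
(`y`, `y'`), if left and right is meant uniformly: seen from `v` and from `v'`, both of `x`, `x'`
are to the left of both of `z`, `z'`, and both of `y`, `y'` are to the right. -/
theorem three_kinds (hgp : GP X Y) {G : SimpleGraph V} (hG : Pln X Y G)
    {v v' x x' y y' z z' : V} (hvv : v ≠ v')
    (dvx : v ≠ x' ∧ v' ≠ x) (dvy : v ≠ y' ∧ v' ≠ y) (dvz : v ≠ z' ∧ v' ≠ z)
    (dxy : x' ≠ y ∧ x ≠ y') (dxz : z ≠ x' ∧ z' ≠ x) (dyz : z ≠ y' ∧ z' ≠ y)
    (a1 : G.Adj v x) (a2 : G.Adj v y) (a3 : G.Adj v z)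
    (b1 : G.Adj v' x') (b2 : G.Adj v' y') (b3 : G.Adj v' z')
    (hx : ∀ p, p = v ∨ p = v' → ∀ r, r = z ∨ r = z' → ∀ q, q = x ∨ q = x' → 0 < D X Y p r q)
    (hy : ∀ p, p = v ∨ p = v' → ∀ r, r = z ∨ r = z' → ∀ q, q = y ∨ q = y' → D X Y p r q < 0) :
    False := by
  have n1 : D X Y v z v' ≠ 0 := D_ne hgp a3.ne hvv dvz.2.symm
  have n2 : D X Y v' z' v ≠ 0 := D_ne hgp b3.ne hvv.symm dvz.1.symm
  rcases lt_or_gt_of_ne n1 with h1 | h1 <;> rcases lt_or_gt_of_ne n2 with h2 | h2
  · exact caseC hgp hG hvv dvx.1 dvx.2 dxz.1 dxz.2 dvz.2.symm dvz.1.symm a1 a3 b1 b3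
      (hx _ (Or.inl rfl) _ (Or.inl rfl) _ (Or.inl rfl))
      (hx _ (Or.inl rfl) _ (Or.inl rfl) _ (Or.inr rfl))
      (hx _ (Or.inl rfl) _ (Or.inr rfl) _ (Or.inl rfl))
      (hx _ (Or.inl rfl) _ (Or.inr rfl) _ (Or.inr rfl))
      (hx _ (Or.inr rfl) _ (Or.inl rfl) _ (Or.inr rfl))
      (hx _ (Or.inr rfl) _ (Or.inr rfl) _ (Or.inl rfl)) h1 h2
  · exact caseA hgp hG hvv dvx.1 dvy.2 dxy.1 dxz.1 dvz.2.symm dvz.1.symm dyz.2 a2 a3 b1 b3
      (hx _ (Or.inl rfl) _ (Or.inl rfl) _ (Or.inr rfl))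
      (hx _ (Or.inr rfl) _ (Or.inl rfl) _ (Or.inr rfl))
      (hx _ (Or.inr rfl) _ (Or.inr rfl) _ (Or.inr rfl))
      (hy _ (Or.inl rfl) _ (Or.inl rfl) _ (Or.inl rfl))
      (hy _ (Or.inl rfl) _ (Or.inr rfl) _ (Or.inl rfl))
      (hy _ (Or.inr rfl) _ (Or.inr rfl) _ (Or.inl rfl)) h1 h2
  · exact caseA hgp hG hvv.symm dvx.2 dvy.1 dxy.2 dxz.2 dvz.1.symm dvz.2.symm dyz.1 b2 b3 a1 a3
      (hx _ (Or.inr rfl) _ (Or.inr rfl) _ (Or.inl rfl))
      (hx _ (Or.inl rfl) _ (Or.inr rfl) _ (Or.inl rfl))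
      (hx _ (Or.inl rfl) _ (Or.inl rfl) _ (Or.inl rfl))
      (hy _ (Or.inr rfl) _ (Or.inr rfl) _ (Or.inr rfl))
      (hy _ (Or.inr rfl) _ (Or.inl rfl) _ (Or.inr rfl))
      (hy _ (Or.inl rfl) _ (Or.inl rfl) _ (Or.inr rfl)) h2 h1
  · have hgp' : GP (fun v => - X v) Y := by
      have := hgp.lin (p := -1) (q := 0) (r := 0) (s := 1) (by norm_num)
      simpa using this
    have hG' : Pln (fun v => - X v) Y G := by
      have := hG.lin (p := -1) (q := 0) (r := 0) (s := 1) (by norm_num)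
      simpa using this
    have hy' : ∀ p, p = v ∨ p = v' → ∀ r, r = z ∨ r = z' → ∀ q, q = y ∨ q = y' →
        0 < D (fun v => - X v) Y p r q := by
      intro p hp r hr q hq
      rw [D_neg]
      have := hy p hp r hr q hq
      linarith
    exact caseC hgp' hG' hvv dvy.1 dvy.2 dyz.1 dyz.2 dvz.2.symm dvz.1.symm a2 a3 b2 b3
      (hy' _ (Or.inl rfl) _ (Or.inl rfl) _ (Or.inl rfl))
      (hy' _ (Or.inl rfl) _ (Or.inl rfl) _ (Or.inr rfl))
      (hy' _ (Or.inl rfl) _ (Or.inr rfl) _ (Or.inl rfl))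
      (hy' _ (Or.inl rfl) _ (Or.inr rfl) _ (Or.inr rfl))
      (hy' _ (Or.inr rfl) _ (Or.inl rfl) _ (Or.inr rfl))
      (hy' _ (Or.inr rfl) _ (Or.inr rfl) _ (Or.inl rfl))
      (by rw [D_neg]; linarith) (by rw [D_neg]; linarith)

end Helper14.GT
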