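import Pool.Agent.Helper14.GT.Hc

/-!
# The total count for mutually avoiding classes
-/

namespace Helper14.GT

open Helper24.GT

variable {V : Type*} {M : ℕ} {X Y : V → ℝ} {c : V → Fin M}

section
variable [Fintype V] {s : ℕ}

open Classical in
/-- Few vertices of a class are at distance at most `s` from a given one. -/
theorem near_card (h : AvRel X Y c) (hgp : GP X Y) (s : ℕ) (w v : V) (hw : c w ≠ c v) :
    cnt (fun u => c u = c v ∧ u ≠ v ∧ ¬ (rnk X Y c w v + s < rnk X Y c w u) ∧
      ¬ (rnk X Y c w u + s < rnk X Y c w v)) ≤ 2 * s := by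
  set S := Finset.univ.filter (fun u => c u = c v ∧ u ≠ v ∧
      ¬ (rnk X Y c w v + s < rnk X Y c w u) ∧ ¬ (rnk X Y c w u + s < rnk X Y c w v)) with hS
  have h0 : cnt (fun u => c u = c v ∧ u ≠ v ∧ ¬ (rnk X Y c w v + s < rnk X Y c w u) ∧
      ¬ (rnk X Y c w u + s < rnk X Y c w v)) = S.card := by
    unfold cnt
    rw [hS]
    congr
  rw [h0]
  set r := rnk X Y c w v with hr
  have h1 : S.card ≤ ((Finset.Icc (r - s) (r + s)).erase r).card := by
    refine Finset.card_le_card_of_injOn (rnk X Y c w) ?_ ?_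
    · intro u hu
      obtain ⟨-, g1, g2, g3, g4⟩ := Finset.mem_filter.1 hu
      rw [Finset.mem_coe, Finset.mem_erase, Finset.mem_Icc]
      refine ⟨rnk_ne h hgp g1 (by rw [g1]; exact hw) g2, ?_, ?_⟩ <;> omega
    · intro u hu u' hu' he
      obtain ⟨-, g1, g2, g3, g4⟩ := Finset.mem_filter.1 hu
      obtain ⟨-, g1', -⟩ := Finset.mem_filter.1 hu'
      by_contra hne
      exact rnk_ne h hgp (g1.trans g1'.symm) (by rw [g1]; exact hw) hne he
  have h2 : r ∈ Finset.Icc (r - s) (r + s) := by
    rw [Finset.mem_Icc]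
    omega
  rw [Finset.card_erase_of_mem h2, Nat.card_Icc] at h1
  omega

open Classical in
/-- Almost all pairs inside a class are long. -/
theorem long_pairs (h : AvRel X Y c) (hgp : GP X Y) (s : ℕ) {rep : Fin M → V}
    (hrep : ∀ v, c (rep (c v)) = c v) (v : V) :
    cnt (fun u => c u = c v) ≤ 1 + cnt (fun u => v ≠ u ∧ Lg X Y c s v u) + M * (2 * s) := by
  have h1 : ∑ j : Fin M, (if c (rep j) ≠ c v then
      cnt (fun u => c u = c v ∧ u ≠ v ∧ ¬ (rnk X Y c (rep j) v + s < rnk X Y c (rep j) u) ∧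
      ¬ (rnk X Y c (rep j) u + s < rnk X Y c (rep j) v)) else 0) ≤ M * (2 * s) := by
    calc _ ≤ ∑ _j : Fin M, 2 * s := by
          refine Finset.sum_le_sum (fun j _ => ?_)
          by_cases hj : c (rep j) ≠ c v
          · rw [if_pos hj]
            exact near_card h hgp s (rep j) v hj
          · rw [if_neg hj]
            exact Nat.zero_le _
      _ = M * (2 * s) := by simp
  have h2 : cnt (fun u => c u = c v) ≤ 1 + cnt (fun u => v ≠ u ∧ Lg X Y c s v u) +
      ∑ j : Fin M, (if c (rep j) ≠ c v then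
      cnt (fun u => c u = c v ∧ u ≠ v ∧ ¬ (rnk X Y c (rep j) v + s < rnk X Y c (rep j) u) ∧
      ¬ (rnk X Y c (rep j) u + s < rnk X Y c (rep j) v)) else 0) := by
    have e1 : (1 : ℕ) = ∑ u, ind (u = v) := by
      rw [Finset.sum_eq_single v]
      · rw [ind_pos rfl]
      · intro b _ hb
        exact ind_neg hb
      · intro h; exact absurd (Finset.mem_univ _) h
    have e2 : ∀ j : Fin M, (if c (rep j) ≠ c v then
        cnt (fun u => c u = c v ∧ u ≠ v ∧ ¬ (rnk X Y c (rep j) v + s < rnk X Y c (rep j) u) ∧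
        ¬ (rnk X Y c (rep j) u + s < rnk X Y c (rep j) v)) else 0) =
        ∑ u, ind (c (rep j) ≠ c v ∧ c u = c v ∧ u ≠ v ∧
          ¬ (rnk X Y c (rep j) v + s < rnk X Y c (rep j) u) ∧
          ¬ (rnk X Y c (rep j) u + s < rnk X Y c (rep j) v)) := by
      intro j
      by_cases hj : c (rep j) ≠ c v
      · rw [if_pos hj, cnt_ind]
        refine Finset.sum_congr rfl (fun u _ => ?_)
        have : (c (rep j) ≠ c v ∧ c u = c v ∧ u ≠ v ∧
          ¬ (rnk X Y c (rep j) v + s < rnk X Y c (rep j) u) ∧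
          ¬ (rnk X Y c (rep j) u + s < rnk X Y c (rep j) v)) = (c u = c v ∧ u ≠ v ∧
          ¬ (rnk X Y c (rep j) v + s < rnk X Y c (rep j) u) ∧
          ¬ (rnk X Y c (rep j) u + s < rnk X Y c (rep j) v)) :=
          propext ⟨fun g => g.2, fun g => ⟨hj, g⟩⟩
        rw [this]
      · rw [if_neg hj]
        symm
        exact Finset.sum_eq_zero (fun u _ => ind_neg (fun g => hj g.1))
    rw [Finset.sum_congr rfl (fun j _ => e2 j), Finset.sum_comm, e1, cnt_ind, cnt_ind,
      ← Finset.sum_add_distrib, ← Finset.sum_add_distrib]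
    refine Finset.sum_le_sum (fun u _ => ?_)
    by_cases hu : c u = c v
    · rw [ind_pos hu]
      by_cases huv : u = v
      · rw [ind_pos huv]
        omega
      · by_cases hL : Lg X Y c s v u
        · rw [ind_pos (⟨fun e => huv e.symm, hL⟩ : v ≠ u ∧ Lg X Y c s v u)]
          omega
        · have : ∃ w, c w ≠ c v ∧ ¬ (rnk X Y c w v + s < rnk X Y c w u) ∧
              ¬ (rnk X Y c w u + s < rnk X Y c w v) := by
            by_contra hcon
            push Not at hcon
            apply hL
            refine ⟨hu.symm, fun w hw => ?_⟩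
            by_contra h3
            push Not at h3
            have := hcon w hw h3.1
            omega
          obtain ⟨w, hw, g1, g2⟩ := this
          have hcw : c (rep (c w)) = c w := hrep w
          have r1 : rnk X Y c (rep (c w)) v = rnk X Y c w v :=
            rnk_congr h hcw (by rw [hcw]; exact hw)
          have r2 : rnk X Y c (rep (c w)) u = rnk X Y c w u :=
            rnk_congr h hcw (by rw [hcw, hu]; exact hw)
          have h3 : ind (c (rep (c w)) ≠ c v ∧ c u = c v ∧ u ≠ v ∧
              ¬ (rnk X Y c (rep (c w)) v + s < rnk X Y c (rep (c w)) u) ∧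
              ¬ (rnk X Y c (rep (c w)) u + s < rnk X Y c (rep (c w)) v)) = 1 := by
            apply ind_pos
            refine ⟨by rw [hcw]; exact hw, hu, huv, ?_, ?_⟩
            · rw [r1, r2]; exact g1
            · rw [r1, r2]; exact g2
          have h4 : ind (c (rep (c w)) ≠ c v ∧ c u = c v ∧ u ≠ v ∧
              ¬ (rnk X Y c (rep (c w)) v + s < rnk X Y c (rep (c w)) u) ∧
              ¬ (rnk X Y c (rep (c w)) u + s < rnk X Y c (rep (c w)) v)) ≤
              ∑ j : Fin M, ind (c (rep j) ≠ c v ∧ c u = c v ∧ u ≠ v ∧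
              ¬ (rnk X Y c (rep j) v + s < rnk X Y c (rep j) u) ∧
              ¬ (rnk X Y c (rep j) u + s < rnk X Y c (rep j) v)) :=
            Finset.single_le_sum (f := fun j : Fin M => ind (c (rep j) ≠ c v ∧ c u = c v ∧
              u ≠ v ∧ ¬ (rnk X Y c (rep j) v + s < rnk X Y c (rep j) u) ∧
              ¬ (rnk X Y c (rep j) u + s < rnk X Y c (rep j) v)))
              (fun _ _ => Nat.zero_le _) (Finset.mem_univ (c w))
          omega
    · rw [ind_neg hu]
      exact Nat.zero_le _
  omega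

/-- **Main count for mutually avoiding classes.** -/
theorem main_count2 [Nonempty V] (h : AvRel X Y c) (hX : Function.Injective X) (hgp : GP X Y)
    {t : ℕ} {L : Fin t → SimpleGraph V} (hL : ∀ i, Pln X Y (L i))
    (hcov : ∀ u v : V, u ≠ v → ∃ i, (L i).Adj u v)
    (hdis : ∀ u v : V, ∀ i j, (L i).Adj u v → (L j).Adj u v → i = j) (s : ℕ) :
    3 * Fintype.card V ^ 2 ≤ ∑ v, cnt (fun u => c u = c v) + 2 * Fintype.card V +
      4 * s * M * Fintype.card V + 2 * t * KK M (Fintype.card V) s := by
  classical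
  obtain ⟨rep, hrep⟩ : ∃ rep : Fin M → V, ∀ v, c (rep (c v)) = c v := by
    refine ⟨fun j => if hj : ∃ v, c v = j then hj.choose else Classical.arbitrary V, ?_⟩
    intro v
    have hj : ∃ u, c u = c v := ⟨v, rfl⟩
    simp only [dif_pos hj]
    exact hj.choose_spec
  have h1 := Finset.sum_le_sum (fun i (_ : i ∈ (Finset.univ : Finset (Fin t))) =>
    layer_bound2 (s := s) h hX hgp (hL i) hrep)
  rw [Finset.sum_add_distrib, ← Finset.mul_sum, ← Finset.mul_sum, Finset.sum_const,
    Finset.card_univ, Fintype.card_fin, smul_eq_mul] at h1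
  have h2 : ∑ i, ∑ v, cnt (fun u => (L i).Adj v u ∧ Lg X Y c s v u) =
      ∑ v, cnt (fun u => v ≠ u ∧ Lg X Y c s v u) := by
    rw [Finset.sum_comm]
    refine Finset.sum_congr rfl (fun v _ => ?_)
    rw [← sum_layers hcov hdis v (fun u => v ≠ u ∧ Lg X Y c s v u) (fun u hu => hu.1)]
    refine Finset.sum_congr rfl (fun i _ => cnt_congr' (fun u => ?_))
    constructor
    · rintro ⟨g1, g2⟩; exact ⟨g1, g1.ne, g2⟩
    · rintro ⟨g1, -, g2⟩; exact ⟨g1, g2⟩
  have h3 : ∑ i, ∑ v, cnt (fun u => (L i).Adj v u ∧ c v ≠ c u) =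
      ∑ v, cnt (fun u => c v ≠ c u) := by
    rw [Finset.sum_comm]
    refine Finset.sum_congr rfl (fun v _ => ?_)
    rw [← sum_layers hcov hdis v (fun u => c v ≠ c u) (fun u hu e => hu (by rw [e]))]
  rw [h2, h3] at h1
  have h4 := Finset.sum_le_sum (fun v (_ : v ∈ (Finset.univ : Finset V)) =>
    long_pairs h hgp s hrep v)
  rw [Finset.sum_add_distrib, Finset.sum_add_distrib, Finset.sum_const, Finset.sum_const,
    Finset.card_univ, smul_eq_mul, smul_eq_mul] at h4
  have h5 : ∑ v, cnt (fun u => c v ≠ c u) + ∑ v, cnt (fun u => c u = c v) =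
      Fintype.card V ^ 2 := by
    rw [← Finset.sum_add_distrib]
    have : ∀ v, cnt (fun u => c v ≠ c u) + cnt (fun u => c u = c v) = Fintype.card V := by
      intro v
      rw [cnt_ind, cnt_ind, ← Finset.sum_add_distrib]
      have h1 : Fintype.card V = ∑ _v : V, 1 := by simp
      rw [h1]
      refine Finset.sum_congr rfl (fun u _ => ?_)
      by_cases h : c v = c u
      · rw [ind_neg (fun g => g h), ind_pos h.symm]
      · rw [ind_pos h, ind_neg (fun g => h g.symm)]
    rw [Finset.sum_congr rfl (fun v _ => this v), Finset.sum_const, Finset.card_univ,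
      smul_eq_mul]
    ring
  have e1 : t * (2 * KK M (Fintype.card V) s) = 2 * t * KK M (Fintype.card V) s := by ring
  have e2 : Fintype.card V * (M * (2 * s)) * 2 = 4 * s * M * Fintype.card V := by ring
  rw [e1] at h1
  omega

end

end Helper14.GT
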