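import Pool.Agent.Helper14.GT.LemT

/-!
# A vertex that is not pointed lies inside a triangle of neighbours
-/

namespace Helper14.GT

open Helper24.GT

variable {V : Type*} {X Y : V → ℝ}

/-- A vertex `v` that is not pointed has three neighbours `x`, `y`, `z` such that `v` lies in the
interior of the triangle `x y z`. -/
theorem exists_triple [Finite V] (hX : Function.Injective X) (hgp : GP X Y) {G : SimpleGraph V} {v : V}
    (h : ¬ Pointed X Y G v) : ∃ x y z, G.Adj v x ∧ G.Adj v y ∧ G.Adj v z ∧
      0 < D X Y v x y ∧ 0 < D X Y v y z ∧ 0 < D X Y v z x := by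
  classical
  set P : V → ℝ × ℝ := fun u => (X u - X v, Y u - Y v) with hP
  set S : Set (ℝ × ℝ) := P '' {u | G.Adj v u} with hS
  have hfin : S.Finite := (Set.toFinite _).image _
  by_cases h0 : (0 : ℝ × ℝ) ∈ convexHull ℝ S
  · obtain ⟨ι, _, z, w, hz, hind, hw, hw1, hw0⟩ := eq_pos_convex_span_of_mem_convexHull h0
    have hcard : Fintype.card ι ≤ 3 := by
      have h1 := hind.card_le_finrank_succ
      have h2 : Module.finrank ℝ (vectorSpan ℝ (Set.range z)) ≤ Module.finrank ℝ (ℝ × ℝ) :=
        Submodule.finrank_le _
      have h3 : Module.finrank ℝ (ℝ × ℝ) = 2 := by simp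
      omega
    have hmem : ∀ i, ∃ u, G.Adj v u ∧ P u = z i := by
      intro i
      have := hz ⟨i, rfl⟩
      exact this
    choose u hu1 hu2 using hmem
    have hx : ∑ i, w i * (X (u i) - X v) = 0 := by
      have := congrArg Prod.fst hw0
      rw [Prod.fst_sum] at this
      rw [← Prod.fst_zero (M := ℝ) (N := ℝ), ← this]
      refine Finset.sum_congr rfl (fun i _ => ?_)
      rw [← hu2 i]; rfl
    have hy : ∑ i, w i * (Y (u i) - Y v) = 0 := by
      have := congrArg Prod.snd hw0
      rw [Prod.snd_sum] at this
      rw [← Prod.snd_zero (M := ℝ) (N := ℝ), ← this]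
      refine Finset.sum_congr rfl (fun i _ => ?_)
      rw [← hu2 i]; rfl
    have hinj : ∀ i j, i ≠ j → u i ≠ u j := by
      intro i j hij he
      apply hij
      apply hind.injective
      rw [← hu2 i, ← hu2 j, he]
    obtain ⟨k, ⟨e⟩⟩ : ∃ k, Nonempty (ι ≃ Fin k) := ⟨_, ⟨Fintype.equivFin ι⟩⟩
    have hk : k ≤ 3 := by
      have := Fintype.card_congr e
      simp at this
      omega
    -- transport to `Fin k`
    have hx' : ∑ i : Fin k, w (e.symm i) * (X (u (e.symm i)) - X v) = 0 := by
      rw [← hx]; exact Equiv.sum_comp e.symm (fun i => w i * (X (u i) - X v))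
    have hy' : ∑ i : Fin k, w (e.symm i) * (Y (u (e.symm i)) - Y v) = 0 := by
      rw [← hy]; exact Equiv.sum_comp e.symm (fun i => w i * (Y (u i) - Y v))
    have hw1' : ∑ i : Fin k, w (e.symm i) = 1 := by
      rw [← hw1]; exact Equiv.sum_comp e.symm w
    interval_cases k
    · simp at hw1'
    · exfalso
      simp only [Fin.sum_univ_one] at hx' hy'
      have hp := hw (e.symm 0)
      have e1 : X (u (e.symm 0)) - X v = 0 := (mul_eq_zero.1 hx').resolve_left hp.ne'
      exact (hu1 (e.symm 0)).ne (hX (by linarith))
    · exfalso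
      simp only [Fin.sum_univ_two] at hx' hy'
      set a := u (e.symm 0)
      set b := u (e.symm 1)
      have hab : a ≠ b := hinj _ _ (by simp)
      apply hgp v a b (hu1 _).ne (hu1 _).ne hab
      have hp := hw (e.symm 0)
      have e1 : w (e.symm 0) * ((X a - X v) * (Y b - Y v) - (X b - X v) * (Y a - Y v)) = 0 := by
        linear_combination (Y b - Y v) * hx' - (X b - X v) * hy'
      exact (mul_eq_zero.1 e1).resolve_left hp.ne'
    · simp only [Fin.sum_univ_three] at hx' hy'
      set a := u (e.symm 0) with ha
      set b := u (e.symm 1) with hb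
      set c := u (e.symm 2) with hc
      have hp0 := hw (e.symm 0)
      have hp1 := hw (e.symm 1)
      have hp2 := hw (e.symm 2)
      have hab : a ≠ b := hinj _ _ (by simp)
      have e1 : w (e.symm 1) * D X Y v a b = w (e.symm 2) * D X Y v c a := by
        unfold D
        linear_combination (X a - X v) * hy' - (Y a - Y v) * hx'
      have e2 : w (e.symm 2) * D X Y v b c = w (e.symm 0) * D X Y v a b := by
        unfold D
        linear_combination (X b - X v) * hy' - (Y b - Y v) * hx'
      rcases lt_or_gt_of_ne (D_ne hgp (hu1 (e.symm 0)).ne (hu1 (e.symm 1)).ne hab) with hs | hs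
      · -- negative orientation: use (a, c, b)
        refine ⟨a, c, b, hu1 _, hu1 _, hu1 _, ?_, ?_, ?_⟩
        · have h1 : w (e.symm 2) * D X Y v c a < 0 := by
            rw [← e1]; exact mul_neg_of_pos_of_neg hp1 hs
          have h2 : D X Y v c a < 0 := by
            by_contra hcon
            push Not at hcon
            have := mul_nonneg hp2.le hcon
            linarith
          have := D_swap X Y v c a
          linarith
        · have h1 : w (e.symm 2) * D X Y v b c < 0 := by
            rw [e2]; exact mul_neg_of_pos_of_neg hp0 hs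
          have h2 : D X Y v b c < 0 := by
            by_contra hcon
            push Not at hcon
            have := mul_nonneg hp2.le hcon
            linarith
          have := D_swap X Y v b c
          linarith
        · have := D_swap X Y v a b
          linarith
      · refine ⟨a, b, c, hu1 _, hu1 _, hu1 _, hs, ?_, ?_⟩
        · have h1 : 0 < w (e.symm 2) * D X Y v b c := by
            rw [e2]; exact mul_pos hp0 hs
          exact (pos_iff_pos_of_mul_pos h1).1 hp2
        · have h1 : 0 < w (e.symm 2) * D X Y v c a := by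
            rw [← e1]; exact mul_pos hp1 hs
          exact (pos_iff_pos_of_mul_pos h1).1 hp2
  · exfalso
    have hcl : IsClosed (convexHull ℝ S) := (hfin.isCompact_convexHull ℝ).isClosed
    obtain ⟨f, b, hf1, hf2⟩ := geometric_hahn_banach_closed_point
      (convex_convexHull ℝ S) hcl h0
    apply h
    refine ⟨- f (1, 0), - f (0, 1), fun q hq => ?_⟩
    have h1 := hf1 (P q) (subset_convexHull ℝ S ⟨q, hq, rfl⟩)
    rw [map_zero] at hf2
    have h2 : f (P q) = (X q - X v) * f (1, 0) + (Y q - Y v) * f (0, 1) := by
      have : P q = (X q - X v) • ((1 : ℝ), (0 : ℝ)) + (Y q - Y v) • ((0 : ℝ), (1 : ℝ)) := by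
        simp [hP]
      rw [this, map_add, map_smul, map_smul]
      simp
    rw [h2] at h1
    linarith

end Helper14.GT
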