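import Pool.Agent.Helper14.GT.Av

/-!
# Edges between two mutually avoiding classes form a zigzag
-/

namespace Helper14.GT

open Helper24.GT

variable {V : Type*} {M : ℕ} {X Y : V → ℝ} {c : V → Fin M}

/-- `v` has a neighbour in the class `j`. -/
def nb (c : V → Fin M) (G : SimpleGraph V) (j : Fin M) (v : V) : Prop :=
  ∃ w, c w = j ∧ G.Adj v w

theorem mono (h : AvRel X Y c) {G : SimpleGraph V} (hG : Pln X Y G) {u u' w w' : V}
    (huu : c u = c u') (hww : c w = c w') (huw : c u ≠ c w) (a1 : G.Adj u w) (a2 : G.Adj u' w')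
    (h1 : 0 < D X Y w u u') (h2 : 0 < D X Y u w w') : False := by
  have n : ∀ {x y : V}, c x ≠ c y → x ≠ y := fun h e => h (by rw [e])
  have hu : u ≠ u' := by
    rintro rfl
    rw [D_self3] at h1
    exact lt_irrefl _ h1
  have hw : w ≠ w' := by
    rintro rfl
    rw [D_self3] at h2
    exact lt_irrefl _ h2
  have h1' : 0 < D X Y w' u u' :=
    h.view hu hww huw.symm (by rw [← huu]; exact huw.symm) h1
  have h2' : 0 < D X Y u' w w' :=
    h.view hw huu huw (by rw [← hww]; exact huw) h2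
  refine not_cross hG a1 a2 hu (n (by rw [← hww]; exact huw)) (n (by rw [← huu]; exact huw.symm))
    hw ?_ ?_
  · have e : D X Y u w u' = - D X Y w u u' := by unfold D; ring
    rw [e]
    exact mul_neg_of_neg_of_pos (by linarith) h2
  · have e1 : D X Y u' w' u = D X Y w' u u' := by unfold D; ring
    have e2 : D X Y u' w' w = - D X Y u' w w' := by unfold D; ring
    rw [e1, e2]
    exact mul_neg_of_pos_of_neg h1' (by linarith)

open Classical in
/-- The number of edges between two mutually avoiding classes is at most the number of vertices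
involved. -/
theorem zig [Fintype V] (h : AvRel X Y c) (hgp : GP X Y) {G : SimpleGraph V} (hG : Pln X Y G)
    {i j : Fin M} (hij : i ≠ j) :
    (Finset.univ.filter (fun e : V × V => c e.1 = i ∧ c e.2 = j ∧ G.Adj e.1 e.2)).card ≤
      cnt (fun v => c v = i ∧ nb c G j v) + cnt (fun v => c v = j ∧ nb c G i v) := by
  set S := Finset.univ.filter (fun e : V × V => c e.1 = i ∧ c e.2 = j ∧ G.Adj e.1 e.2) with hS
  have hmem : ∀ e, e ∈ S ↔ c e.1 = i ∧ c e.2 = j ∧ G.Adj e.1 e.2 := by
    intro e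
    rw [hS, Finset.mem_filter]
    exact ⟨fun h => h.2, fun h => ⟨Finset.mem_univ _, h⟩⟩
  rcases S.eq_empty_or_nonempty with hemp | ⟨⟨u0, w0⟩, he0⟩
  · rw [hemp]; simp
  obtain ⟨cu0, cw0, ad0⟩ := (hmem _).1 he0
  simp only at cu0 cw0 ad0
  set ρ : V → ℕ := fun u => cnt (fun x => (c x = i ∧ nb c G j x) ∧ 0 < D X Y w0 x u) with hρ
  set σ : V → ℕ := fun w => cnt (fun y => (c y = j ∧ nb c G i y) ∧ 0 < D X Y u0 w y) with hσ
  have hρlt : ∀ u, c u = i → nb c G j u → ρ u < cnt (fun v => c v = i ∧ nb c G j v) := by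
    intro u hu hn
    refine cnt_lt_cnt (v := u) (fun x hx => hx.1) ⟨hu, hn⟩ ?_
    rintro ⟨-, hx⟩
    rw [D_self3] at hx
    exact lt_irrefl _ hx
  have hσlt : ∀ w, c w = j → nb c G i w → σ w < cnt (fun v => c v = j ∧ nb c G i v) := by
    intro w hw hn
    refine cnt_lt_cnt (v := w) (fun x hx => hx.1) ⟨hw, hn⟩ ?_
    rintro ⟨-, hx⟩
    rw [D_self3] at hx
    exact lt_irrefl _ hx
  have hρmono : ∀ u u', c u = i → nb c G j u → c u' = i → 0 < D X Y w0 u u' → ρ u < ρ u' := by
    intro u u' hu hn hu' hs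
    refine cnt_lt_cnt (v := u) ?_ ⟨⟨hu, hn⟩, hs⟩ ?_
    · rintro x ⟨hx1, hx2⟩
      refine ⟨hx1, h.trans hgp (hx1.1.trans hu.symm) (hu.trans hu'.symm) ?_ hx2 hs⟩
      rw [cw0, hx1.1]; exact hij.symm
    · rintro ⟨-, hx⟩
      rw [D_self3] at hx
      exact lt_irrefl _ hx
  have hσmono : ∀ w w', c w = j → c w' = j → nb c G i w' → 0 < D X Y u0 w w' → σ w' < σ w := by
    intro w w' hw hw' hn hs
    refine cnt_lt_cnt (v := w') ?_ ⟨⟨hw', hn⟩, hs⟩ ?_
    · rintro x ⟨hx1, hx2⟩
      refine ⟨hx1, h.trans hgp (hw.trans hw'.symm) (hw'.trans hx1.1.symm) ?_ hs hx2⟩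
      rw [cu0, hw]; exact hij
    · rintro ⟨-, hx⟩
      rw [D_self3] at hx
      exact lt_irrefl _ hx
  have n : ∀ {x y : V}, c x ≠ c y → x ≠ y := fun h e => h (by rw [e])
  -- comparison of two edges
  have hcmp : ∀ u w u' w', c u = i → c w = j → G.Adj u w → c u' = i → c w' = j → G.Adj u' w' →
      0 < D X Y w0 u u' → ρ u + σ w < ρ u' + σ w' := by
    intro u w u' w' hu hw a hu' hw' a' hs
    have huu : u ≠ u' := by
      rintro rfl
      rw [D_self3] at hs
      exact lt_irrefl _ hs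
    have h1 : ρ u < ρ u' := hρmono u u' hu ⟨w, hw, a⟩ hu' hs
    have h2 : ¬ 0 < D X Y u w w' := by
      intro h3
      refine mono h hG (hu.trans hu'.symm) (hw.trans hw'.symm) (by rw [hu, hw]; exact hij) a a' ?_ h3
      exact h.view huu (cw0.trans hw.symm) (by rw [cw0, hu]; exact hij.symm)
        (by rw [cw0, hu']; exact hij.symm) hs
    by_cases hww : w = w'
    · rw [hww]; omega
    · have h3 : D X Y u0 w w' < 0 := by
        have h4 : D X Y u w w' ≠ 0 := D_ne hgp (n (by rw [hu, hw]; exact hij))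
          (n (by rw [hu, hw']; exact hij)) hww
        have h5 : D X Y u w w' < 0 := lt_of_le_of_ne (not_lt.1 h2) h4
        exact h.view_neg hww (hu.trans cu0.symm) (by rw [hu, hw]; exact hij)
          (by rw [hu, hw']; exact hij) h5
      have h6 := D_swap X Y u0 w w'
      have := hσmono w' w hw' hw ⟨u, hu, a.symm⟩ (by linarith)
      omega
  have hinj : Set.InjOn (fun e : V × V => ρ e.1 + σ e.2) S := by
    intro e he e' he' hee
    obtain ⟨hu, hw, a⟩ := (hmem e).1 he
    obtain ⟨hu', hw', a'⟩ := (hmem e').1 he'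
    simp only at hee
    by_cases huu : e.1 = e'.1
    · by_cases hww : e.2 = e'.2
      · exact Prod.ext huu hww
      · exfalso
        have h4 : D X Y u0 e.2 e'.2 ≠ 0 := D_ne hgp (n (by rw [cu0, hw]; exact hij))
          (n (by rw [cu0, hw']; exact hij)) hww
        rw [huu] at hee
        rcases lt_or_gt_of_ne h4 with h5 | h5
        · have h6 := D_swap X Y u0 e.2 e'.2
          have := hσmono e'.2 e.2 hw' hw ⟨e.1, hu, a.symm⟩ (by linarith)
          omega
        · have := hσmono e.2 e'.2 hw hw' ⟨e'.1, hu', a'.symm⟩ h5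
          omega
    · exfalso
      have h4 : D X Y w0 e.1 e'.1 ≠ 0 := D_ne hgp (n (by rw [cw0, hu]; exact hij.symm))
        (n (by rw [cw0, hu']; exact hij.symm)) huu
      rcases lt_or_gt_of_ne h4 with h5 | h5
      · have h6 := D_swap X Y w0 e.1 e'.1
        have := hcmp e'.1 e'.2 e.1 e.2 hu' hw' a' hu hw a (by linarith)
        omega
      · have := hcmp e.1 e.2 e'.1 e'.2 hu hw a hu' hw' a' h5
        omega
  have hcard : S.card ≤ (Finset.range (cnt (fun v => c v = i ∧ nb c G j v) +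
      cnt (fun v => c v = j ∧ nb c G i v))).card := by
    refine Finset.card_le_card_of_injOn _ ?_ hinj
    intro e he
    obtain ⟨hu, hw, a⟩ := (hmem e).1 he
    have h1 := hρlt e.1 hu ⟨e.2, hw, a⟩
    have h2 := hσlt e.2 hw ⟨e.1, hu, a.symm⟩
    simp only [Finset.coe_range, Set.mem_Iio]
    omega
  rwa [Finset.card_range] at hcard

open Classical in
/-- Number of other classes in which `v` has a neighbour. -/
noncomputable def ct (c : V → Fin M) (G : SimpleGraph V) (v : V) : ℕ :=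
  (Finset.univ.filter (fun j => j ≠ c v ∧ nb c G j v)).card

open Classical in
theorem sum_classes2 [Fintype V] (P : V → V → Prop) :
    ∑ i : Fin M, ∑ j : Fin M, (if i = j then 0 else
      ∑ x : V, ∑ y : V, if c x = i ∧ c y = j ∧ P x y then 1 else 0) =
    ∑ x : V, ∑ y : V, if P x y ∧ c x ≠ c y then 1 else 0 := by
  have e1 : ∀ i j : Fin M, (if i = j then 0 else ∑ x : V, ∑ y : V,
      if c x = i ∧ c y = j ∧ P x y then 1 else 0) = ∑ x : V, ∑ y : V,
      if i ≠ j ∧ c x = i ∧ c y = j ∧ P x y then 1 else 0 := by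
    intro i j
    by_cases hij : i = j
    · simp [hij]
    · simp [hij]
  simp only [e1]
  have e2 : ∀ i : Fin M, (∑ j : Fin M, ∑ x : V, ∑ y : V,
      if i ≠ j ∧ c x = i ∧ c y = j ∧ P x y then 1 else 0) = ∑ x : V, ∑ y : V, ∑ j : Fin M,
      if i ≠ j ∧ c x = i ∧ c y = j ∧ P x y then 1 else 0 := by
    intro i
    rw [Finset.sum_comm]
    exact Finset.sum_congr rfl (fun x _ => Finset.sum_comm)
  simp only [e2]
  rw [Finset.sum_comm]
  refine Finset.sum_congr rfl (fun x _ => ?_)
  rw [Finset.sum_comm]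
  refine Finset.sum_congr rfl (fun y _ => ?_)
  rw [Finset.sum_eq_single (c x), Finset.sum_eq_single (c y)]
  · by_cases hh : P x y ∧ c x ≠ c y
    · rw [if_pos hh, if_pos ⟨hh.2, rfl, rfl, hh.1⟩]
    · rw [if_neg hh, if_neg (fun h => hh ⟨h.2.2.2, h.1⟩)]
  · intro b _ hb
    rw [if_neg]
    rintro ⟨_, _, h3, _⟩
    exact hb h3.symm
  · intro h; exact absurd (Finset.mem_univ _) h
  · intro b _ hb
    refine Finset.sum_eq_zero (fun j _ => ?_)
    rw [if_neg]
    rintro ⟨_, h2, _, _⟩
    exact hb h2.symm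
  · intro h; exact absurd (Finset.mem_univ _) h

open Classical in
theorem sum_classes1 [Fintype V] (P : Fin M → V → Prop) :
    ∑ i : Fin M, ∑ j : Fin M, (if i = j then 0 else
      ∑ x : V, if c x = i ∧ P j x then 1 else 0) =
    ∑ x : V, ∑ j : Fin M, if j ≠ c x ∧ P j x then 1 else 0 := by
  have e1 : ∀ i j : Fin M, (if i = j then 0 else ∑ x : V,
      if c x = i ∧ P j x then 1 else 0) = ∑ x : V,
      if i ≠ j ∧ c x = i ∧ P j x then 1 else 0 := by
    intro i j
    by_cases hij : i = j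
    · simp [hij]
    · simp [hij]
  simp only [e1]
  have e2 : ∀ i : Fin M, (∑ j : Fin M, ∑ x : V,
      if i ≠ j ∧ c x = i ∧ P j x then 1 else 0) = ∑ x : V, ∑ j : Fin M,
      if i ≠ j ∧ c x = i ∧ P j x then 1 else 0 := by
    intro i
    rw [Finset.sum_comm]
  simp only [e2]
  rw [Finset.sum_comm]
  refine Finset.sum_congr rfl (fun x _ => ?_)
  rw [Finset.sum_comm]
  refine Finset.sum_congr rfl (fun j _ => ?_)
  rw [Finset.sum_eq_single (c x)]
  · by_cases hh : j ≠ c x ∧ P j x
    · rw [if_pos hh, if_pos ⟨hh.1.symm, rfl, hh.2⟩]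
    · rw [if_neg hh, if_neg (fun h => hh ⟨h.1.symm, h.2.2⟩)]
  · intro b _ hb
    rw [if_neg]
    rintro ⟨_, h2, _⟩
    exact hb h2.symm
  · intro h; exact absurd (Finset.mem_univ _) h

open Classical in
theorem inter_le [Fintype V] (h : AvRel X Y c) (hgp : GP X Y) {G : SimpleGraph V}
    (hG : Pln X Y G) : ∑ v, cnt (fun u => G.Adj v u ∧ c v ≠ c u) ≤ 2 * ∑ v, ct c G v := by
  have h1 : ∑ v, cnt (fun u => G.Adj v u ∧ c v ≠ c u) = ∑ i, ∑ j, if i = j then 0 else
      (Finset.univ.filter (fun e : V × V => c e.1 = i ∧ c e.2 = j ∧ G.Adj e.1 e.2)).card := by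
    simp only [cnt_eq_sum, Finset.card_filter, Fintype.sum_prod_type]
    convert (sum_classes2 (c := c) (fun x y => G.Adj x y)).symm
  have h2 : ∑ v, ct c G v = ∑ i, ∑ j, if i = j then 0 else
      cnt (fun v => c v = i ∧ nb c G j v) := by
    unfold ct
    simp only [cnt_eq_sum, Finset.card_filter]
    convert (sum_classes1 (c := c) (fun j x => nb c G j x)).symm
  have h3 : ∑ i, ∑ j, (if i = j then 0 else
      cnt (fun v => c v = i ∧ nb c G j v)) = ∑ i, ∑ j, (if i = j then 0 else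
      cnt (fun v => c v = j ∧ nb c G i v)) := by
    rw [Finset.sum_comm]
    refine Finset.sum_congr rfl (fun i _ => Finset.sum_congr rfl (fun j _ => ?_))
    by_cases hij : i = j
    · rw [if_pos hij, if_pos hij.symm]
    · rw [if_neg hij, if_neg (fun e => hij e.symm)]
  rw [h1, two_mul, h2]
  nth_rewrite 2 [h3]
  rw [← Finset.sum_add_distrib]
  refine Finset.sum_le_sum (fun i _ => ?_)
  rw [← Finset.sum_add_distrib]
  refine Finset.sum_le_sum (fun j _ => ?_)
  by_cases hij : i = j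
  · simp [hij]
  · rw [if_neg hij, if_neg hij, if_neg hij]
    exact zig h hgp hG hij

end Helper14.GT
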